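import Mathlib
import Pool.Agent.H11.PC.Defs
import Pool.Agent.H11.PC.FDCO
import Pool.Agent.H11.SC5.Defs5

/-!
# Pretentious entire functions of degree two (helper11): definitions

PROJECT.  Theorem: let `F` be an entire element of the Selberg class of degree `2` and rational
conductor with `S_F(x) = O(log log x)`.  Then `F(s) = L(s + i t1, χ1) L(s + i t2, χ2)` with primitive
non-principal characters, or for every Dirichlet character `χ`, all real `t` and `ε > 0`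
`Re ∑_{p ≤ x} a(p) χ(p) p^(-1-it) ≤ ε log log x + C`.

Notation: `b(n) = a(n) n^(-iδ)` (`δ` is chosen so that `∑ Im μ_j = 0`), `LT b g s = ∑ b(n) g(n) n^(-s)`,
`Es b β s = ∑ b(n) e(-nβ) n^(-s)` (definitions of `H11/PC`).  `U` is an ultrafilter finer than
`𝓝[>] 0`, `om → 0` along `U` is a positive weight with: all `om(α) L(b χ, 1 ± iθ + α)` are bounded along
`U`, not all of them tend to `0`.
-/

set_option autoImplicit false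

namespace Pool.Agent.H11.PB

open Complex Filter Topology Pool.Agent.H11.Selberg Pool.Agent.H11.SC Pool.Agent.H11.PC

/-- the twist by `g` is `o(α^(-κ))` along `U` at `1 - iθ + α` -/
def Sml (b : ℕ → ℂ) (κ θ : ℝ) (U : Filter ℝ) (g : ℕ → ℂ) : Prop :=
  Tendsto (fun α : ℝ => ((α ^ κ : ℝ) : ℂ) * LT b g (1 - θ * I + α)) U (𝓝 0)

/-- the set of the primitive characters whose twist is not `o(α^(-κ))` along `U` at `1 - iθ + α` -/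
def Xs (b : ℕ → ℂ) (κ θ : ℝ) (U : Filter ℝ) : Set (Σ f : ℕ, DirichletCharacter ℂ f) :=
  {x | x.1 ≠ 0 ∧ x.2.IsPrimitive ∧ ¬ Sml b κ θ U (fun n => x.2 (n : ZMod x.1))}

/-- `r` is good: all twists by characters of modulus `N r^e` which are not principal at `r` are
`o(1/om)` along `U` at `1 - iθ + α` (compare `PC.Good`) -/
def GoodW (b : ℕ → ℂ) (N : ℕ) (θ : ℝ) (U : Filter ℝ) (om : ℝ → ℝ) (r : ℕ) : Prop :=
  ∀ (e : ℕ) (χ : DirichletCharacter ℂ N) (ψ : DirichletCharacter ℂ (r ^ e)), ψ ≠ 1 →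
    Tendsto (fun α : ℝ => (om α : ℂ) * LT b (prodChar χ ψ) (1 - θ * I + α)) U (𝓝 0)

/-- the weight; the result of chapter 0 -/
structure BD (b : ℕ → ℂ) (θ : ℝ) (U : Ultrafilter ℝ) (om : ℝ → ℝ) (M0 : ℕ) : Prop where
  pd : PD b
  le : (U : Filter ℝ) ≤ 𝓝[>] 0
  om0 : Tendsto om U (𝓝 0)
  bdd : ∀ σ : ℝ, (σ = θ ∨ σ = -θ) → ∀ (N : ℕ) [NeZero N] (χ : DirichletCharacter ℂ N),
    ∃ C : ℝ, ∀ᶠ α in (U : Filter ℝ),
      ‖(om α : ℂ) * LT b (fun n => χ (n : ZMod N)) (1 - σ * I + α)‖ ≤ C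
  M0pos : 1 ≤ M0
  good : ∀ σ : ℝ, (σ = θ ∨ σ = -θ) → ∀ r : ℕ, r.Prime → ¬ r ∣ M0 → ∀ (N : ℕ) [NeZero N], ¬ r ∣ N →
    GoodW b N σ U om r
  ne : ∃ (c : ℕ) (_ : NeZero c) (χ : DirichletCharacter ℂ c), χ.IsPrimitive ∧
    ¬ Tendsto (fun α : ℝ => (om α : ℂ) * LT b (fun n => χ (n : ZMod c)) (1 + θ * I + α)) U (𝓝 0)

/-- the data at the cusps `u0/(N m)`, `m` prime to `c`; the result of chapter 2 -/
structure QD (b : ℕ → ℂ) (θ : ℝ) (U : Ultrafilter ℝ) (om : ℝ → ℝ) (M0 N u0 c : ℕ) (w : ℂ)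
    (D : ZMod c → ℂ) : Prop where
  pd : PD b
  le : (U : Filter ℝ) ≤ 𝓝[>] 0
  om0 : Tendsto om U (𝓝 0)
  bdd : ∀ (L : ℕ) [NeZero L] (χ : DirichletCharacter ℂ L), ∃ C : ℝ, ∀ᶠ α in (U : Filter ℝ),
    ‖(om α : ℂ) * LT b (fun n => χ (n : ZMod L)) (1 - θ * I + α)‖ ≤ C
  M0pos : 1 ≤ M0
  good : ∀ r : ℕ, r.Prime → ¬ r ∣ M0 → ∀ (L : ℕ) [NeZero L], ¬ r ∣ L → GoodW b L θ U om r
  Npos : 1 ≤ N
  upos : 1 ≤ u0
  cpos : 1 ≤ c
  cop : Nat.Coprime u0 N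
  w_ne : w ≠ 0
  D1 : D 1 = 1
  val : ∀ m : ℕ, 1 ≤ m → Nat.Coprime m c → Tendsto
    (fun α : ℝ => (om α : ℂ) * Es b ((u0 : ℝ) / ((N : ℝ) * m)) (1 - θ * I + α)) U
    (𝓝 (w * (m : ℂ) ^ (-1 + 2 * θ * I : ℂ) * D (m : ZMod c)))

/-- the Dirichlet coefficients of the quotient `F(s) / (L(s + i t1, χ1) L(s + i t2, χ2))` -/
structure DC2 (a : ℕ → ℂ) {N1 N2 : ℕ} [NeZero N1] [NeZero N2] (χ1 : DirichletCharacter ℂ N1)
    (t1 : ℝ) (χ2 : DirichletCharacter ℂ N2) (t2 : ℝ) (d : ℕ → ℂ) : Prop where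
  zero : d 0 = 0
  one : d 1 = 1
  mul : ∀ m n : ℕ, Nat.Coprime m n → d (m * n) = d m * d n
  pr : ∀ p : ℕ, p.Prime → d p = a p - (zch χ1 t1 p + zch χ2 t2 p)
  pk : ∀ p : ℕ, p.Prime → ∀ k : ℕ, d (p ^ (k + 2)) =
    a (p ^ (k + 2)) - (zch χ1 t1 p + zch χ2 t2 p) * a (p ^ (k + 1)) +
      zch χ1 t1 p * zch χ2 t2 p * a (p ^ k)
  sum : Summable (fun n : ℕ => ‖d n‖ * (n : ℝ) ^ (-(1 / 4) : ℝ))
  ser : ∀ s : ℂ, 1 < s.re →
    LSeries a s = χ1.LFunction (s + t1 * I) * χ2.LFunction (s + t2 * I) * LSeries d s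

/-- the Euler factor at `p` is that of `L(s + i t1, χ1) L(s + i t2, χ2)` -/
def EP2 (a : ℕ → ℂ) {N1 N2 : ℕ} (χ1 : DirichletCharacter ℂ N1) (t1 : ℝ)
    (χ2 : DirichletCharacter ℂ N2) (t2 : ℝ) (p : ℕ) : Prop :=
  ∀ k : ℕ, a (p ^ k) = ∑ i ∈ Finset.range (k + 1), zch χ1 t1 p ^ i * zch χ2 t2 p ^ (k - i)

end Pool.Agent.H11.PB
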