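import Mathlib
import Pool.Agent.H11.PB.Defs
import Pool.Agent.H11.PB.DCO2

/-!
# FAC2: from the coefficients at prime powers to `F = L L`

PROOF.  As `factor_zeta_L` in `SC7/Factor.lean` (with `g1 n = χ1(n) n^(-i t1)` instead of `1`).
-/

set_option autoImplicit false

namespace Pool.Agent.H11.PB

open Complex Filter Topology Pool.Agent.H11.Selberg Pool.Agent.H11.PC

theorem factor_L_L (a : ℕ → ℂ) (F : ℂ → ℂ) (hS : IsSelberg a F) {N1 N2 : ℕ} [NeZero N1]
    [NeZero N2] (χ1 : DirichletCharacter ℂ N1) (t1 : ℝ) (χ2 : DirichletCharacter ℂ N2) (t2 : ℝ)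
    (hloc : ∀ p : ℕ, p.Prime → EP2 a χ1 t1 χ2 t2 p) :
    ∀ s : ℂ, 1 < s.re → F s = χ1.LFunction (s + t1 * I) * χ2.LFunction (s + t2 * I) := by
  obtain ⟨d, D⟩ := dco2 a F hS χ1 t1 χ2 t2 ∅ Set.finite_empty (fun p hp _ => hloc p hp)
  have hrec : ∀ (z1 z2 : ℂ) (j : ℕ), ∑ i ∈ Finset.range (j + 1 + 1), z1 ^ i * z2 ^ (j + 1 - i) =
      z1 * (∑ i ∈ Finset.range (j + 1), z1 ^ i * z2 ^ (j - i)) + z2 ^ (j + 1) := by
    intro z1 z2 j
    rw [Finset.sum_range_succ', Finset.mul_sum, pow_zero, one_mul, Nat.sub_zero]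
    congr 1
    refine Finset.sum_congr rfl (fun i _ => ?_)
    rw [Nat.add_sub_add_right, pow_succ]
    ring
  have hd : ∀ p : ℕ, p.Prime → ∀ k : ℕ, d (p ^ (k + 1)) = 0 := by
    intro p hp k
    rcases k with _ | k
    · have h1 := hloc p hp 1
      rw [zero_add, pow_one, D.pr p hp]
      rw [pow_one] at h1
      rw [h1]
      simp [Finset.sum_range_succ]
      ring
    · rw [show k + 1 + 1 = k + 2 by rfl, D.pk p hp k, hloc p hp (k + 2), hloc p hp (k + 1),
        hloc p hp k, show k + 2 + 1 = (k + 1) + 1 + 1 by rfl, hrec _ _ (k + 1), hrec _ _ k]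
      ring
  have hd2 : ∀ n : ℕ, n ≠ 1 → d n = 0 := by
    intro n hn
    rcases Nat.eq_zero_or_pos n with rfl | hn0
    · exact D.zero
    · have hp := Nat.minFac_prime hn
      obtain ⟨j, m, hm, hnm⟩ := Nat.exists_eq_pow_mul_and_not_dvd hn0.ne' n.minFac hp.ne_one
      have hj : j ≠ 0 := by
        intro h0
        rw [h0, pow_zero, one_mul] at hnm
        rw [← hnm] at hm
        exact hm (Nat.minFac_dvd n)
      obtain ⟨i, hi⟩ := Nat.exists_eq_succ_of_ne_zero hj
      have hcop : Nat.Coprime (n.minFac ^ j) m :=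
        Nat.Coprime.pow_left _ ((Nat.Prime.coprime_iff_not_dvd hp).2 hm)
      rw [hnm, D.mul _ _ hcop, hi, Nat.succ_eq_add_one, hd _ hp, zero_mul]
  intro s hs
  have hL : LSeries d s = 1 := by
    unfold LSeries
    rw [tsum_eq_single 1]
    · rw [LSeries.term_of_ne_zero one_ne_zero, D.one]
      simp
    · intro n hn
      rcases Nat.eq_zero_or_pos n with rfl | hn0
      · simp
      · rw [LSeries.term_of_ne_zero hn0.ne', hd2 n hn, zero_div]
  rw [hS.eq_LSeries s hs, D.ser s hs, hL, mul_one]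

end Pool.Agent.H11.PB
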