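import Mathlib
import Pool.Agent.H11.PB.Defs
import Pool.Agent.H11.PC.FCONT

/-!
# FCT2: continuation of the factorisation to `Re s > 1/4`

PROOF.  As `fcont` and `dense_line` in `PC/FCONT.lean` (both `L`-functions are entire, so no pole; `fcont_an` there can be
cited).
-/

set_option autoImplicit false

namespace Pool.Agent.H11.PB

open Complex Filter Topology Pool.Agent.H11.Selberg Pool.Agent.H11.PC

private theorem fct_K {N1 N2 : ℕ} [NeZero N1] [NeZero N2] (χ1 : DirichletCharacter ℂ N1)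
    (h1 : χ1 ≠ 1) (t1 : ℝ) (χ2 : DirichletCharacter ℂ N2) (h2 : χ2 ≠ 1) (t2 : ℝ) :
    Differentiable ℂ (fun s : ℂ => χ1.LFunction (s + t1 * I) * χ2.LFunction (s + t2 * I)) := by
  have e1 : Differentiable ℂ fun s : ℂ => χ1.LFunction (s + t1 * I) :=
    (DirichletCharacter.differentiable_LFunction h1).comp (differentiable_id.add_const _)
  have e2 : Differentiable ℂ fun s : ℂ => χ2.LFunction (s + t2 * I) :=
    (DirichletCharacter.differentiable_LFunction h2).comp (differentiable_id.add_const _)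
  exact e1.mul e2

theorem fcont2 (a : ℕ → ℂ) (F : ℂ → ℂ) (hS : IsSelberg a F) {N1 N2 : ℕ} [NeZero N1] [NeZero N2]
    (χ1 : DirichletCharacter ℂ N1) (h1 : χ1 ≠ 1) (t1 : ℝ) (χ2 : DirichletCharacter ℂ N2)
    (h2 : χ2 ≠ 1) (t2 : ℝ) (d : ℕ → ℂ) (D : DC2 a χ1 t1 χ2 t2 d) (s : ℂ) (hs : 1 / 4 < s.re)
    (hs1 : s ≠ 1) :
    F s = χ1.LFunction (s + t1 * I) * χ2.LFunction (s + t2 * I) * LSeries d s := by
  obtain ⟨m, G, hG, -, hGs⟩ := hS.continuation
  have hK := fct_K χ1 h1 t1 χ2 h2 t2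
  set K : ℂ → ℂ := fun s : ℂ => χ1.LFunction (s + t1 * I) * χ2.LFunction (s + t2 * I) with hKd
  have hU : IsPreconnected {s : ℂ | 1 / 4 < s.re} := (convex_halfSpace_re_gt (1 / 4)).isPreconnected
  have hA : AnalyticOnNhd ℂ G {s : ℂ | 1 / 4 < s.re} := fun z _ => hG.analyticAt z
  have hB : AnalyticOnNhd ℂ (fun s => (s - 1) ^ m * K s * LSeries d s) {s : ℂ | 1 / 4 < s.re} := by
    have h2 : Differentiable ℂ fun s : ℂ => (s - 1) ^ m * K s :=
      ((differentiable_id.sub_const 1).pow m).mul hK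
    exact fun z hz => (h2.analyticAt z).mul (fcont_an D.sum z hz)
  have h3 : G =ᶠ[𝓝 (2 : ℂ)] fun s => (s - 1) ^ m * K s * LSeries d s := by
    have h4 : {s : ℂ | 1 < s.re} ∈ 𝓝 (2 : ℂ) := by
      refine (isOpen_lt continuous_const Complex.continuous_re).mem_nhds ?_
      norm_num
    filter_upwards [h4] with z hz
    have hz1 : z ≠ 1 := by
      rintro rfl
      have hz' : 1 < (1 : ℂ).re := hz
      norm_num at hz'
    rw [hGs z hz1, hS.eq_LSeries z hz, D.ser z hz]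
    simp only [hKd]
    ring
  have h5 := hA.eqOn_of_preconnected_of_eventuallyEq hB hU
    (show (2 : ℂ) ∈ {s : ℂ | 1 / 4 < s.re} by
      show (1 / 4 : ℝ) < (2 : ℂ).re
      norm_num) h3
  have h6 := h5 hs
  simp only at h6
  rw [hGs s hs1] at h6
  have h7 : (s - 1) ^ m ≠ 0 := pow_ne_zero _ (sub_ne_zero.2 hs1)
  apply mul_left_cancel₀ h7
  rw [h6]
  simp only [hKd]
  ring

theorem dense_line2 {N1 N2 : ℕ} [NeZero N1] [NeZero N2]
    (χ1 : DirichletCharacter ℂ N1) (h1 : χ1 ≠ 1) (t1 : ℝ) (χ2 : DirichletCharacter ℂ N2)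
    (h2 : χ2 ≠ 1) (t2 : ℝ) : Dense {t : ℝ | χ1.LFunction (1 / 2 + t * I + t1 * I) ≠ 0 ∧
      χ2.LFunction (1 / 2 + t * I + t2 * I) ≠ 0} := by
  have hK := fct_K χ1 h1 t1 χ2 h2 t2
  set K : ℂ → ℂ := fun s : ℂ => χ1.LFunction (s + t1 * I) * χ2.LFunction (s + t2 * I) with hKd
  have hsub : {t : ℝ | K (1 / 2 + t * I) ≠ 0} ⊆
      {t : ℝ | χ1.LFunction (1 / 2 + t * I + t1 * I) ≠ 0 ∧
        χ2.LFunction (1 / 2 + t * I + t2 * I) ≠ 0} := by
    intro t ht
    have h1 : K (1 / 2 + t * I) ≠ 0 := ht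
    exact ⟨left_ne_zero_of_mul h1, right_ne_zero_of_mul h1⟩
  refine Dense.mono hsub ?_
  rw [dense_iff_inter_open]
  intro U hU hUne
  by_contra hcon
  rw [Set.not_nonempty_iff_eq_empty] at hcon
  have hz : ∀ t ∈ U, K (1 / 2 + t * I) = 0 := by
    intro t ht
    by_contra h
    have : t ∈ U ∩ {t : ℝ | K (1 / 2 + t * I) ≠ 0} := ⟨ht, h⟩
    rw [hcon] at this
    exact this
  obtain ⟨t0, ht0⟩ := hUne
  have hcont : Continuous fun t : ℝ => (1 / 2 + t * I : ℂ) := by fun_prop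
  have hinj : Function.Injective fun t : ℝ => (1 / 2 + t * I : ℂ) := by
    intro t t' h
    have := congrArg Complex.im h
    simpa using this
  have htend : Tendsto (fun t : ℝ => (1 / 2 + t * I : ℂ)) (𝓝[≠] t0) (𝓝[≠] (1 / 2 + t0 * I)) := by
    refine tendsto_nhdsWithin_of_tendsto_nhds_of_eventually_within _
      (hcont.continuousAt.tendsto.mono_left nhdsWithin_le_nhds) ?_
    filter_upwards [self_mem_nhdsWithin] with t ht
    exact fun h => ht (hinj h)
  have hev : ∀ᶠ t in 𝓝[≠] t0, K (1 / 2 + (t : ℝ) * I) = (0 : ℂ → ℂ) (1 / 2 + (t : ℝ) * I) := by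
    have h0 : U ∈ 𝓝[≠] t0 := mem_nhdsWithin_of_mem_nhds (hU.mem_nhds ht0)
    filter_upwards [h0] with t ht
    exact hz t ht
  have hfreq : ∃ᶠ z in 𝓝[≠] (1 / 2 + t0 * I : ℂ), K z = (0 : ℂ → ℂ) z := htend.frequently hev.frequently
  have hKan : AnalyticOnNhd ℂ K Set.univ := fun z _ => hK.analyticAt z
  have h0an : AnalyticOnNhd ℂ (0 : ℂ → ℂ) Set.univ := fun z _ => analyticAt_const
  have hK0 : K = 0 := hKan.eq_of_frequently_eq h0an hfreq
  have h4 : ∀ (N : ℕ) [NeZero N] (χ : DirichletCharacter ℂ N) (t : ℝ),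
      χ.LFunction (2 + t * I) ≠ 0 := by
    intro N hN χ t
    apply DirichletCharacter.LFunction_ne_zero_of_one_le_re
    · right
      intro h
      have := congrArg Complex.re h
      norm_num at this
    · norm_num
  have h5 : K 2 ≠ 0 := mul_ne_zero (h4 N1 χ1 t1) (h4 N2 χ2 t2)
  exact h5 (by rw [hK0]; rfl)

end Pool.Agent.H11.PB
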