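import Mathlib
import Pool.Agent.H11.PB.Defs
import Pool.Agent.H11.PC.FPHASE
import Pool.Agent.H11.PC.FCRA
import Pool.Agent.H11.PB.FCT2
import Pool.Agent.H11.SC7.LFE

/-!
# FCR2: the functional equation of the quotient on the critical line

PROOF.  As `crit` in `PC/FCRIT.lean`; `f2 t = L(1/2+it+it1, χ1)`, `f3 t = L(1/2+it+it2, χ2)`, both with `L_functional`
(`SC7/LFE.lean`, the case `h1` of `fcrit_L`).
-/

set_option autoImplicit false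

namespace Pool.Agent.H11.PB

open Complex Filter Topology Pool.Agent.H11.Selberg Pool.Agent.H11.PC

private theorem fcrit_refl (t : ℝ) :
    1 - (starRingEnd ℂ) (1 / 2 + t * I : ℂ) = 1 / 2 + t * I := by
  rw [map_add, map_mul, conj_I, conj_ofReal, map_div₀, map_one, map_ofNat]
  ring

private theorem fcrit_re (t : ℝ) : (1 / 2 + t * I : ℂ).re = 1 / 2 := by
  simp

private theorem fcrit_ne (t : ℝ) : (1 / 2 + t * I : ℂ) ≠ 1 := by
  intro h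
  have h1 := fcrit_re t
  rw [h, one_re] at h1
  norm_num at h1

private theorem fcrit_line_cont : Continuous fun t : ℝ => (1 / 2 + t * I : ℂ) := by
  fun_prop

private theorem fcrit_eq (Q : ℝ) {r : ℕ} (lam : Fin r → ℝ) (mu : Fin r → ℂ) (F : ℂ → ℂ) (ε : ℂ)
    (t : ℝ) (h : completed Q lam mu F (1 / 2 + t * I) =
      ε * (starRingEnd ℂ) (completed Q lam mu F (1 - (starRingEnd ℂ) (1 / 2 + t * I)))) :
    cF Q lam mu t * F (1 / 2 + t * I) =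
      ε * (starRingEnd ℂ) (cF Q lam mu t * F (1 / 2 + t * I)) := by
  rw [fcrit_refl] at h
  exact h

private theorem fcrit_L {N : ℕ} [NeZero N] (χ : DirichletCharacter ℂ N) (hprim : χ.IsPrimitive)
    (τ : ℝ) (h1 : χ ≠ 1) :
    (Continuous fun t : ℝ => χ.LFunction (1 / 2 + t * I + τ * I)) ∧
    ∃ (Q3 : ℝ) (mu3 ε3 : ℂ), 0 < Q3 ∧ 0 ≤ mu3.re ∧ ‖ε3‖ = 1 ∧
      ∀ t : ℝ, cF Q3 (fun _ : Fin 1 => (1 / 2 : ℝ)) (fun _ : Fin 1 => mu3) t *
        χ.LFunction (1 / 2 + t * I + τ * I) =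
        ε3 * (starRingEnd ℂ) (cF Q3 (fun _ : Fin 1 => (1 / 2 : ℝ)) (fun _ : Fin 1 => mu3) t *
        χ.LFunction (1 / 2 + t * I + τ * I)) := by
  have hc : Continuous χ.LFunction := (DirichletCharacter.differentiable_LFunction h1).continuous
  obtain ⟨mu3, ε3, hmu3, hε3, hfe3⟩ := SC7.L_functional χ hprim h1 τ
  refine ⟨?_, Real.sqrt (N / Real.pi), mu3, ε3, ?_, hmu3, hε3, ?_⟩
  · exact hc.comp (by fun_prop)
  · have hN : (0 : ℝ) < N := by exact_mod_cast Nat.pos_of_ne_zero (NeZero.ne N)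
    exact Real.sqrt_pos.2 (by positivity)
  · intro t
    exact fcrit_eq _ _ _ (fun s => χ.LFunction (s + τ * I)) _ _
      (hfe3 _ (by rw [fcrit_re]; norm_num) (by rw [fcrit_re]; norm_num))

private theorem fcrit_F_cont (a : ℕ → ℂ) (F : ℂ → ℂ) (hS : IsSelberg a F) :
    Continuous fun t : ℝ => F (1 / 2 + t * I) := by
  obtain ⟨m, G, hG, _, hGF⟩ := hS.continuation
  have h1 : ∀ t : ℝ, F (1 / 2 + t * I) =
      G (1 / 2 + t * I) / ((1 / 2 + t * I : ℂ) - 1) ^ m := by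
    intro t
    have h2 : ((1 / 2 + t * I : ℂ) - 1) ^ m ≠ 0 := pow_ne_zero _ (sub_ne_zero.2 (fcrit_ne t))
    rw [eq_div_iff h2, hGF _ (fcrit_ne t), mul_comm]
  simp only [h1]
  refine (hG.continuous.comp fcrit_line_cont).div (by fun_prop) fun t => ?_
  exact pow_ne_zero _ (sub_ne_zero.2 (fcrit_ne t))

private theorem fcrit_term (d : ℕ → ℂ) (n : ℕ) (t : ℝ) :
    ‖LSeries.term d (1 / 2 + t * I) n‖ ≤ ‖d n‖ * (n : ℝ) ^ (-(1 / 4) : ℝ) := by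
  rcases Nat.eq_zero_or_pos n with h0 | h0
  · subst h0
    rw [LSeries.term_zero, norm_zero]
    positivity
  · rw [LSeries.term_of_ne_zero h0.ne', norm_div, div_eq_mul_inv]
    have hn : (0 : ℝ) < n := by exact_mod_cast h0
    have h1 : ‖(n : ℂ) ^ (1 / 2 + t * I : ℂ)‖ = (n : ℝ) ^ (1 / 2 : ℝ) := by
      rw [norm_natCast_cpow_of_pos h0, fcrit_re]
    rw [h1, ← Real.rpow_neg hn.le]
    refine mul_le_mul_of_nonneg_left ?_ (norm_nonneg _)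
    exact Real.rpow_le_rpow_of_exponent_le (by exact_mod_cast h0) (by norm_num)

private theorem fcrit_P_cont (d : ℕ → ℂ)
    (hd : Summable (fun n : ℕ => ‖d n‖ * (n : ℝ) ^ (-(1 / 4) : ℝ))) :
    (Continuous fun t : ℝ => LSeries d (1 / 2 + t * I)) ∧
      ∀ t : ℝ, ‖LSeries d (1 / 2 + t * I)‖ ≤ ∑' n : ℕ, ‖d n‖ * (n : ℝ) ^ (-(1 / 4) : ℝ) := by
  constructor
  · unfold LSeries
    refine continuous_tsum (fun n => ?_) hd (fcrit_term d)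
    rcases Nat.eq_zero_or_pos n with h0 | h0
    · subst h0
      simp only [LSeries.term_zero]
      exact continuous_const
    · have hn : (n : ℂ) ≠ 0 := by exact_mod_cast h0.ne'
      simp only [LSeries.term_of_ne_zero h0.ne']
      refine continuous_const.div ?_ fun t => ?_
      · exact Continuous.const_cpow fcrit_line_cont (Or.inl hn)
      · rw [cpow_def_of_ne_zero hn]
        exact exp_ne_zero _
  · intro t
    unfold LSeries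
    exact tsum_of_norm_bounded hd.hasSum (fcrit_term d · t)

theorem crit2 (a : ℕ → ℂ) (F : ℂ → ℂ) (hS : IsSelberg a F)
    (Q : ℝ) (r : ℕ) (lam : Fin r → ℝ) (mu : Fin r → ℂ) (ε : ℂ)
    (hQ : 0 < Q) (hlam : ∀ j, 0 < lam j) (hmu : ∀ j, 0 ≤ (mu j).re) (hε : ‖ε‖ = 1)
    (hfe : ∀ s : ℂ, 0 < s.re → s.re < 1 →
      completed Q lam mu F s =
        ε * (starRingEnd ℂ) (completed Q lam mu F (1 - (starRingEnd ℂ) s)))
    (hdeg : 2 * ∑ j, lam j = 2) {N1 N2 : ℕ} [NeZero N1] [NeZero N2]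
    (χ1 : DirichletCharacter ℂ N1) (p1 : χ1.IsPrimitive) (h1 : χ1 ≠ 1) (t1 : ℝ)
    (χ2 : DirichletCharacter ℂ N2) (p2 : χ2.IsPrimitive) (h2 : χ2 ≠ 1) (t2 : ℝ)
    (d : ℕ → ℂ) (D : DC2 a χ1 t1 χ2 t2 d) :
    ∃ (ω0 : ℂ) (A κ : ℝ), Tendsto (fun t : ℝ => LSeries d (1 / 2 + t * I) -
      ω0 * cexp (((A * t + κ * Real.log t : ℝ) : ℂ) * I) *
        (starRingEnd ℂ) (LSeries d (1 / 2 + t * I))) atTop (𝓝 0) := by
  have hL1 : ∑ j, lam j = 1 := by linarith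
  obtain ⟨hPc, hPb⟩ := fcrit_P_cont d D.sum
  obtain ⟨hLc2, Q2, mu2, ε2, hQ2, hmu2, hε2, e2⟩ := fcrit_L χ1 p1 t1 h1
  obtain ⟨hLc, Q3, mu3, ε3, hQ3, hmu3, hε3, e3⟩ := fcrit_L χ2 p2 t2 h2
  have hlam2 : ∀ j : Fin 1, 0 < (fun _ : Fin 1 => (1 / 2 : ℝ)) j := fun _ => by norm_num
  have hmu2' : ∀ j : Fin 1, 0 ≤ ((fun _ : Fin 1 => mu2) j).re := fun _ => hmu2
  have hmu3' : ∀ j : Fin 1, 0 ≤ ((fun _ : Fin 1 => mu3) j).re := fun _ => hmu3
  obtain ⟨C1, A1, k1, hC1, q1⟩ := phase Q hQ lam mu hlam hmu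
  obtain ⟨C2, A2, k2, hC2, q2⟩ := phase _ hQ2 _ _ hlam2 hmu2'
  obtain ⟨C3, A3, k3, hC3, q3⟩ := phase _ hQ3 _ _ hlam2 hmu3'
  refine compare (fun t => F (1 / 2 + t * I)) (fun t => χ1.LFunction (1 / 2 + t * I + t1 * I))
    (fun t => χ2.LFunction (1 / 2 + t * I + t2 * I)) (fun t => LSeries d (1 / 2 + t * I))
    (cF Q lam mu) _ _ (fcrit_F_cont a F hS) hLc2 hLc hPc
    (cF_cont Q hQ lam mu hlam hmu) (cF_cont _ hQ2 _ _ hlam2 hmu2') (cF_cont _ hQ3 _ _ hlam2 hmu3')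
    (cF_ne Q hQ lam mu hlam hmu) (cF_ne _ hQ2 _ _ hlam2 hmu2') (cF_ne _ hQ3 _ _ hlam2 hmu3')
    ε ε2 ε3 hε hε2 hε3 ?_ e2 e3 ?_ (dense_line2 χ1 h1 t1 χ2 h2 t2)
    (∑' n : ℕ, ‖d n‖ * (n : ℝ) ^ (-(1 / 4) : ℝ)) hPb (∑ j, lam j) (∑ _j : Fin 1, (1 / 2 : ℝ))
    (∑ _j : Fin 1, (1 / 2 : ℝ)) A1 A2 A3 k1 k2 k3 ?_ C1 C2 C3 hC1 hC2 hC3 q1 q2 q3
  · intro t
    exact fcrit_eq Q lam mu F ε t (hfe _ (by rw [fcrit_re]; norm_num) (by rw [fcrit_re]; norm_num))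
  · intro t
    exact fcont2 a F hS χ1 h1 t1 χ2 h2 t2 d D _ (by rw [fcrit_re]; norm_num) (fcrit_ne t)
  · rw [hL1]
    norm_num

end Pool.Agent.H11.PB
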