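import Mathlib
import Pool.Agent.H11.PB.Defs
import Pool.Agent.H11.PC.FAP
import Pool.Agent.H11.PB.DCO2
import Pool.Agent.H11.PB.FCR2
import Pool.Agent.H11.PB.FLO2

/-!
# FIN2: all Euler factors from almost all Euler factors

PROOF.  As `finish` in `PC/FIN.lean` with `dco2`, `crit2`, `floc2` and `ap_rigid` (`PC/FAP.lean`).
-/

set_option autoImplicit false

namespace Pool.Agent.H11.PB

open Complex Filter Topology Pool.Agent.H11.Selberg Pool.Agent.H11.PC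

theorem finish2 (a : ℕ → ℂ) (F : ℂ → ℂ) (hS : IsSelberg a F)
    (Q : ℝ) (r : ℕ) (lam : Fin r → ℝ) (mu : Fin r → ℂ) (ε : ℂ)
    (hQ : 0 < Q) (hlam : ∀ j, 0 < lam j) (hmu : ∀ j, 0 ≤ (mu j).re) (hε : ‖ε‖ = 1)
    (hfe : ∀ s : ℂ, 0 < s.re → s.re < 1 →
      completed Q lam mu F s =
        ε * (starRingEnd ℂ) (completed Q lam mu F (1 - (starRingEnd ℂ) s)))
    (hdeg : 2 * ∑ j, lam j = 2) {N1 N2 : ℕ} [NeZero N1] [NeZero N2]
    (χ1 : DirichletCharacter ℂ N1) (p1 : χ1.IsPrimitive) (h1 : χ1 ≠ 1) (t1 : ℝ)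
    (χ2 : DirichletCharacter ℂ N2) (p2 : χ2.IsPrimitive) (h2 : χ2 ≠ 1) (t2 : ℝ)
    (B : Set ℕ) (hB : B.Finite) (hloc : ∀ p : ℕ, p.Prime → p ∉ B → EP2 a χ1 t1 χ2 t2 p) :
    ∀ p : ℕ, p.Prime → EP2 a χ1 t1 χ2 t2 p := by
  obtain ⟨d, D⟩ := dco2 a F hS χ1 t1 χ2 t2 B hB hloc
  obtain ⟨ω0, A, κ, hT⟩ := crit2 a F hS Q r lam mu ε hQ hlam hmu hε hfe hdeg χ1 p1 h1 t1 χ2 p2 h2 t2 d D
  have hterm : ∀ (t : ℝ) (n : ℕ), LSeries.term d (1 / 2 + t * I) n =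
      d n * (n : ℂ) ^ (-(1 / 2) : ℂ) * (n : ℂ) ^ (-(t * I) : ℂ) := by
    intro t n
    rcases Nat.eq_zero_or_pos n with rfl | hn
    · simp [D.zero]
    · rw [LSeries.term_of_ne_zero hn.ne', mul_assoc, ← Complex.cpow_add _ _ (by exact_mod_cast hn.ne'),
        div_eq_mul_inv, ← Complex.cpow_neg]
      congr 2
      ring
  have hser : ∀ t : ℝ, LSeries d (1 / 2 + t * I) =
      ∑' n : ℕ, (fun n => d n * (n : ℂ) ^ (-(1 / 2) : ℂ)) n * (n : ℂ) ^ (-(t * I) : ℂ) := by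
    intro t
    rw [LSeries]
    exact tsum_congr (fun n => hterm t n)
  simp only [hser] at hT
  have hAP := ap_rigid (fun n => d n * (n : ℂ) ^ (-(1 / 2) : ℂ)) ?_ ?_ ?_ ω0 A κ hT
  · obtain ⟨D0, hD0, e1, e2⟩ := hAP
    exact floc2 a F hS χ1 t1 χ2 t2 d D ω0 D0 hD0 e1 e2
  · refine Summable.of_nonneg_of_le (fun n => norm_nonneg _) (fun n => ?_) D.sum
    rcases Nat.eq_zero_or_pos n with rfl | hn
    · simp [D.zero]
    · have hn' : (1 : ℝ) ≤ n := by exact_mod_cast hn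
      rw [norm_mul, Complex.norm_natCast_cpow_of_pos hn]
      apply mul_le_mul_of_nonneg_left _ (norm_nonneg _)
      apply Real.rpow_le_rpow_of_exponent_le hn'
      norm_num
  · simp [D.zero]
  · simp [D.one]

end Pool.Agent.H11.PB
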