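import Mathlib
import Pool.Agent.H11.PB.Defs
import Pool.Agent.H11.PC.PDOF
import Pool.Agent.H11.PC.DIR
import Pool.Agent.H11.PC.CMG
import Pool.Agent.H11.PC.SUMM

/-!
# NPR: both characters are non-principal when `F` is entire

PROOF.  By symmetry (reverse the sum in `EP2`: `Finset.sum_range_reflect`) it is enough to show `χ1 ≠ 1`.  Let `χ1 = 1`,
`s = 1 - t1 I + α`, `α → 0+`.  `log_twist a F hS` (`PC/PDOF.lean`) with `g = 1`: `‖F s‖ = ‖LSeries a s‖ ≥ exp (Re PS a s - K)`.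
For `p ∉ B`, `a p = zch χ1 t1 p + zch χ2 t2 p` (`EP2` with `k = 1`), so up to `O(1)` (finitely many primes)
`PS a s = PS χ1 (1 + α) + PS χ2 (1 + (t2 - t1) I + α)`; the first is `log (1/α) + O(1)` (`dir_one`), the second is bounded
(`dir_bdd`, if `χ2 ≠ 1` or `t2 ≠ t1`) or `log (1/α) + O(1)` (`dir_one`).  So `‖F s‖ → ∞`.  But `s ≠ 1` (as `α > 0`), so `F s = G s`, and
`G` is continuous at `1 - t1 I`: contradiction.
-/

set_option autoImplicit false

namespace Pool.Agent.H11.PB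

open Complex Filter Topology Pool.Agent.H11.Selberg Pool.Agent.H11.PC

theorem EP2.symm {a : ℕ → ℂ} {N1 N2 : ℕ} {χ1 : DirichletCharacter ℂ N1} {t1 : ℝ}
    {χ2 : DirichletCharacter ℂ N2} {t2 : ℝ} {p : ℕ} (h : EP2 a χ1 t1 χ2 t2 p) :
    EP2 a χ2 t2 χ1 t1 p := by
  intro k
  rw [h k, ← Finset.sum_range_reflect]
  refine Finset.sum_congr rfl fun i hi => ?_
  have hik : i ≤ k := Nat.lt_succ_iff.1 (Finset.mem_range.1 hi)
  rw [show k + 1 - 1 - i = k - i by omega, show k - (k - i) = i by omega, mul_comm]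

/-- the sum over the primes of the coefficients of `L(s + i t, χ)` -/
theorem PS_zch {N : ℕ} (χ : DirichletCharacter ℂ N) (t t' α : ℝ) :
    PS (fun n => zch χ t n) (1 - t' * I + α) =
      PS (fun n => χ (n : ZMod N)) (1 + ((t - t' : ℝ) : ℂ) * I + α) := by
  unfold PS
  refine tsum_congr fun p => ?_
  have hp : ((p : ℕ) : ℂ) ≠ 0 := by exact_mod_cast p.2.ne_zero
  unfold zch
  rw [mul_assoc, ← Complex.cpow_add _ _ hp]
  congr 2
  push_cast
  ring

/-- the coefficients at the primes up to finitely many exceptions -/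
theorem PS_split {a : ℕ → ℂ} {N1 N2 : ℕ} {χ1 : DirichletCharacter ℂ N1} {t1 : ℝ}
    {χ2 : DirichletCharacter ℂ N2} {t2 : ℝ} (B : Set ℕ) (hB : B.Finite)
    (hloc : ∀ p : ℕ, p.Prime → p ∉ B → EP2 a χ1 t1 χ2 t2 p) : ∃ C : ℝ, 0 ≤ C ∧ ∀ s : ℂ, 1 < s.re →
      ‖PS a s - (PS (fun n => zch χ1 t1 n) s + PS (fun n => zch χ2 t2 n) s)‖ ≤ C := by
  classical
  set e : ℕ → ℂ := fun n => a n - (zch χ1 t1 n + zch χ2 t2 n) with he
  have he0 : ∀ p : Nat.Primes, (p : ℕ) ∉ hB.toFinset → e p = 0 := by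
    intro p hp
    have h1 := hloc p p.2 (fun h => hp (hB.mem_toFinset.2 h)) 1
    rw [pow_one] at h1
    rw [he]
    simp only
    rw [h1]
    simp [Finset.sum_range_succ]
    ring
  obtain ⟨T, hT⟩ : ∃ T : Finset Nat.Primes, ∀ p : Nat.Primes, p ∈ T ↔ (p : ℕ) ∈ hB.toFinset :=
    ⟨(hB.toFinset.subtype (fun p => p.Prime) : Finset {p : ℕ // p.Prime}),
      fun p => Finset.mem_subtype (p := fun p : ℕ => p.Prime)⟩
  refine ⟨∑ p ∈ T, ‖e (p : ℕ)‖, Finset.sum_nonneg fun _ _ => norm_nonneg _, ?_⟩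
  intro s hs
  have hz : ∀ {N : ℕ} (χ : DirichletCharacter ℂ N) (t : ℝ) (n : ℕ), 0 < n → ‖zch χ t n‖ ≤ 1 := by
    intro N χ t n hn
    rw [zch, norm_mul, norm_natCast_cpow_of_pos hn]
    have h : (-((t : ℂ) * I)).re = 0 := by simp
    rw [h, Real.rpow_zero, mul_one]
    exact DirichletCharacter.norm_le_one χ _
  have hsum : ∀ {N : ℕ} (χ : DirichletCharacter ℂ N) (t : ℝ),
      Summable (fun p : Nat.Primes => zch χ t p * ((p : ℕ) : ℂ) ^ (-s)) := by
    intro N χ t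
    have h1 := prime_summable_one (fun n => if n = 0 then 0 else zch χ t n) (fun n => by
      by_cases h0 : n = 0
      · simp [h0]
      · simp only [h0, if_false]
        exact hz χ t n (Nat.pos_of_ne_zero h0)) s hs
    refine h1.of_norm.congr fun p => ?_
    rw [if_neg p.2.ne_zero]
  have hes : ∀ p ∉ T, e (p : ℕ) * ((p : ℕ) : ℂ) ^ (-s) = 0 := by
    intro p hp
    rw [he0 p (fun h => hp ((hT p).2 h)), zero_mul]
  have hse : Summable (fun p : Nat.Primes => e p * ((p : ℕ) : ℂ) ^ (-s)) :=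
    summable_of_ne_finset_zero hes
  have h2 : PS a s = PS (fun n => zch χ1 t1 n) s + PS (fun n => zch χ2 t2 n) s +
      ∑' p : Nat.Primes, e p * ((p : ℕ) : ℂ) ^ (-s) := by
    unfold PS
    rw [← (hsum χ1 t1).tsum_add (hsum χ2 t2), ← ((hsum χ1 t1).add (hsum χ2 t2)).tsum_add hse]
    refine tsum_congr fun p => ?_
    rw [he]
    ring
  rw [h2, add_sub_cancel_left, tsum_eq_sum hes]
  refine (norm_sum_le _ _).trans (Finset.sum_le_sum fun p _ => ?_)
  rw [norm_mul, norm_natCast_cpow_of_pos p.2.pos]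
  have h3 : ((p : ℕ) : ℝ) ^ (-s).re ≤ 1 :=
    Real.rpow_le_one_of_one_le_of_nonpos (by exact_mod_cast p.2.one_le)
      (by rw [neg_re]; linarith)
  calc ‖e p‖ * ((p : ℕ) : ℝ) ^ (-s).re ≤ ‖e p‖ * 1 :=
        mul_le_mul_of_nonneg_left h3 (norm_nonneg _)
    _ = ‖e p‖ := mul_one _

private theorem npr_one (a : ℕ → ℂ) (F : ℂ → ℂ) (hS : IsSelberg a F) (G : ℂ → ℂ)
    (hG : Differentiable ℂ G) (hGF : ∀ s, s ≠ 1 → G s = F s) {N1 N2 : ℕ} [NeZero N1] [NeZero N2]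
    (χ1 : DirichletCharacter ℂ N1) (t1 : ℝ) (χ2 : DirichletCharacter ℂ N2) (t2 : ℝ)
    (B : Set ℕ) (hB : B.Finite) (hloc : ∀ p : ℕ, p.Prime → p ∉ B → EP2 a χ1 t1 χ2 t2 p) :
    χ1 ≠ 1 := by
  intro h1
  obtain ⟨K, hK0, hK⟩ := log_twist a F hS
  obtain ⟨C0, hC0, hsplit⟩ := PS_split B hB hloc
  have h2 : ∃ C : ℝ, ∀ α : ℝ, 0 < α → α ≤ 1 →
      -C ≤ (PS (fun n => zch χ2 t2 n) (1 - t1 * I + α)).re := by
    simp only [PS_zch]
    by_cases hc : χ2 ≠ 1 ∨ t2 - t1 ≠ 0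
    · obtain ⟨C, hC⟩ := dir_bdd χ2 (t2 - t1) hc
      refine ⟨C, fun α h1 h2 => ?_⟩
      have h3 := hC α h1 h2
      have h4 := Complex.abs_re_le_norm (PS (fun n => χ2 (n : ZMod N2))
        (1 + ((t2 - t1 : ℝ) : ℂ) * I + α))
      have h5 := neg_abs_le (PS (fun n => χ2 (n : ZMod N2))
        (1 + ((t2 - t1 : ℝ) : ℂ) * I + α)).re
      linarith
    · push Not at hc
      obtain ⟨C, hC⟩ := dir_one (L := N2)
      refine ⟨C, fun α h1 h2 => ?_⟩
      rw [hc.1, hc.2, Complex.ofReal_zero, zero_mul, add_zero]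
      have h3 := hC α h1 h2
      have h4 := (Complex.abs_re_le_norm _).trans h3
      rw [Complex.add_re, Complex.ofReal_re] at h4
      have h5 := (abs_le.1 h4).1
      have h6 : Real.log α ≤ 0 := Real.log_nonpos h1.le h2
      linarith
  obtain ⟨C2, hC2⟩ := h2
  obtain ⟨C1, hC1⟩ := dir_one (L := N1)
  have hre : ∀ α : ℝ, (1 - t1 * I + α : ℂ).re = 1 + α := by
    intro α
    simp
  have hlow : ∀ α : ℝ, 0 < α → α ≤ 1 →
      Real.log (1 / α) - (C0 + C1 + C2) ≤ (PS a (1 - t1 * I + α)).re := by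
    intro α hα hα1
    have e1 := hsplit (1 - t1 * I + α) (by rw [hre]; linarith)
    have e2 : PS (fun n => zch χ1 t1 n) (1 - t1 * I + α) =
        PS (fun n => (1 : DirichletCharacter ℂ N1) (n : ZMod N1)) (1 + α) := by
      rw [PS_zch, h1, sub_self, Complex.ofReal_zero, zero_mul, add_zero]
    have e3 := (Complex.abs_re_le_norm _).trans (hC1 α hα hα1)
    rw [← e2, Complex.add_re, Complex.ofReal_re] at e3
    have e4 := (Complex.abs_re_le_norm _).trans e1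
    rw [Complex.sub_re, Complex.add_re] at e4
    have e5 := hC2 α hα hα1
    have e6 := (abs_le.1 e3).1
    have e7 := (abs_le.1 e4).1
    rw [one_div, Real.log_inv]
    linarith
  have hbig : ∀ α : ℝ, 0 < α → α ≤ 1 →
      Real.exp (-(C0 + C1 + C2 + K)) / α ≤ ‖G (1 - t1 * I + α)‖ := by
    intro α hα hα1
    have hs : 1 < (1 - t1 * I + α : ℂ).re := by rw [hre]; linarith
    have hne : (1 - t1 * I + α : ℂ) ≠ 1 := by
      intro h
      rw [h, one_re] at hs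
      exact lt_irrefl _ hs
    obtain ⟨R, hR, hE⟩ := hK (fun _ => 1) cm_one _ hs
    have e1 : PC.LT a (fun _ => 1) (1 - t1 * I + α) = LSeries a (1 - t1 * I + α) := by
      unfold PC.LT
      simp
    have e2 : PS (fun n => a n * (fun _ => (1 : ℂ)) n) (1 - t1 * I + α) =
        PS a (1 - t1 * I + α) := by
      simp
    rw [e1, e2] at hE
    rw [hGF _ hne, hS.eq_LSeries _ hs, hE, Complex.norm_exp]
    have e3 := hlow α hα hα1
    have e4 := (abs_le.1 ((Complex.abs_re_le_norm R).trans hR)).1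
    have e5 : Real.exp (-(C0 + C1 + C2 + K)) / α =
        Real.exp (Real.log (1 / α) - (C0 + C1 + C2) - K) := by
      rw [show Real.log (1 / α) - (C0 + C1 + C2) - K =
        -(C0 + C1 + C2 + K) + Real.log (1 / α) by ring, Real.exp_add,
        Real.exp_log (by positivity)]
      ring
    rw [e5]
    apply Real.exp_le_exp.2
    rw [Complex.add_re]
    linarith
  have hcont : Tendsto (fun α : ℝ => ‖G (1 - t1 * I + α)‖) (𝓝[>] 0)
      (𝓝 ‖G (1 - t1 * I + (0 : ℝ))‖) := by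
    have h3 : Continuous fun α : ℝ => ‖G (1 - t1 * I + α)‖ := by
      have := hG.continuous
      fun_prop
    exact (h3.tendsto 0).mono_left nhdsWithin_le_nhds
  have hinf : Tendsto (fun α : ℝ => Real.exp (-(C0 + C1 + C2 + K)) / α) (𝓝[>] 0) atTop := by
    simp only [div_eq_mul_inv]
    exact tendsto_inv_nhdsGT_zero.const_mul_atTop (Real.exp_pos _)
  have hinf2 : Tendsto (fun α : ℝ => ‖G (1 - t1 * I + α)‖) (𝓝[>] 0) atTop := by
    refine tendsto_atTop_mono' _ ?_ hinf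
    have h4 : Set.Ioc (0 : ℝ) 1 ∈ 𝓝[>] (0 : ℝ) := Ioc_mem_nhdsGT one_pos
    filter_upwards [h4] with α hα
    exact hbig α hα.1 hα.2
  exact not_tendsto_nhds_of_tendsto_atTop hinf2 _ hcont

theorem non_principal (a : ℕ → ℂ) (F : ℂ → ℂ) (hS : IsSelberg a F) (G : ℂ → ℂ)
    (hG : Differentiable ℂ G) (hGF : ∀ s, s ≠ 1 → G s = F s) {N1 N2 : ℕ} [NeZero N1] [NeZero N2]
    (χ1 : DirichletCharacter ℂ N1) (t1 : ℝ) (χ2 : DirichletCharacter ℂ N2) (t2 : ℝ)
    (B : Set ℕ) (hB : B.Finite) (hloc : ∀ p : ℕ, p.Prime → p ∉ B → EP2 a χ1 t1 χ2 t2 p) :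
    χ1 ≠ 1 ∧ χ2 ≠ 1 := by
  exact ⟨npr_one a F hS G hG hGF χ1 t1 χ2 t2 B hB hloc,
    npr_one a F hS G hG hGF χ2 t2 χ1 t1 B hB (fun p hp hpB => (hloc p hp hpB).symm)⟩

end Pool.Agent.H11.PB
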