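import Mathlib
import Pool.Agent.H11.PB.Defs
import Pool.Agent.H11.SC7.Asm
import Pool.Agent.H11.SC6.PrimDef
import Pool.Agent.H11.SC6.Prim7

/-!
# PRF: `F = L L` is not primitive

PROOF.  `isSelberg_L` (`SC7/Asm.lean`): `L(s + i t, χ)` is in the Selberg class for primitive `χ ≠ 1`.  If `F` is primitive one of the two
factors is `1` for `Re s > 1`: then `LSeries g 1 = 1` with `g n = χ(n) n^(-it)`, and by uniqueness of the coefficients
(`LSeries_eq_iff`-type lemma, `LSeries.eq_of...`) `g n = 0` for all `n ≥ 2`; but `‖g n‖ = 1` for a prime `n ∤ N`.  (See `primitive_fails` in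
`PC/ASM.lean`.)
-/

set_option autoImplicit false

namespace Pool.Agent.H11.PB

open Complex Filter Topology Pool.Agent.H11.Selberg Pool.Agent.H11.PC Pool.Agent.H11

private theorem prf_ne {N : ℕ} [NeZero N] (χ : DirichletCharacter ℂ N) (hχ : χ.IsPrimitive)
    (h1 : χ ≠ 1) (τ : ℝ) : ¬ ∀ s : ℂ, 1 < s.re → χ.LFunction (s + τ * I) = 1 := by
  intro h2
  have hL := SC7.isSelberg_L χ hχ h1 τ
  obtain ⟨p, hp, hpN⟩ := Nat.exists_infinite_primes (N + 2)
  refine SC6.lseries_ne_one _ p hpN.two_le ?_ _ hL h2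
  have hc : Nat.Coprime p N := by
    rw [Nat.Prime.coprime_iff_not_dvd hpN]
    intro hd
    have := Nat.le_of_dvd (Nat.pos_of_ne_zero (NeZero.ne N)) hd
    omega
  refine mul_ne_zero ?_ ?_
  · have hu : IsUnit (p : ZMod N) := (ZMod.isUnit_iff_coprime p N).2 hc
    exact (hu.map χ).ne_zero
  · rw [Complex.cpow_ne_zero_iff]
    left
    exact_mod_cast hpN.ne_zero

theorem not_primitive2 (a : ℕ → ℂ) (F : ℂ → ℂ) {N1 N2 : ℕ} [NeZero N1]
    [NeZero N2] (χ1 : DirichletCharacter ℂ N1) (p1 : χ1.IsPrimitive) (h1 : χ1 ≠ 1) (t1 : ℝ)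
    (χ2 : DirichletCharacter ℂ N2) (p2 : χ2.IsPrimitive) (h2 : χ2 ≠ 1) (t2 : ℝ)
    (hF : ∀ s : ℂ, 1 < s.re → F s = χ1.LFunction (s + t1 * I) * χ2.LFunction (s + t2 * I)) :
    ¬ IsPrimitive a F := by
  rintro ⟨-, -, h⟩
  rcases h _ _ _ _ (SC7.isSelberg_L χ1 p1 h1 t1) (SC7.isSelberg_L χ2 p2 h2 t2) hF with h3 | h3
  · exact prf_ne χ1 p1 h1 t1 h3
  · exact prf_ne χ2 p2 h2 t2 h3

end Pool.Agent.H11.PB
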