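import Mathlib
import Pool.Agent.H11.PB.Defs
import Pool.Agent.H11.PC.NTRIV

/-!
# PRQ: primitive characters

PROOF.  `prim_ne`: `L = N1 N2`, `Ψ = changeLevel χ1 * (changeLevel χ2)⁻¹`.  Values: if `n` is prime to `N1 N2` use
`ntr_level` (`PC/NTRIV.lean`) and `conj χ = χ⁻¹` on units (`MulChar.star_apply'`, see `SC7/LRoot.lean`); otherwise both sides are `0`
(`n` not a unit modulo `N1` or modulo `N2`).  If `Ψ = 1` then `changeLevel χ1 = changeLevel χ2`, so the conductors agree
(`DirichletCharacter.conductor_changeLevel` or the lemmas around it in Mathlib's `DirichletCharacter/Basic.lean`), and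
`IsPrimitive` says conductor = level: `N1 = N2`; `subst`, and `changeLevel` is injective (`changeLevel_injective`).
`prim_ind`: `f = χ.conductor`, `ψ = χ.primitiveCharacter`, `primitiveCharacter_apply_of_isCoprime`.
`prim_prod`: apply `prim_ind` to `changeLevel χ * changeLevel ψ` of modulus `N * r^e`.  If `r ∤ f`: for `n` prime to `r` choose by
the Chinese remainder theorem a prime (or just an integer, `prim_ind` in the form for all integers prime to the level)
`n' ≡ n mod r^e`, `n' ≡ 1 mod N f`, `n'` prime to `N r f`: `χ(n') = 1`, `Ψ(n') = 1`, so `ψ(n) = ψ(n') = 1`, and `ψ = 1`: contradiction.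
-/

set_option autoImplicit false

namespace Pool.Agent.H11.PB

open Complex Filter Topology Pool.Agent.H11.PC

theorem prq_conj {N : ℕ} (χ : DirichletCharacter ℂ N) (n : ℕ) :
    (starRingEnd ℂ) (χ (n : ZMod N)) = χ⁻¹ (n : ZMod N) := by
  have h := MulChar.star_apply' χ (n : ZMod N)
  simpa using h

theorem prim_ne {N1 N2 : ℕ} [NeZero N1] [NeZero N2] (χ1 : DirichletCharacter ℂ N1)
    (χ2 : DirichletCharacter ℂ N2) (h1 : χ1.IsPrimitive) (h2 : χ2.IsPrimitive)
    (hne : (⟨N1, χ1⟩ : Σ f : ℕ, DirichletCharacter ℂ f) ≠ ⟨N2, χ2⟩) :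
    ∃ (L : ℕ) (_ : NeZero L) (Ψ : DirichletCharacter ℂ L), Ψ ≠ 1 ∧
      ∀ n : ℕ, χ1 (n : ZMod N1) * (starRingEnd ℂ) (χ2 (n : ZMod N2)) = Ψ (n : ZMod L) := by
  have hL : NeZero (N1 * N2) := ⟨Nat.mul_ne_zero (NeZero.ne N1) (NeZero.ne N2)⟩
  refine ⟨N1 * N2, hL, DirichletCharacter.changeLevel (Nat.dvd_mul_right N1 N2) χ1 *
    (DirichletCharacter.changeLevel (Nat.dvd_mul_left N2 N1) χ2)⁻¹, ?_, ?_⟩
  · intro hΨ
    have he : DirichletCharacter.changeLevel (Nat.dvd_mul_right N1 N2) χ1 =
        DirichletCharacter.changeLevel (Nat.dvd_mul_left N2 N1) χ2 := mul_inv_eq_one.1 hΨ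
    have hc : N1 = N2 := by
      have e1 := DirichletCharacter.conductor_changeLevel χ1 (Nat.dvd_mul_right N1 N2)
      have e2 := DirichletCharacter.conductor_changeLevel χ2 (Nat.dvd_mul_left N2 N1)
      rw [he, e2] at e1
      rw [(DirichletCharacter.isPrimitive_def _).1 h1,
        (DirichletCharacter.isPrimitive_def _).1 h2] at e1
      exact e1.symm
    subst hc
    apply hne
    have := DirichletCharacter.changeLevel_injective (R := ℂ) (Nat.dvd_mul_right N1 N1) he
    rw [this]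
  · intro n
    by_cases hn : Nat.Coprime n (N1 * N2)
    · rw [MulChar.mul_apply, ← map_inv, ntr_level _ χ1 n hn, ntr_level _ _ n hn, prq_conj]
    · have hR : (DirichletCharacter.changeLevel (Nat.dvd_mul_right N1 N2) χ1 *
          (DirichletCharacter.changeLevel (Nat.dvd_mul_left N2 N1) χ2)⁻¹) (n : ZMod (N1 * N2)) = 0 := by
        apply MulChar.map_nonunit
        rw [ZMod.isUnit_iff_coprime]
        exact hn
      rw [hR]
      rw [Nat.coprime_mul_iff_right, not_and_or] at hn
      rcases hn with hn | hn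
      · rw [MulChar.map_nonunit χ1 (by rwa [ZMod.isUnit_iff_coprime]), zero_mul]
      · rw [MulChar.map_nonunit χ2 (by rwa [ZMod.isUnit_iff_coprime]), map_zero, mul_zero]

theorem prim_ind {N : ℕ} [NeZero N] (χ : DirichletCharacter ℂ N) :
    ∃ (f : ℕ) (_ : NeZero f) (ψ : DirichletCharacter ℂ f), ψ.IsPrimitive ∧ f ∣ N ∧
      ∀ n : ℕ, Nat.Coprime n N → χ (n : ZMod N) = ψ (n : ZMod f) := by
  refine ⟨χ.conductor, ⟨χ.conductor_ne_zero⟩, χ.primitiveCharacter,
    χ.primitiveCharacter_isPrimitive, χ.conductor_dvd_level, ?_⟩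
  intro n hn
  have h := χ.primitiveCharacter_apply_of_isCoprime (a := (n : ℤ)) (Nat.isCoprime_iff_coprime.2 hn)
  simpa using h.symm

theorem prim_prod {N r e : ℕ} [NeZero N] (hr : r.Prime) (hrN : ¬ r ∣ N)
    (χ : DirichletCharacter ℂ N) (ψ : DirichletCharacter ℂ (r ^ e)) (hψ : ψ ≠ 1) :
    ∃ (f : ℕ) (_ : NeZero f) (Ψ : DirichletCharacter ℂ f), Ψ.IsPrimitive ∧ r ∣ f ∧
      ∀ n : ℕ, Nat.Coprime n (N * r) → prodChar χ ψ n = Ψ (n : ZMod f) := by
  have hre : NeZero (r ^ e) := ⟨pow_ne_zero _ hr.ne_zero⟩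
  have hM : NeZero (r ^ e * N) := ⟨Nat.mul_ne_zero (NeZero.ne _) (NeZero.ne N)⟩
  have d1 : N ∣ r ^ e * N := Nat.dvd_mul_left N (r ^ e)
  have d2 : r ^ e ∣ r ^ e * N := Nat.dvd_mul_right (r ^ e) N
  set X : DirichletCharacter ℂ (r ^ e * N) :=
    DirichletCharacter.changeLevel d1 χ * DirichletCharacter.changeLevel d2 ψ with hX
  have hcop : Nat.Coprime r N := (Nat.Prime.coprime_iff_not_dvd hr).2 hrN
  have hcop' : Nat.Coprime (r ^ e) N := Nat.Coprime.pow_left e hcop
  refine ⟨X.conductor, ⟨X.conductor_ne_zero⟩, X.primitiveCharacter,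
    X.primitiveCharacter_isPrimitive, ?_, ?_⟩
  · by_contra hrf
    have hfM : X.conductor ∣ r ^ e * N := X.conductor_dvd_level
    have hcf : Nat.Coprime (X.conductor) (r ^ e) :=
      (Nat.Coprime.pow_left e ((Nat.Prime.coprime_iff_not_dvd hr).2 hrf)).symm
    have hfN : X.conductor ∣ N := hcf.dvd_of_dvd_mul_left hfM
    have h1 : X = DirichletCharacter.changeLevel d1
        (DirichletCharacter.changeLevel hfN X.primitiveCharacter) := by
      rw [← DirichletCharacter.changeLevel_trans]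
      exact X.changeLevel_primitiveCharacter.symm
    have h2 : DirichletCharacter.changeLevel d2 ψ = DirichletCharacter.changeLevel d1
        (χ⁻¹ * DirichletCharacter.changeLevel hfN X.primitiveCharacter) := by
      rw [map_mul, map_inv, ← h1, hX]
      simp
    have h3 := DirichletCharacter.factorsThrough_gcd ψ _ h2
    rw [Nat.Coprime.gcd_eq_one hcop', DirichletCharacter.factorsThrough_one_iff] at h3
    exact hψ h3
  · intro n hn
    have hn' : Nat.Coprime n (r ^ e * N) := by
      rw [Nat.coprime_mul_iff_right] at hn ⊢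
      exact ⟨Nat.Coprime.pow_right e hn.2, hn.1⟩
    have h := X.primitiveCharacter_apply_of_isCoprime (a := (n : ℤ))
      (Nat.isCoprime_iff_coprime.2 hn')
    simp only [Int.cast_natCast] at h
    rw [h, hX, MulChar.mul_apply, ntr_level _ χ n hn', ntr_level _ ψ n hn']
    rfl

end Pool.Agent.H11.PB
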