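import Mathlib
import Pool.Agent.H11.PB.Defs
import Pool.Agent.H11.PB.PRQ
import Pool.Agent.H11.PB.NPR
import Pool.Agent.H11.Selberg.Equiv
import Pool.Agent.H11.PC.DIR
import Pool.Agent.H11.PC.PDOF
import Pool.Agent.H11.PC.BDD

/-!
# SPR: `S_F(x) - log log x` is unbounded for `F = L L`

PROOF.  Suppose `|S a x - log log x| ≤ C` for `x ≥ 2`.  `a p = z1 + z2` (`EP2`, `k = 1`), `‖z_i‖ = 1` for `p ∤ N1 N2`.  By Mertens
(`mertens_upper` of `H75/AP/MertensB.lean`, or `bounded_S`) `S a x ≤ C' log log x`, so `PD` holds (`pd_of` with `δ = 0`).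
`∑_p ‖a p‖² p^(-1-α) = ∑ (‖z1‖² + ‖z2‖² + 2 Re z1 conj z2) p^(-1-α) ≥ 2 log (1/α) - C''`: the first two give `log (1/α) + O(1)` each
(`dir_one`, finitely many exceptions), and `∑ z1 conj z2 p^(-1-α)` is a sum for the character `χ1 conj χ2` at
`1 + i(t1 - t2) + α`: bounded (`dir_bdd`) or `log (1/α) + O(1)` (`dir_one`).  On the other hand partial summation with
`S a x ≤ log log x + C` gives `∑_p ‖a p‖² p^(-1-α) ≤ log (1/α) + C'''` (as in `PC/SB.lean`: `∑ c(p) p^(-α) = α ∫_1^∞ S(x) x^(-α-1) dx`, and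
`α ∫_1^∞ log log x x^(-1-α) dx = log (1/α) + O(1)`; or use `pythagoras`/`AA_le_S` of `Selberg/Line.lean`, or `Taub`).
Contradiction as `α → 0`.
-/

set_option autoImplicit false

namespace Pool.Agent.H11.PB

open Complex Filter Topology Pool.Agent.H11.Selberg Pool.Agent.H11.PC

private theorem spr_prod {N1 N2 : ℕ} [NeZero N1] [NeZero N2] (χ1 : DirichletCharacter ℂ N1)
    (χ2 : DirichletCharacter ℂ N2) : ∃ (L : ℕ) (_ : NeZero L) (Ψ : DirichletCharacter ℂ L),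
      ∀ n : ℕ, χ1 (n : ZMod N1) * (starRingEnd ℂ) (χ2 (n : ZMod N2)) = Ψ (n : ZMod L) := by
  have hL : NeZero (N1 * N2) := ⟨Nat.mul_ne_zero (NeZero.ne N1) (NeZero.ne N2)⟩
  refine ⟨N1 * N2, hL, DirichletCharacter.changeLevel (Nat.dvd_mul_right N1 N2) χ1 *
    (DirichletCharacter.changeLevel (Nat.dvd_mul_left N2 N1) χ2)⁻¹, ?_⟩
  intro n
  by_cases hn : Nat.Coprime n (N1 * N2)
  · rw [MulChar.mul_apply, ← map_inv, ntr_level _ χ1 n hn, ntr_level _ _ n hn, prq_conj]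
  · have hR : (DirichletCharacter.changeLevel (Nat.dvd_mul_right N1 N2) χ1 *
        (DirichletCharacter.changeLevel (Nat.dvd_mul_left N2 N1) χ2)⁻¹) (n : ZMod (N1 * N2)) = 0 := by
      apply MulChar.map_nonunit
      rw [ZMod.isUnit_iff_coprime]
      exact hn
    rw [hR]
    rw [Nat.coprime_mul_iff_right, not_and_or] at hn
    rcases hn with hn | hn
    · rw [MulChar.map_nonunit χ1 (by rwa [ZMod.isUnit_iff_coprime]), zero_mul]
    · rw [MulChar.map_nonunit χ2 (by rwa [ZMod.isUnit_iff_coprime]), map_zero, mul_zero]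

private theorem spr_norm {N : ℕ} [NeZero N] (χ : DirichletCharacter ℂ N) (t : ℝ) (p : ℕ)
    (hp : p.Prime) : ((‖zch χ t p‖ ^ 2 : ℝ) : ℂ) = (1 : DirichletCharacter ℂ N) (p : ZMod N) := by
  have h1 : ‖zch χ t p‖ = ‖χ (p : ZMod N)‖ := by
    rw [zch, norm_mul, norm_natCast_cpow_of_pos hp.pos]
    have h : (-((t : ℂ) * I)).re = 0 := by simp
    rw [h, Real.rpow_zero, mul_one]
  rw [h1]
  by_cases hu : IsUnit (p : ZMod N)
  · obtain ⟨u, hu⟩ := hu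
    rw [← hu, DirichletCharacter.unit_norm_eq_one, MulChar.one_apply_coe]
    simp
  · rw [MulChar.map_nonunit χ hu, MulChar.map_nonunit _ hu]
    simp

private theorem spr_Gc (a : ℕ → ℂ) (α : ℝ) :
    Gc (c1 a) α = ∑' p : Nat.Primes, ‖a p‖ ^ 2 * ((p : ℕ) : ℝ) ^ (-(1 + α)) := by
  have h1 : (∑' p : Nat.Primes, ‖a p‖ ^ 2 * ((p : ℕ) : ℝ) ^ (-(1 + α))) =
      ∑' n : ℕ, ({n : ℕ | n.Prime}).indicator
        (fun n : ℕ => ‖a n‖ ^ 2 * ((n : ℕ) : ℝ) ^ (-(1 + α))) n :=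
    tsum_subtype {n : ℕ | n.Prime} (fun n : ℕ => ‖a n‖ ^ 2 * ((n : ℕ) : ℝ) ^ (-(1 + α)))
  rw [h1]
  unfold Gc
  refine tsum_congr fun n => ?_
  unfold c1
  by_cases hn : n.Prime
  · rw [if_pos hn, Set.indicator_of_mem (show n ∈ {n : ℕ | n.Prime} from hn)]
    have hn0 : (0 : ℝ) < n := by exact_mod_cast hn.pos
    rw [neg_add, Real.rpow_add hn0, Real.rpow_neg_one]
    ring
  · rw [if_neg hn, Set.indicator_of_notMem (show n ∉ {n : ℕ | n.Prime} from hn), zero_mul]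

theorem s_prod (a : ℕ → ℂ) (F : ℂ → ℂ) (hS : IsSelberg a F) {N1 N2 : ℕ} [NeZero N1]
    [NeZero N2] (χ1 : DirichletCharacter ℂ N1) (t1 : ℝ) (χ2 : DirichletCharacter ℂ N2) (t2 : ℝ)
    (hloc : ∀ p : ℕ, p.Prime → EP2 a χ1 t1 χ2 t2 p) :
    ¬ ∃ C : ℝ, ∀ x : ℝ, 2 ≤ x → |S a x - Real.log (Real.log x)| ≤ C := by
  intro hcon
  obtain ⟨C, hC⟩ := hcon
  obtain ⟨Cu, hCu⟩ := taub_log_mp (c1 a) (c1_adm a hS.ramanujan) 1 zero_le_one
    ⟨C, fun x hx => by rw [Sc_c1, one_mul]; exact hC x hx⟩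
  obtain ⟨L, hL, Ψ, hΨ⟩ := spr_prod χ1 χ2
  obtain ⟨D1, hD1⟩ := dir_one (L := N1)
  obtain ⟨D2, hD2⟩ := dir_one (L := N2)
  have hw : ∃ D : ℝ, ∀ α : ℝ, 0 < α → α ≤ 1 →
      -D ≤ (PS (fun n => Ψ (n : ZMod L)) (1 + ((t1 - t2 : ℝ) : ℂ) * I + α)).re := by
    by_cases hc : Ψ ≠ 1 ∨ t1 - t2 ≠ 0
    · obtain ⟨C, hC⟩ := dir_bdd Ψ (t1 - t2) hc
      refine ⟨C, fun α h1 h2 => ?_⟩
      have h3 := (Complex.abs_re_le_norm _).trans (hC α h1 h2)
      exact (abs_le.1 h3).1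
    · push Not at hc
      obtain ⟨C, hC⟩ := dir_one (L := L)
      refine ⟨C, fun α h1 h2 => ?_⟩
      rw [hc.1, hc.2, Complex.ofReal_zero, zero_mul, add_zero]
      have h4 := (Complex.abs_re_le_norm _).trans (hC α h1 h2)
      rw [Complex.add_re, Complex.ofReal_re] at h4
      have h5 := (abs_le.1 h4).1
      have h6 : Real.log α ≤ 0 := Real.log_nonpos h1.le h2
      linarith
  obtain ⟨D3, hD3⟩ := hw
  have hlow : ∀ α : ℝ, 0 < α → α ≤ 1 →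
      -(2 * Real.log α) - (D1 + D2 + 2 * D3) ≤ Gc (c1 a) α := by
    intro α hα hα1
    have hs : 1 < (1 + (α : ℂ)).re := by simpa using hα
    have hpt : ∀ p : Nat.Primes, ((‖a p‖ ^ 2 * ((p : ℕ) : ℝ) ^ (-(1 + α)) : ℝ) : ℂ) =
        (1 : DirichletCharacter ℂ N1) ((p : ℕ) : ZMod N1) * ((p : ℕ) : ℂ) ^ (-(1 + α : ℂ)) +
        (1 : DirichletCharacter ℂ N2) ((p : ℕ) : ZMod N2) * ((p : ℕ) : ℂ) ^ (-(1 + α : ℂ)) +
        (Ψ ((p : ℕ) : ZMod L) * ((p : ℕ) : ℂ) ^ (-(1 + ((t1 - t2 : ℝ) : ℂ) * I + α : ℂ)) +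
        (starRingEnd ℂ) (Ψ ((p : ℕ) : ZMod L) *
          ((p : ℕ) : ℂ) ^ (-(1 + ((t1 - t2 : ℝ) : ℂ) * I + α : ℂ)))) := by
      intro p
      have hp := p.2
      have hp0 : ((p : ℕ) : ℂ) ≠ 0 := by exact_mod_cast hp.ne_zero
      have h1 := hloc p hp 1
      rw [pow_one] at h1
      have h2 : a p = zch χ1 t1 p + zch χ2 t2 p := by
        rw [h1]
        simp [Finset.sum_range_succ]
        ring
      have h3 : ((‖a p‖ ^ 2 : ℝ) : ℂ) = ((‖zch χ1 t1 p‖ ^ 2 : ℝ) : ℂ) +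
          ((‖zch χ2 t2 p‖ ^ 2 : ℝ) : ℂ) + (zch χ1 t1 p * (starRingEnd ℂ) (zch χ2 t2 p) +
            (starRingEnd ℂ) (zch χ1 t1 p * (starRingEnd ℂ) (zch χ2 t2 p))) := by
        have e : ∀ z : ℂ, ((‖z‖ ^ 2 : ℝ) : ℂ) = z * (starRingEnd ℂ) z := by
          intro z
          rw [Complex.mul_conj, Complex.normSq_eq_norm_sq]
        rw [e, e, e, h2, map_add, map_mul, Complex.conj_conj]
        ring
      have h4 : ((((p : ℕ) : ℝ) ^ (-(1 + α)) : ℝ) : ℂ) = ((p : ℕ) : ℂ) ^ (-(1 + α : ℂ)) := by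
        rw [Complex.ofReal_cpow (Nat.cast_nonneg _)]
        push_cast
        rfl
      have h5 : zch χ1 t1 p * (starRingEnd ℂ) (zch χ2 t2 p) * ((p : ℕ) : ℂ) ^ (-(1 + α : ℂ)) =
          Ψ ((p : ℕ) : ZMod L) * ((p : ℕ) : ℂ) ^ (-(1 + ((t1 - t2 : ℝ) : ℂ) * I + α : ℂ)) := by
        unfold zch
        rw [← hΨ, map_mul]
        have h6 : (starRingEnd ℂ) (((p : ℕ) : ℂ) ^ (-((t2 : ℂ) * I))) =
            ((p : ℕ) : ℂ) ^ ((t2 : ℂ) * I) := by
          have harg : ((p : ℕ) : ℂ).arg ≠ Real.pi := by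
            rw [Complex.natCast_arg]
            exact Real.pi_pos.ne
          have h := Complex.cpow_conj ((p : ℕ) : ℂ) (-((t2 : ℂ) * I)) harg
          rw [Complex.conj_natCast] at h
          rw [← h]
          congr 1
          simp
        rw [h6]
        have h7 : ((p : ℕ) : ℂ) ^ (-(1 + ((t1 - t2 : ℝ) : ℂ) * I + α : ℂ)) =
            ((p : ℕ) : ℂ) ^ (-((t1 : ℂ) * I)) * ((p : ℕ) : ℂ) ^ ((t2 : ℂ) * I) *
              ((p : ℕ) : ℂ) ^ (-(1 + α : ℂ)) := by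
          rw [← Complex.cpow_add _ _ hp0, ← Complex.cpow_add _ _ hp0]
          congr 1
          push_cast
          ring
        rw [h7]
        ring
      have h8 : (starRingEnd ℂ) (((p : ℕ) : ℂ) ^ (-(1 + α : ℂ))) =
          ((p : ℕ) : ℂ) ^ (-(1 + α : ℂ)) := by
        rw [← h4, Complex.conj_ofReal]
      rw [← h5, map_mul, h8, Complex.ofReal_mul, h3, h4, spr_norm χ1 t1 p hp, spr_norm χ2 t2 p hp]
      ring
    have hs1 : ∀ {N : ℕ} [NeZero N] (χ : DirichletCharacter ℂ N) (s : ℂ), 1 < s.re →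
        Summable (fun p : Nat.Primes => χ ((p : ℕ) : ZMod N) * ((p : ℕ) : ℂ) ^ (-s)) := by
      intro N hN χ s hs
      exact (prime_summable_one (fun n => χ (n : ZMod N)) (fun n => χ.norm_le_one _) s hs).of_norm
    have hs2 : 1 < (1 + ((t1 - t2 : ℝ) : ℂ) * I + α : ℂ).re := by
      have : (1 + ((t1 - t2 : ℝ) : ℂ) * I + α : ℂ).re = 1 + α := by simp
      rw [this]
      linarith
    have e1 : ((Gc (c1 a) α : ℝ) : ℂ) =
        PS (fun n => (1 : DirichletCharacter ℂ N1) (n : ZMod N1)) (1 + α) +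
        PS (fun n => (1 : DirichletCharacter ℂ N2) (n : ZMod N2)) (1 + α) +
        (PS (fun n => Ψ (n : ZMod L)) (1 + ((t1 - t2 : ℝ) : ℂ) * I + α) +
        (starRingEnd ℂ) (PS (fun n => Ψ (n : ZMod L)) (1 + ((t1 - t2 : ℝ) : ℂ) * I + α))) := by
      rw [spr_Gc, Complex.ofReal_tsum]
      simp only [hpt]
      unfold PS
      have k1 := hs1 (1 : DirichletCharacter ℂ N1) (1 + α) hs
      have k2 := hs1 (1 : DirichletCharacter ℂ N2) (1 + α) hs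
      have k3 := hs1 Ψ _ hs2
      have k4 : Summable (fun p : Nat.Primes => (starRingEnd ℂ) (Ψ ((p : ℕ) : ZMod L) *
          ((p : ℕ) : ℂ) ^ (-(1 + ((t1 - t2 : ℝ) : ℂ) * I + α : ℂ)))) := by
        have := k3.map (starRingEnd ℂ) Complex.continuous_conj
        exact this
      rw [Complex.conj_tsum, ← k3.tsum_add k4, ← k1.tsum_add k2, ← (k1.add k2).tsum_add (k3.add k4)]
    have e2 := congrArg Complex.re e1
    rw [Complex.ofReal_re] at e2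
    simp only [Complex.add_re, Complex.conj_re] at e2
    have f1 := (Complex.abs_re_le_norm _).trans (hD1 α hα hα1)
    have f2 := (Complex.abs_re_le_norm _).trans (hD2 α hα hα1)
    rw [Complex.add_re, Complex.ofReal_re] at f1 f2
    have g1 := (abs_le.1 f1).1
    have g2 := (abs_le.1 f2).1
    have g3 := hD3 α hα hα1
    rw [e2]
    linarith
  have hT : Tendsto (fun α : ℝ => -Real.log α) (𝓝[>] 0) atTop :=
    tendsto_neg_atBot_atTop.comp Real.tendsto_log_nhdsGT_zero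
  have h1 := hT.eventually_gt_atTop (Cu + (D1 + D2 + 2 * D3))
  have h2 : Set.Ioc (0 : ℝ) 1 ∈ 𝓝[>] (0 : ℝ) := Ioc_mem_nhdsGT one_pos
  obtain ⟨α, h3, h4⟩ := (h1.and h2).exists
  have h5 := hlow α h4.1 h4.2
  have h6 := (abs_le.1 (hCu α h4.1 h4.2)).2
  rw [one_mul] at h6
  linarith

end Pool.Agent.H11.PB
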