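import Mathlib
import Pool.Agent.H11.PB.Defs
import Pool.Agent.H11.PB.PRQ

/-!
# TOP: from the Euler factors of `b` to those of `a`, with primitive characters

PROOF.  `a (r^k) = b (r^k) r^(ikδ)`, `b n = a n n^(-iδ)`, so with `z1 = χ1(r) r^(-iθ)`, `z2 = χ2(r) r^(iθ)`:
`a (r^k) = ∑ (z1 r^(iδ))^i (z2 r^(iδ))^(k-i)`, `z1 r^(iδ) = χ1(r) r^(-i t1)`, `t1 = θ - δ`, `z2 r^(iδ) = χ2(r) r^(-i t2)`, `t2 = -θ - δ`.
`prim_ind` (`PRQ.lean`) gives primitive characters `ψ1`, `ψ2` with the same values at the primes `r ∤ L`.  `B' = B`.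
-/

set_option autoImplicit false

namespace Pool.Agent.H11.PB

open Complex Filter Topology Pool.Agent.H11.PC

theorem to_prim (a : ℕ → ℂ) (δ θ : ℝ) {L : ℕ} [NeZero L] (χ1 χ2 : DirichletCharacter ℂ L)
    (B : Set ℕ) (hB : B.Finite)
    (h : ∀ r : ℕ, r.Prime → r ∉ B → ¬ r ∣ L ∧ ∀ k : ℕ,
      (fun n : ℕ => a n * (n : ℂ) ^ (-(δ * I) : ℂ)) (r ^ k) = ∑ i ∈ Finset.range (k + 1),
        (χ1 (r : ZMod L) * (r : ℂ) ^ (-(θ * I) : ℂ)) ^ i *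
          (χ2 (r : ZMod L) * (r : ℂ) ^ (θ * I : ℂ)) ^ (k - i)) :
    ∃ (N1 : ℕ) (_ : NeZero N1) (ψ1 : DirichletCharacter ℂ N1) (N2 : ℕ) (_ : NeZero N2)
      (ψ2 : DirichletCharacter ℂ N2) (t1 t2 : ℝ), ψ1.IsPrimitive ∧ ψ2.IsPrimitive ∧
        ∀ p : ℕ, p.Prime → p ∉ B → EP2 a ψ1 t1 ψ2 t2 p := by
  obtain ⟨N1, hN1, ψ1, hp1, -, hv1⟩ := prim_ind χ1
  obtain ⟨N2, hN2, ψ2, hp2, -, hv2⟩ := prim_ind χ2
  refine ⟨N1, hN1, ψ1, N2, hN2, ψ2, θ - δ, -θ - δ, hp1, hp2, ?_⟩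
  intro p hp hpB k
  obtain ⟨hpL, hk⟩ := h p hp hpB
  have hcop : Nat.Coprime p L := (Nat.Prime.coprime_iff_not_dvd hp).2 hpL
  have hp0 : (p : ℂ) ≠ 0 := by exact_mod_cast hp.ne_zero
  have e1 : zch ψ1 (θ - δ) p = χ1 (p : ZMod L) * (p : ℂ) ^ (-(θ * I) : ℂ) * (p : ℂ) ^ (δ * I : ℂ) := by
    unfold zch
    rw [← hv1 p hcop, mul_assoc, ← Complex.cpow_add _ _ hp0]
    congr 2
    push_cast
    ring
  have e2 : zch ψ2 (-θ - δ) p = χ2 (p : ZMod L) * (p : ℂ) ^ (θ * I : ℂ) * (p : ℂ) ^ (δ * I : ℂ) := by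
    unfold zch
    rw [← hv2 p hcop, mul_assoc, ← Complex.cpow_add _ _ hp0]
    congr 2
    push_cast
    ring
  have e3 := hk k
  have e4 : a (p ^ k) = (a (p ^ k) * ((p ^ k : ℕ) : ℂ) ^ (-(δ * I) : ℂ)) * ((p : ℂ) ^ (δ * I : ℂ)) ^ k := by
    have h5 : ∀ j : ℕ, ((p ^ j : ℕ) : ℂ) ^ (-(δ * I) : ℂ) = ((p : ℂ) ^ (-(δ * I) : ℂ)) ^ j := by
      intro j
      induction j with
      | zero => simp
      | succ j ih => rw [pow_succ p, Nat.cast_mul, natCast_mul_natCast_cpow, ih, pow_succ]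
    rw [h5, mul_assoc, ← mul_pow, ← Complex.cpow_add _ _ hp0]
    simp
  have e3' : a (p ^ k) * ((p ^ k : ℕ) : ℂ) ^ (-(δ * I) : ℂ) = ∑ i ∈ Finset.range (k + 1),
      (χ1 (p : ZMod L) * (p : ℂ) ^ (-(θ * I) : ℂ)) ^ i *
        (χ2 (p : ZMod L) * (p : ℂ) ^ (θ * I : ℂ)) ^ (k - i) := e3
  rw [e4, e3', Finset.sum_mul]
  refine Finset.sum_congr rfl fun i hi => ?_
  have hik : i ≤ k := Nat.lt_succ_iff.1 (Finset.mem_range.1 hi)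
  rw [e1, e2]
  have h6 : ((p : ℂ) ^ (δ * I : ℂ)) ^ k = ((p : ℂ) ^ (δ * I : ℂ)) ^ i * ((p : ℂ) ^ (δ * I : ℂ)) ^ (k - i) := by
    rw [← pow_add, Nat.add_sub_cancel' hik]
  rw [h6]
  simp only [mul_pow]
  ring

end Pool.Agent.H11.PB
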