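import Mathlib
import Pool.Agent.H11.PB.Defs
import Pool.Agent.H11.PC.MEL
import Pool.Agent.H11.SC.Conj

/-!
# WLINE: the one step relation on a vertical line

PROOF.  `z = -β + y I`, so `z.re ≤ 0`, `z.im = y`, `‖z‖ ≤ 2`, and `y ≤ 100 ‖z‖²` if `y ≤ y0 := min 1 (100 β²)`.  The first part of
`h.bound`: `‖ff b z - ωm JJ q z ff (cj b) (-1/(q z))‖ ≤ C y^(-13/4)`.  With `ξ = y + βI` (`ff b z = gs b 3 (-(I z))`, `-(I z) = ξ`):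
`JJ q z = ((√q ξ)^7)⁻¹`, `ff (cj b) (-1/(q z)) = gs (cj b) 3 (1/(q ξ)) = conj (gs b 3 (conj (1/(q ξ))))`, and
`conj (1/(q ξ)) = (y + βI)/(q (y² + β²)) = v1 + β1 I`.  Compare with `v = y/(q β²)`, `β' = 1/(q β)`:
`v1 = v β²/(y²+β²)`, `|v1 - v| ≤ C y³`, `|β1 - β'| ≤ C y²` (`C` depends on `β`, `q`), `v1 ≥ v/2` for `y ≤ β`.
`gs b 3` has derivative `-2π gs b 4`, or directly termwise: for `Re w, Re w' ≥ v/2`
`‖e^(-2πnw) - e^(-2πnw')‖ ≤ 2πn ‖w - w'‖ e^(-πnv)`, so `‖gs b 3 w - gs b 3 w'‖ ≤ C ‖w - w'‖ ∑ n^(4+1/8) e^(-πnv) ≤ C' y² v^(-41/8)`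
`≤ C'' y^(-25/8) ≤ C'' y^(-13/4)` (`ram (1/8)`; `∑ n^k e^(-nx) ≤ C x^(-k-1)` for real `k > 0`; see `mel_exp_bound`, `gs_bd` of `PC/MEL.lean`;
with `ram` and integer powers: use `∑ ‖b n‖ n^4 e^(-πnv)` with `‖b n‖ ≤ C n^(1/8)`, `n^(33/8) e^(-πnv/2) ≤ C v^(-33/8)` and
`∑ e^(-πnv/2) ≤ C/v`).  `|JJ| ≤ C` (`β` fixed), `‖((√q ξ)^7)⁻¹ - ((√q β I)^7)⁻¹‖ ≤ C y`, and `‖gs b 3 (v + β' I)‖ ≤ C v^(-33/8)`
(same estimate), `y v^(-33/8) ≤ C y^(-25/8)`.  For `y > β` (if `y0 > β`) shrink `y0` to `min (min 1 β) (100 β²)`.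
-/

set_option autoImplicit false

namespace Pool.Agent.H11.PB

open Complex Filter Topology Pool.Agent.H11.SC

private theorem wl_real (k : ℕ) : ∃ M : ℝ, 0 ≤ M ∧ ∀ t : ℝ, 0 ≤ t →
    t ^ k * t ^ (1 / 8 : ℝ) * Real.exp (-(t / 2)) ≤ M := by
  refine ⟨2 ^ k * (k.factorial : ℝ) + 2 ^ (k + 1) * ((k + 1).factorial : ℝ), by positivity, ?_⟩
  intro t ht
  have hp : ∀ j : ℕ, t ^ j * Real.exp (-(t / 2)) ≤ 2 ^ j * (j.factorial : ℝ) := by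
    intro j
    have h1 := Real.pow_div_factorial_le_exp (t / 2) (by positivity) j
    rw [div_le_iff₀ (by positivity)] at h1
    rw [Real.exp_neg, ← div_eq_mul_inv, div_le_iff₀ (Real.exp_pos _)]
    have h2 : t ^ j = 2 ^ j * (t / 2) ^ j := by
      rw [← mul_pow]
      congr 1
      ring
    rw [h2]
    calc 2 ^ j * (t / 2) ^ j ≤ 2 ^ j * (Real.exp (t / 2) * (j.factorial : ℝ)) :=
          mul_le_mul_of_nonneg_left h1 (by positivity)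
      _ = _ := by ring
  have h8 : t ^ (1 / 8 : ℝ) ≤ 1 + t := by
    rcases le_total t 1 with h | h
    · have := Real.rpow_le_one ht h (by norm_num : (0 : ℝ) ≤ 1 / 8)
      linarith
    · have h1 : t ^ (1 / 8 : ℝ) ≤ t ^ (1 : ℝ) :=
        Real.rpow_le_rpow_of_exponent_le h (by norm_num)
      rw [Real.rpow_one] at h1
      linarith
  have he := Real.exp_pos (-(t / 2))
  have htk : 0 ≤ t ^ k := pow_nonneg ht _
  calc t ^ k * t ^ (1 / 8 : ℝ) * Real.exp (-(t / 2))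
      ≤ t ^ k * (1 + t) * Real.exp (-(t / 2)) := by gcongr
    _ = t ^ k * Real.exp (-(t / 2)) + t ^ (k + 1) * Real.exp (-(t / 2)) := by ring
    _ ≤ _ := add_le_add (hp k) (hp (k + 1))

private theorem wl_sum {b : ℕ → ℂ}
    (ram : ∀ δ : ℝ, 0 < δ → ∃ C : ℝ, ∀ n : ℕ, 1 ≤ n → ‖b n‖ ≤ C * (n : ℝ) ^ δ) (k : ℕ)
    (hk : 1 ≤ k) : ∃ C : ℝ, 0 ≤ C ∧ ∀ v : ℝ, 0 < v →
      Summable (fun n : ℕ => ‖b n‖ * (n : ℝ) ^ k * Real.exp (-(n * v))) ∧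
      ∑' n : ℕ, ‖b n‖ * (n : ℝ) ^ k * Real.exp (-(n * v)) ≤
        C * ((v ^ k * v ^ (1 / 8 : ℝ))⁻¹ * (1 + 2 / v)) := by
  obtain ⟨C0, hC0⟩ := ram (1 / 8) (by norm_num)
  obtain ⟨M, hM0, hM⟩ := wl_real k
  refine ⟨|C0| * M, by positivity, fun v hv => ?_⟩
  have hv8 : 0 < v ^ k * v ^ (1 / 8 : ℝ) := by positivity
  have hr1 : Real.exp (-(v / 2)) < 1 := Real.exp_lt_one_iff.2 (by linarith)
  have hgeo : HasSum (fun n : ℕ => Real.exp (-(v / 2)) ^ n) (1 - Real.exp (-(v / 2)))⁻¹ :=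
    hasSum_geometric_of_lt_one (Real.exp_pos _).le hr1
  have hterm : ∀ n : ℕ, ‖b n‖ * (n : ℝ) ^ k * Real.exp (-(n * v)) ≤
      |C0| * M * (v ^ k * v ^ (1 / 8 : ℝ))⁻¹ * Real.exp (-(v / 2)) ^ n := by
    intro n
    rcases Nat.eq_zero_or_pos n with rfl | hn
    · rw [Nat.cast_zero, zero_pow (by omega), mul_zero, zero_mul]
      positivity
    · have hn' : (0 : ℝ) < n := by exact_mod_cast hn
      have h1 : ‖b n‖ ≤ |C0| * (n : ℝ) ^ (1 / 8 : ℝ) :=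
        (hC0 n hn).trans (mul_le_mul_of_nonneg_right (le_abs_self _) (by positivity))
      have h2 := hM (n * v) (by positivity)
      have h3 : Real.exp (-(n * v)) = Real.exp (-(n * v / 2)) * Real.exp (-(v / 2)) ^ n := by
        rw [← Real.exp_nat_mul, ← Real.exp_add]
        congr 1
        ring
      have h4 : ((n : ℝ) * v) ^ (1 / 8 : ℝ) = (n : ℝ) ^ (1 / 8 : ℝ) * v ^ (1 / 8 : ℝ) :=
        Real.mul_rpow hn'.le hv.le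
      have h5 : (n : ℝ) ^ (1 / 8 : ℝ) * (n : ℝ) ^ k * Real.exp (-(n * v / 2)) ≤
          M * (v ^ k * v ^ (1 / 8 : ℝ))⁻¹ := by
        rw [← div_eq_mul_inv, le_div_iff₀ hv8]
        refine le_trans (le_of_eq ?_) h2
        rw [h4, mul_pow]
        ring
      rw [h3]
      calc ‖b n‖ * (n : ℝ) ^ k * (Real.exp (-(n * v / 2)) * Real.exp (-(v / 2)) ^ n)
          ≤ (|C0| * (n : ℝ) ^ (1 / 8 : ℝ)) * (n : ℝ) ^ k *
            (Real.exp (-(n * v / 2)) * Real.exp (-(v / 2)) ^ n) := by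
            gcongr
        _ = |C0| * ((n : ℝ) ^ (1 / 8 : ℝ) * (n : ℝ) ^ k * Real.exp (-(n * v / 2))) *
            Real.exp (-(v / 2)) ^ n := by ring
        _ ≤ |C0| * (M * (v ^ k * v ^ (1 / 8 : ℝ))⁻¹) * Real.exp (-(v / 2)) ^ n := by
            gcongr
        _ = _ := by ring
  have hsum2 := hgeo.summable.mul_left (|C0| * M * (v ^ k * v ^ (1 / 8 : ℝ))⁻¹)
  have hsum : Summable (fun n : ℕ => ‖b n‖ * (n : ℝ) ^ k * Real.exp (-(n * v))) :=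
    Summable.of_nonneg_of_le (fun n => by positivity) hterm hsum2
  refine ⟨hsum, (hsum.tsum_le_tsum hterm hsum2).trans ?_⟩
  rw [tsum_mul_left, hgeo.tsum_eq]
  have hle : (1 - Real.exp (-(v / 2)))⁻¹ ≤ 1 + 2 / v := by
    have h2 : v / 2 + 1 ≤ Real.exp (v / 2) := Real.add_one_le_exp _
    have h3 : Real.exp (-(v / 2)) * Real.exp (v / 2) = 1 := by
      rw [← Real.exp_add, neg_add_cancel, Real.exp_zero]
    have h4 : 0 < Real.exp (-(v / 2)) := Real.exp_pos _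
    have h5 : 1 + 2 / v = (v + 2) / v := by
      field_simp
    rw [h5, ← one_div, div_le_div_iff₀ (by linarith) hv]
    nlinarith
  calc |C0| * M * (v ^ k * v ^ (1 / 8 : ℝ))⁻¹ * (1 - Real.exp (-(v / 2)))⁻¹
      ≤ |C0| * M * (v ^ k * v ^ (1 / 8 : ℝ))⁻¹ * (1 + 2 / v) := by gcongr
    _ = _ := by ring

private theorem wl_exp {a b : ℂ} {M : ℝ} (ha : a.re ≤ M) (hb : b.re ≤ M) :
    ‖cexp a - cexp b‖ ≤ Real.exp M * ‖a - b‖ := by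
  have hconv : Convex ℝ {z : ℂ | z.re ≤ M} := convex_halfSpace_re_le M
  refine hconv.norm_image_sub_le_of_norm_hasDerivWithin_le (f := cexp) (f' := cexp)
    (fun z _ => (Complex.hasDerivAt_exp z).hasDerivWithinAt) (fun z hz => ?_) hb ha
  rw [Complex.norm_exp]
  exact Real.exp_le_exp.2 hz

private theorem wl_term {b : ℕ → ℂ} (k : ℕ) (w : ℂ) (v : ℝ) (hv : v ≤ 2 * Real.pi * w.re) (n : ℕ) :
    ‖b n * (n : ℂ) ^ k * cexp (-(2 * (Real.pi : ℂ) * n * w))‖ ≤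
      ‖b n‖ * (n : ℝ) ^ k * Real.exp (-(n * v)) := by
  rw [norm_mul, norm_mul, norm_pow, Complex.norm_natCast, Complex.norm_exp]
  refine mul_le_mul_of_nonneg_left (Real.exp_le_exp.2 ?_) (by positivity)
  have h1 : (-(2 * (Real.pi : ℂ) * n * w)).re = -(n * (2 * Real.pi * w.re)) := by
    have h2 : (2 * (Real.pi : ℂ) * n * w) = ((2 * Real.pi * n : ℝ) : ℂ) * w := by
      push_cast
      ring
    rw [h2, neg_re, re_ofReal_mul]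
    ring
  rw [h1]
  have : (n : ℝ) * v ≤ n * (2 * Real.pi * w.re) := mul_le_mul_of_nonneg_left hv (Nat.cast_nonneg _)
  linarith

/-- values and differences of `gs b 3` -/
private theorem wl_gs {b : ℕ → ℂ}
    (ram : ∀ δ : ℝ, 0 < δ → ∃ C : ℝ, ∀ n : ℕ, 1 ≤ n → ‖b n‖ ≤ C * (n : ℝ) ^ δ) :
    ∃ C : ℝ, 0 ≤ C ∧ ∀ v : ℝ, 0 < v → ∀ w w' : ℂ, v ≤ 2 * Real.pi * w.re →
      v ≤ 2 * Real.pi * w'.re →
      ‖gs b 3 w‖ ≤ C * ((v ^ 3 * v ^ (1 / 8 : ℝ))⁻¹ * (1 + 2 / v)) ∧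
      ‖gs b 3 w - gs b 3 w'‖ ≤ C * ‖w - w'‖ * ((v ^ 4 * v ^ (1 / 8 : ℝ))⁻¹ * (1 + 2 / v)) := by
  obtain ⟨C3, hC3, h3⟩ := wl_sum ram 3 (by norm_num)
  obtain ⟨C4, hC4, h4⟩ := wl_sum ram 4 (by norm_num)
  have hpi := Real.pi_pos
  refine ⟨C3 + 2 * Real.pi * C4, by positivity, fun v hv w w' hw hw' => ⟨?_, ?_⟩⟩
  · obtain ⟨hs, hb⟩ := h3 v hv
    have h1 : ‖gs b 3 w‖ ≤ ∑' n : ℕ, ‖b n‖ * (n : ℝ) ^ 3 * Real.exp (-(n * v)) := by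
      unfold gs
      exact tsum_of_norm_bounded hs.hasSum (fun n => wl_term 3 w v hw n)
    refine h1.trans (hb.trans ?_)
    refine mul_le_mul_of_nonneg_right ?_ (by positivity)
    have : 0 ≤ 2 * Real.pi * C4 := by positivity
    linarith
  · obtain ⟨hs3, _⟩ := h3 v hv
    obtain ⟨hs, hb⟩ := h4 v hv
    have hsw : Summable (fun n : ℕ => b n * (n : ℂ) ^ 3 * cexp (-(2 * (Real.pi : ℂ) * n * w))) :=
      Summable.of_norm_bounded hs3 (fun n => wl_term 3 w v hw n)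
    have hsw' : Summable (fun n : ℕ => b n * (n : ℂ) ^ 3 * cexp (-(2 * (Real.pi : ℂ) * n * w'))) :=
      Summable.of_norm_bounded hs3 (fun n => wl_term 3 w' v hw' n)
    have h1 : ‖gs b 3 w - gs b 3 w'‖ ≤ 2 * Real.pi * ‖w - w'‖ *
        ∑' n : ℕ, ‖b n‖ * (n : ℝ) ^ 4 * Real.exp (-(n * v)) := by
      unfold gs
      rw [← hsw.tsum_sub hsw', ← tsum_mul_left]
      refine tsum_of_norm_bounded (hs.mul_left _).hasSum (fun n => ?_)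
      rw [← mul_sub, norm_mul, norm_mul, norm_pow, Complex.norm_natCast]
      have h2 : ‖cexp (-(2 * (Real.pi : ℂ) * n * w)) - cexp (-(2 * (Real.pi : ℂ) * n * w'))‖ ≤
          Real.exp (-(n * v)) * ‖(-(2 * (Real.pi : ℂ) * n * w)) - (-(2 * (Real.pi : ℂ) * n * w'))‖ := by
        have hre : ∀ u : ℂ, v ≤ 2 * Real.pi * u.re →
            (-(2 * (Real.pi : ℂ) * n * u)).re ≤ -(n * v) := by
          intro u hu
          have e2 : (2 * (Real.pi : ℂ) * n * u) = ((2 * Real.pi * n : ℝ) : ℂ) * u := by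
            push_cast
            ring
          rw [e2, neg_re, re_ofReal_mul]
          have : (n : ℝ) * v ≤ n * (2 * Real.pi * u.re) :=
            mul_le_mul_of_nonneg_left hu (Nat.cast_nonneg _)
          linarith
        exact wl_exp (hre w hw) (hre w' hw')
      have h3 : ‖(-(2 * (Real.pi : ℂ) * n * w)) - (-(2 * (Real.pi : ℂ) * n * w'))‖ =
          2 * Real.pi * n * ‖w - w'‖ := by
        have e3 : (-(2 * (Real.pi : ℂ) * n * w)) - (-(2 * (Real.pi : ℂ) * n * w')) =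
            ((-(2 * Real.pi * n) : ℝ) : ℂ) * (w - w') := by
          push_cast
          ring
        rw [e3, norm_mul, Complex.norm_real, Real.norm_eq_abs, abs_neg, abs_of_nonneg (by positivity)]
      rw [h3] at h2
      calc ‖b n‖ * (n : ℝ) ^ 3 *
            ‖cexp (-(2 * (Real.pi : ℂ) * n * w)) - cexp (-(2 * (Real.pi : ℂ) * n * w'))‖
          ≤ ‖b n‖ * (n : ℝ) ^ 3 * (Real.exp (-(n * v)) * (2 * Real.pi * n * ‖w - w'‖)) :=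
            mul_le_mul_of_nonneg_left h2 (by positivity)
        _ = _ := by ring
    refine h1.trans ?_
    have h5 : 2 * Real.pi * ‖w - w'‖ * ∑' n : ℕ, ‖b n‖ * (n : ℝ) ^ 4 * Real.exp (-(n * v)) ≤
        2 * Real.pi * ‖w - w'‖ * (C4 * ((v ^ 4 * v ^ (1 / 8 : ℝ))⁻¹ * (1 + 2 / v))) :=
      mul_le_mul_of_nonneg_left hb (by positivity)
    refine h5.trans ?_
    have h6 : 0 ≤ C3 * ‖w - w'‖ * ((v ^ 4 * v ^ (1 / 8 : ℝ))⁻¹ * (1 + 2 / v)) := by positivity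
    calc 2 * Real.pi * ‖w - w'‖ * (C4 * ((v ^ 4 * v ^ (1 / 8 : ℝ))⁻¹ * (1 + 2 / v)))
        ≤ C3 * ‖w - w'‖ * ((v ^ 4 * v ^ (1 / 8 : ℝ))⁻¹ * (1 + 2 / v)) +
          2 * Real.pi * ‖w - w'‖ * (C4 * ((v ^ 4 * v ^ (1 / 8 : ℝ))⁻¹ * (1 + 2 / v))) := by linarith
      _ = _ := by ring

/-- the powers of `y` -/
private theorem wl_pow (κ : ℝ) (hκ : 0 < κ) (k : ℕ) : ∀ y : ℝ, 0 < y → y ≤ 1 →
    y ^ (k - 2 : ℤ) * (((κ * y) ^ k * (κ * y) ^ (1 / 8 : ℝ))⁻¹ * (1 + 2 / (κ * y))) ≤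
      ((κ ^ k * κ ^ (1 / 8 : ℝ))⁻¹ * (1 + 2 / κ)) * y ^ (-(13 / 4) : ℝ) := by
  intro y hy hy1
  have h1 : (κ * y) ^ (1 / 8 : ℝ) = κ ^ (1 / 8 : ℝ) * y ^ (1 / 8 : ℝ) :=
    Real.mul_rpow hκ.le hy.le
  have h2 : 1 + 2 / (κ * y) ≤ (1 + 2 / κ) * y⁻¹ := by
    have h3 : 1 ≤ y⁻¹ := (one_le_inv₀ hy).2 hy1
    have h4 : 2 / (κ * y) = 2 / κ * y⁻¹ := by
      field_simp
    rw [h4, add_mul, one_mul]
    linarith
  have h5 : y ^ (k - 2 : ℤ) * ((y ^ k)⁻¹ * (y ^ (1 / 8 : ℝ))⁻¹ * y⁻¹) = y ^ (-(25 / 8) : ℝ) := by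
    have e1 : y ^ (k - 2 : ℤ) = y ^ ((k : ℝ) - 2) := by
      rw [← Real.rpow_intCast]
      push_cast
      rfl
    have e2 : (y ^ k)⁻¹ = y ^ (-(k : ℝ)) := by
      rw [Real.rpow_neg hy.le, Real.rpow_natCast]
    have e3 : (y ^ (1 / 8 : ℝ))⁻¹ = y ^ (-(1 / 8) : ℝ) := by
      rw [Real.rpow_neg hy.le]
    have e4 : y⁻¹ = y ^ (-1 : ℝ) := by
      rw [Real.rpow_neg hy.le, Real.rpow_one]
    rw [e1, e2, e3, e4, ← Real.rpow_add hy, ← Real.rpow_add hy, ← Real.rpow_add hy]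
    congr 1
    ring
  have h6 : y ^ (-(25 / 8) : ℝ) ≤ y ^ (-(13 / 4) : ℝ) :=
    Real.rpow_le_rpow_of_exponent_ge hy hy1 (by norm_num)
  calc y ^ (k - 2 : ℤ) * (((κ * y) ^ k * (κ * y) ^ (1 / 8 : ℝ))⁻¹ * (1 + 2 / (κ * y)))
      ≤ y ^ (k - 2 : ℤ) * (((κ * y) ^ k * (κ * y) ^ (1 / 8 : ℝ))⁻¹ * ((1 + 2 / κ) * y⁻¹)) := by
        have : 0 ≤ ((κ * y) ^ k * (κ * y) ^ (1 / 8 : ℝ))⁻¹ := by positivity
        gcongr
    _ = ((κ ^ k * κ ^ (1 / 8 : ℝ))⁻¹ * (1 + 2 / κ)) *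
        (y ^ (k - 2 : ℤ) * ((y ^ k)⁻¹ * (y ^ (1 / 8 : ℝ))⁻¹ * y⁻¹)) := by
        rw [h1, mul_pow]
        simp only [mul_inv]
        ring
    _ = ((κ ^ k * κ ^ (1 / 8 : ℝ))⁻¹ * (1 + 2 / κ)) * y ^ (-(25 / 8) : ℝ) := by rw [h5]
    _ ≤ _ := mul_le_mul_of_nonneg_left h6 (by positivity)

theorem w_line {q : ℝ} (hq : 0 < q) {b : ℕ → ℂ} {ωm ωp : ℂ} (h : CStep q b ωm ωp)
    (ram : ∀ δ : ℝ, 0 < δ → ∃ C : ℝ, ∀ n : ℕ, 1 ≤ n → ‖b n‖ ≤ C * (n : ℝ) ^ δ)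
    (β : ℝ) (hβ : 0 < β) (hβ1 : β ≤ 1) : ∃ C y0 : ℝ, 0 ≤ C ∧ 0 < y0 ∧ y0 ≤ 1 ∧
      ∀ y : ℝ, 0 < y → y ≤ y0 →
        ‖gs b 3 (y + β * I) - ωm * ((((Real.sqrt q * β : ℝ) : ℂ) * I) ^ 7)⁻¹ *
          (starRingEnd ℂ) (gs b 3 (((y / (q * β ^ 2) : ℝ) : ℂ) + ((1 / (q * β) : ℝ) : ℂ) * I))‖ ≤
          C * y ^ (-(13 / 4) : ℝ) := by
  obtain ⟨C0, hC0⟩ := h.bound
  obtain ⟨C1, hC1, hg⟩ := wl_gs ram
  obtain ⟨κ, hκ⟩ : ∃ κ : ℝ, κ = Real.pi / (q * β ^ 2) := ⟨_, rfl⟩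
  have hpi := Real.pi_pos
  have hκ0 : 0 < κ := by rw [hκ]; positivity
  obtain ⟨s, hs⟩ : ∃ s : ℝ, s = Real.sqrt q := ⟨_, rfl⟩
  have hs0 : 0 < s := by rw [hs]; exact Real.sqrt_pos.2 hq
  rw [← hs]
  obtain ⟨J1, hJ1⟩ : ∃ J1 : ℝ, J1 = ((s * β) ^ 7)⁻¹ := ⟨_, rfl⟩
  have hJ10 : 0 < J1 := by rw [hJ1]; positivity
  obtain ⟨K2, hK2⟩ : ∃ K2 : ℝ, K2 = J1 * J1 * (7 * s * (2 * s) ^ 6) := ⟨_, rfl⟩
  have hK20 : 0 < K2 := by rw [hK2]; positivity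
  obtain ⟨K1, hK1⟩ : ∃ K1 : ℝ, K1 = 1 / (q * β ^ 4) + 1 / (q * β ^ 3) := ⟨_, rfl⟩
  have hK10 : 0 < K1 := by rw [hK1]; positivity
  obtain ⟨A3, hA3⟩ : ∃ A3 : ℝ, A3 = ((κ ^ 3 * κ ^ (1 / 8 : ℝ))⁻¹ * (1 + 2 / κ)) := ⟨_, rfl⟩
  obtain ⟨A4, hA4⟩ : ∃ A4 : ℝ, A4 = ((κ ^ 4 * κ ^ (1 / 8 : ℝ))⁻¹ * (1 + 2 / κ)) := ⟨_, rfl⟩
  have hA30 : 0 ≤ A3 := by rw [hA3]; positivity
  have hA40 : 0 ≤ A4 := by rw [hA4]; positivity
  refine ⟨|C0| + J1 * (C1 * K1 * A4) + K2 * (C1 * A3), β ^ 2, by positivity, by positivity,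
    by nlinarith, ?_⟩
  intro y hy hyb
  have hy1 : y ≤ 1 := hyb.trans (by nlinarith)
  have hyβ : y ≤ β := hyb.trans (by nlinarith)
  -- the point
  obtain ⟨z, hz⟩ : ∃ z : ℂ, z = ((-β : ℝ) : ℂ) + (y : ℂ) * I := ⟨_, rfl⟩
  have hzre : z.re = -β := by rw [hz]; simp
  have hzim : z.im = y := by rw [hz]; simp
  have hz0 : z ≠ 0 := by
    intro h0
    rw [h0] at hzre
    simp at hzre
    linarith
  have hzn : ‖z‖ ≤ 2 := by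
    have h1 : ‖z‖ ≤ |z.re| + |z.im| := Complex.norm_le_abs_re_add_abs_im z
    rw [hzre, hzim, abs_neg, abs_of_pos hβ, abs_of_pos hy] at h1
    linarith
  have hz100 : z.im ≤ 100 * ‖z‖ ^ 2 := by
    have h1 : β ≤ ‖z‖ := by
      have := Complex.abs_re_le_norm z
      rw [hzre, abs_neg, abs_of_pos hβ] at this
      exact this
    rw [hzim]
    nlinarith
  have hb := (hC0 z (by rw [hzim]; exact hy) (by rw [hzim]; exact hy1) hzn hz100).1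
    (by rw [hzre]; linarith)
  rw [hzim] at hb
  have e1 : -(I * z) = (y : ℂ) + (β : ℂ) * I := by
    rw [hz]
    push_cast
    linear_combination (-(y : ℂ)) * Complex.I_mul_I
  -- the image point
  have hyb2 : 0 < y ^ 2 + β ^ 2 := by positivity
  obtain ⟨w', hw'⟩ : ∃ w' : ℂ, w' = ((y / (q * (y ^ 2 + β ^ 2)) : ℝ) : ℂ) +
    ((β / (q * (y ^ 2 + β ^ 2)) : ℝ) : ℂ) * I := ⟨_, rfl⟩
  obtain ⟨w, hw⟩ : ∃ w : ℂ, w = ((y / (q * β ^ 2) : ℝ) : ℂ) + ((1 / (q * β) : ℝ) : ℂ) * I :=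
    ⟨_, rfl⟩
  rw [← hw]
  have hqc : (q : ℂ) ≠ 0 := by exact_mod_cast hq.ne'
  have hybc : ((y ^ 2 + β ^ 2 : ℝ) : ℂ) ≠ 0 := by exact_mod_cast hyb2.ne'
  have e2 : -(I * (-1 / ((q : ℂ) * z))) = (starRingEnd ℂ) w' := by
    have h1 : (starRingEnd ℂ) w' = ((y : ℂ) - (β : ℂ) * I) / ((q : ℂ) * ((y ^ 2 + β ^ 2 : ℝ) : ℂ)) := by
      rw [hw', map_add, map_mul, Complex.conj_ofReal, Complex.conj_ofReal, Complex.conj_I]
      push_cast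
      ring
    rw [h1, eq_div_iff (mul_ne_zero hqc hybc)]
    have h2 : -(I * (-1 / ((q : ℂ) * z))) = I / ((q : ℂ) * z) := by ring
    rw [h2, div_mul_eq_mul_div, div_eq_iff (mul_ne_zero hqc hz0), hz]
    push_cast
    linear_combination ((β : ℂ) * y * q) * Complex.I_mul_I
  have e3 : ff b z = gs b 3 ((y : ℂ) + (β : ℂ) * I) := by
    unfold ff
    rw [e1]
  have e4 : ff (cj b) (-1 / ((q : ℂ) * z)) = (starRingEnd ℂ) (gs b 3 w') := by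
    unfold ff
    rw [e2, gs_conj]
  have e5 : JJ q z = (((s : ℂ) * ((y : ℂ) + (β : ℂ) * I)) ^ 7)⁻¹ := by
    unfold JJ
    rw [e1, hs]
  rw [e3, e4, e5] at hb
  -- distances
  have hre2 : ∀ u v : ℝ, ((u : ℂ) + (v : ℂ) * I).re = u := by
    intro u v
    simp
  have hwre : w.re = y / (q * β ^ 2) := by rw [hw, hre2]
  have hwre' : w'.re = y / (q * (y ^ 2 + β ^ 2)) := by rw [hw', hre2]
  have hww : ‖w - w'‖ ≤ K1 * y ^ 2 := by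
    have h1 : w - w' = ((y / (q * β ^ 2) - y / (q * (y ^ 2 + β ^ 2)) : ℝ) : ℂ) +
        ((1 / (q * β) - β / (q * (y ^ 2 + β ^ 2)) : ℝ) : ℂ) * I := by
      rw [hw, hw']
      push_cast
      ring
    have h2 : y / (q * β ^ 2) - y / (q * (y ^ 2 + β ^ 2)) =
        y ^ 3 / (q * β ^ 2 * (y ^ 2 + β ^ 2)) := by
      field_simp
      ring
    have h3 : 1 / (q * β) - β / (q * (y ^ 2 + β ^ 2)) = y ^ 2 / (q * β * (y ^ 2 + β ^ 2)) := by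
      field_simp
      ring
    rw [h1, h2, h3]
    refine (norm_add_le _ _).trans ?_
    rw [norm_mul, Complex.norm_I, mul_one, Complex.norm_real, Complex.norm_real,
      Real.norm_of_nonneg (by positivity), Real.norm_of_nonneg (by positivity), hK1, add_mul]
    refine add_le_add ?_ ?_
    · rw [div_mul_eq_mul_div, one_mul, div_le_div_iff₀ (by positivity) (by positivity)]
      have h4 : y ^ 3 ≤ y ^ 2 := by
        calc y ^ 3 = y ^ 2 * y := by ring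
          _ ≤ y ^ 2 * 1 := by gcongr
          _ = y ^ 2 := by ring
      calc y ^ 3 * (q * β ^ 4) ≤ y ^ 2 * (q * β ^ 4) := by gcongr
        _ = y ^ 2 * (q * β ^ 2 * β ^ 2) := by ring
        _ ≤ y ^ 2 * (q * β ^ 2 * (y ^ 2 + β ^ 2)) := by
            gcongr
            nlinarith
    · rw [div_mul_eq_mul_div, one_mul, div_le_div_iff₀ (by positivity) (by positivity)]
      calc y ^ 2 * (q * β ^ 3) = y ^ 2 * (q * β * β ^ 2) := by ring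
        _ ≤ y ^ 2 * (q * β * (y ^ 2 + β ^ 2)) := by
            gcongr
            nlinarith
  have hv1 : κ * y ≤ 2 * Real.pi * w.re := by
    rw [hwre, hκ]
    have h1 : 0 ≤ Real.pi * (y / (q * β ^ 2)) := by positivity
    calc Real.pi / (q * β ^ 2) * y = Real.pi * (y / (q * β ^ 2)) := by ring
      _ ≤ 2 * Real.pi * (y / (q * β ^ 2)) := by linarith
  have hv2 : κ * y ≤ 2 * Real.pi * w'.re := by
    rw [hwre', hκ]
    have h1 : y / (q * (2 * β ^ 2)) ≤ y / (q * (y ^ 2 + β ^ 2)) := by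
      have : y ^ 2 + β ^ 2 ≤ 2 * β ^ 2 := by nlinarith
      gcongr
    calc Real.pi / (q * β ^ 2) * y = 2 * Real.pi * (y / (q * (2 * β ^ 2))) := by
          field_simp
      _ ≤ 2 * Real.pi * (y / (q * (y ^ 2 + β ^ 2))) := mul_le_mul_of_nonneg_left h1 (by positivity)
  obtain ⟨hgw, hgd⟩ := hg (κ * y) (by positivity) w w' hv1 hv2
  have hp3 := wl_pow κ hκ0 3 y hy hy1
  have hp4 := wl_pow κ hκ0 4 y hy hy1
  rw [← hA3] at hp3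
  rw [← hA4] at hp4
  have z3 : y ^ ((3 : ℕ) - 2 : ℤ) = y := by norm_num
  have z4 : y ^ ((4 : ℕ) - 2 : ℤ) = y ^ 2 := by
    have : ((4 : ℕ) - 2 : ℤ) = ((2 : ℕ) : ℤ) := by norm_num
    rw [this, zpow_natCast]
  rw [z3] at hp3
  rw [z4] at hp4
  obtain ⟨B3, hB3⟩ : ∃ B3 : ℝ, B3 = ((κ * y) ^ 3 * (κ * y) ^ (1 / 8 : ℝ))⁻¹ * (1 + 2 / (κ * y)) :=
    ⟨_, rfl⟩
  obtain ⟨B4, hB4⟩ : ∃ B4 : ℝ, B4 = ((κ * y) ^ 4 * (κ * y) ^ (1 / 8 : ℝ))⁻¹ * (1 + 2 / (κ * y)) :=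
    ⟨_, rfl⟩
  have hB40 : 0 ≤ B4 := by rw [hB4]; positivity
  have hB30 : 0 ≤ B3 := by rw [hB3]; positivity
  rw [← hB3] at hgw hp3
  rw [← hB4] at hgd hp4
  obtain ⟨Y, hY⟩ : ∃ Y : ℝ, Y = y ^ (-(13 / 4) : ℝ) := ⟨_, rfl⟩
  rw [← hY] at hb hp3 hp4 ⊢
  have hY0 : 0 ≤ Y := by rw [hY]; positivity
  -- the factors
  obtain ⟨P, hP⟩ : ∃ P : ℂ, P = (s : ℂ) * ((y : ℂ) + (β : ℂ) * I) := ⟨_, rfl⟩
  obtain ⟨R, hR⟩ : ∃ R : ℂ, R = ((s * β : ℝ) : ℂ) * I := ⟨_, rfl⟩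
  rw [← hP] at hb
  rw [← hR]
  have hRn : ‖R‖ = s * β := by
    rw [hR, norm_mul, Complex.norm_I, mul_one, Complex.norm_real, Real.norm_of_nonneg (by positivity)]
  have hPn : s * β ≤ ‖P‖ := by
    rw [hP, norm_mul, Complex.norm_real, Real.norm_of_nonneg hs0.le]
    refine mul_le_mul_of_nonneg_left ?_ hs0.le
    have h1 := Complex.abs_im_le_norm ((y : ℂ) + (β : ℂ) * I)
    simp only [add_im, ofReal_im, mul_im, ofReal_re, I_im, mul_one, I_re, mul_zero, add_zero,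
      zero_add] at h1
    rwa [abs_of_pos hβ] at h1
  have hPn2 : ‖P‖ ≤ 2 * s := by
    rw [hP, norm_mul, Complex.norm_real, Real.norm_of_nonneg hs0.le]
    have h1 : ‖(y : ℂ) + (β : ℂ) * I‖ ≤ 2 := by
      refine (norm_add_le _ _).trans ?_
      rw [norm_mul, Complex.norm_I, mul_one, Complex.norm_real, Complex.norm_real,
        Real.norm_of_nonneg hy.le, Real.norm_of_nonneg hβ.le]
      linarith
    nlinarith
  have hRn2 : ‖R‖ ≤ 2 * s := by rw [hRn]; nlinarith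
  have hsβ : 0 < s * β := by positivity
  have hP0 : P ≠ 0 := norm_pos_iff.1 (lt_of_lt_of_le hsβ hPn)
  have hR0 : R ≠ 0 := norm_pos_iff.1 (by rw [hRn]; exact hsβ)
  have hPi : ‖(P ^ 7)⁻¹‖ ≤ J1 := by
    rw [norm_inv, norm_pow, hJ1]
    exact inv_anti₀ (by positivity) (pow_le_pow_left₀ hsβ.le hPn 7)
  have hRi : ‖(R ^ 7)⁻¹‖ = J1 := by
    rw [norm_inv, norm_pow, hRn, hJ1]
  have hPR : ‖P - R‖ = s * y := by
    have h1 : P - R = ((s * y : ℝ) : ℂ) := by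
      rw [hP, hR]
      push_cast
      ring
    rw [h1, Complex.norm_real, Real.norm_of_nonneg (by positivity)]
  have hdiff : ‖(P ^ 7)⁻¹ - (R ^ 7)⁻¹‖ ≤ K2 * y := by
    have h1 : (P ^ 7)⁻¹ - (R ^ 7)⁻¹ = (P ^ 7)⁻¹ * (R ^ 7)⁻¹ * (R ^ 7 - P ^ 7) := by
      have h2 : P ^ 7 ≠ 0 := pow_ne_zero _ hP0
      have h3 : R ^ 7 ≠ 0 := pow_ne_zero _ hR0
      field_simp
    have h4 : R ^ 7 - P ^ 7 = (R - P) * (R ^ 6 + R ^ 5 * P + R ^ 4 * P ^ 2 + R ^ 3 * P ^ 3 +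
        R ^ 2 * P ^ 4 + R * P ^ 5 + P ^ 6) := by ring
    have h5 : ‖R ^ 6 + R ^ 5 * P + R ^ 4 * P ^ 2 + R ^ 3 * P ^ 3 +
        R ^ 2 * P ^ 4 + R * P ^ 5 + P ^ 6‖ ≤ 7 * (2 * s) ^ 6 := by
      have hb1 : ∀ i j : ℕ, i + j = 6 → ‖R ^ i * P ^ j‖ ≤ (2 * s) ^ 6 := by
        intro i j hij
        rw [norm_mul, norm_pow, norm_pow, ← hij, pow_add]
        exact mul_le_mul (pow_le_pow_left₀ (norm_nonneg _) hRn2 _)
          (pow_le_pow_left₀ (norm_nonneg _) hPn2 _) (by positivity) (by positivity)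
      have g6 := hb1 6 0 rfl
      have g5 := hb1 5 1 rfl
      have g4 := hb1 4 2 rfl
      have g3 := hb1 3 3 rfl
      have g2 := hb1 2 4 rfl
      have g1 := hb1 1 5 rfl
      have g0 := hb1 0 6 rfl
      simp only [pow_zero, mul_one, one_mul, pow_one] at g6 g5 g1 g0
      have t1 := norm_add_le (R ^ 6 + R ^ 5 * P + R ^ 4 * P ^ 2 + R ^ 3 * P ^ 3 +
        R ^ 2 * P ^ 4 + R * P ^ 5) (P ^ 6)
      have t2 := norm_add_le (R ^ 6 + R ^ 5 * P + R ^ 4 * P ^ 2 + R ^ 3 * P ^ 3 +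
        R ^ 2 * P ^ 4) (R * P ^ 5)
      have t3 := norm_add_le (R ^ 6 + R ^ 5 * P + R ^ 4 * P ^ 2 + R ^ 3 * P ^ 3) (R ^ 2 * P ^ 4)
      have t4 := norm_add_le (R ^ 6 + R ^ 5 * P + R ^ 4 * P ^ 2) (R ^ 3 * P ^ 3)
      have t5 := norm_add_le (R ^ 6 + R ^ 5 * P) (R ^ 4 * P ^ 2)
      have t6 := norm_add_le (R ^ 6) (R ^ 5 * P)
      linarith
    rw [h1, h4, norm_mul, norm_mul, norm_mul, hRi, norm_sub_rev, hPR]
    calc ‖(P ^ 7)⁻¹‖ * J1 * (s * y * ‖R ^ 6 + R ^ 5 * P + R ^ 4 * P ^ 2 + R ^ 3 * P ^ 3 +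
          R ^ 2 * P ^ 4 + R * P ^ 5 + P ^ 6‖)
        ≤ J1 * J1 * (s * y * (7 * (2 * s) ^ 6)) := by
          refine mul_le_mul (mul_le_mul_of_nonneg_right hPi hJ10.le)
            (mul_le_mul_of_nonneg_left h5 (by positivity)) (by positivity) (by positivity)
      _ = K2 * y := by rw [hK2]; ring
  -- the end
  have hωm := h.hm
  have key : gs b 3 ((y : ℂ) + (β : ℂ) * I) - ωm * (R ^ 7)⁻¹ * (starRingEnd ℂ) (gs b 3 w) =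
      (gs b 3 ((y : ℂ) + (β : ℂ) * I) - ωm * (P ^ 7)⁻¹ * (starRingEnd ℂ) (gs b 3 w')) +
      (ωm * (P ^ 7)⁻¹ * (starRingEnd ℂ) (gs b 3 w' - gs b 3 w)) +
      (ωm * ((P ^ 7)⁻¹ - (R ^ 7)⁻¹) * (starRingEnd ℂ) (gs b 3 w)) := by
    rw [map_sub]
    ring
  rw [key]
  have n1 : ‖ωm * (P ^ 7)⁻¹ * (starRingEnd ℂ) (gs b 3 w' - gs b 3 w)‖ ≤
      J1 * (C1 * K1 * A4) * Y := by
    rw [norm_mul, norm_mul, hωm, one_mul, RCLike.norm_conj, norm_sub_rev]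
    have m1 : ‖gs b 3 w - gs b 3 w'‖ ≤ C1 * K1 * A4 * Y := by
      refine hgd.trans ?_
      calc C1 * ‖w - w'‖ * B4 ≤ C1 * (K1 * y ^ 2) * B4 := by gcongr
        _ = C1 * K1 * (y ^ 2 * B4) := by ring
        _ ≤ C1 * K1 * (A4 * Y) := by gcongr
        _ = _ := by ring
    calc ‖(P ^ 7)⁻¹‖ * ‖gs b 3 w - gs b 3 w'‖ ≤ J1 * (C1 * K1 * A4 * Y) :=
          mul_le_mul hPi m1 (norm_nonneg _) hJ10.le
      _ = _ := by ring
  have n2 : ‖ωm * ((P ^ 7)⁻¹ - (R ^ 7)⁻¹) * (starRingEnd ℂ) (gs b 3 w)‖ ≤ K2 * (C1 * A3) * Y := by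
    rw [norm_mul, norm_mul, hωm, one_mul, RCLike.norm_conj]
    calc ‖(P ^ 7)⁻¹ - (R ^ 7)⁻¹‖ * ‖gs b 3 w‖ ≤ (K2 * y) * (C1 * B3) :=
          mul_le_mul hdiff hgw (norm_nonneg _) (by positivity)
      _ = K2 * C1 * (y * B3) := by ring
      _ ≤ K2 * C1 * (A3 * Y) := by gcongr
      _ = _ := by ring
  have n0 : ‖gs b 3 ((y : ℂ) + (β : ℂ) * I) - ωm * (P ^ 7)⁻¹ * (starRingEnd ℂ) (gs b 3 w')‖ ≤
      |C0| * Y := hb.trans (mul_le_mul_of_nonneg_right (le_abs_self _) hY0)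
  have t1 := norm_add_le (gs b 3 ((y : ℂ) + (β : ℂ) * I) - ωm * (P ^ 7)⁻¹ *
    (starRingEnd ℂ) (gs b 3 w') + ωm * (P ^ 7)⁻¹ * (starRingEnd ℂ) (gs b 3 w' - gs b 3 w))
    (ωm * ((P ^ 7)⁻¹ - (R ^ 7)⁻¹) * (starRingEnd ℂ) (gs b 3 w))
  have t2 := norm_add_le (gs b 3 ((y : ℂ) + (β : ℂ) * I) - ωm * (P ^ 7)⁻¹ *
    (starRingEnd ℂ) (gs b 3 w')) (ωm * (P ^ 7)⁻¹ * (starRingEnd ℂ) (gs b 3 w' - gs b 3 w))
  have : (|C0| + J1 * (C1 * K1 * A4) + K2 * (C1 * A3)) * Y =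
      |C0| * Y + J1 * (C1 * K1 * A4) * Y + K2 * (C1 * A3) * Y := by ring
  linarith

end Pool.Agent.H11.PB
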