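import Mathlib
import Pool.Agent.H11.PB.Defs
import Pool.Agent.H11.PB.WLINE

/-!
# WREL: the relation between the cusps β and 1/(qβ) for the Dirichlet series

PROOF.  `s = 1 - τI + α`, `k = ωm ((√q β I)^7)⁻¹`, `A = q β²`, `β' = 1/(qβ)`.  `mellin_gs` (`PC/MEL.lean`) at `β`, `s` and at `β'`, `conj s`:
`∫_0^∞ gs b 3 (y + βI) y^(s+2) dy = Γ(s+3) (2π)^(-(s+3)) Es b β s`, and by the substitution `y = A v`
(`MeasureTheory.integral_comp_mul_left_Ioi`) and conjugation (`integral_conj`)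
`∫_0^∞ conj (gs b 3 (y/A + β' I)) y^(s+2) dy = A^(s+3) Γ(s+3) (2π)^(-(s+3)) conj (Es b β' (conj s))`.
So `Γ(s+3) (2π)^(-(s+3)) (Es b β s - k A^(s+3) conj (Es b β' (conj s))) = ∫_0^∞ (gs b 3 (y+βI) - k conj gs b 3 (y/A + β'I)) y^(s+2) dy`,
and the integral is bounded uniformly for `0 < α ≤ 1`: on `(0, y0]` by `w_line` (`∫ y^(-13/4) y^(3+α) ≤ ∫_0^1 y^(-1/4)`), on
`(y0, ∞)` by `gs_bd` (`C e^(-y) y^(-5)` and the same with `y/A`; `y^(3+α) ≤ y^3 + y^4`).  `‖Γ(s+3) (2π)^(-(s+3))‖ ≥ c > 0` for `α ∈ [0, 1]`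
(continuous, no zero, compact).  Finally `k A^(s+3) = I ωm (√q β) A^(-τI+α)`: `A^4 = (√q β)^8`, `I^7 = -I`, `(-I)⁻¹ = I`,
`s + 3 = 4 + (-τI + α)`; `conj s = 1 + τI + α`.
-/

set_option autoImplicit false

namespace Pool.Agent.H11.PB

open Complex Filter Topology Pool.Agent.H11.SC Pool.Agent.H11.PC

private theorem wr_low (τ : ℝ) : ∃ c : ℝ, 0 < c ∧ ∀ α : ℝ, 0 ≤ α → α ≤ 1 →
    c ≤ ‖Gamma ((1 - τ * I + α : ℂ) + 3) *
      (2 * (Real.pi : ℂ)) ^ (-((1 - τ * I + α : ℂ) + 3))‖ := by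
  set f : ℝ → ℝ := fun α => ‖Gamma ((1 - τ * I + α : ℂ) + 3) *
    (2 * (Real.pi : ℂ)) ^ (-((1 - τ * I + α : ℂ) + 3))‖ with hf
  have h2 : (2 * (Real.pi : ℂ)) ≠ 0 := by norm_num [Real.pi_ne_zero]
  have hre : ∀ α : ℝ, 0 ≤ α → 0 < ((1 - τ * I + α : ℂ) + 3).re := by
    intro α hα
    simp
    linarith
  have hcont : ContinuousOn f (Set.Icc 0 1) := by
    intro α hα
    apply ContinuousAt.continuousWithinAt
    have hg : ContinuousAt Gamma ((1 - τ * I + α : ℂ) + 3) := by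
      refine (Complex.differentiableAt_Gamma _ fun m hm => ?_).continuousAt
      have h3 := hre α hα.1
      rw [hm] at h3
      simp at h3
      have h4 : (0 : ℝ) ≤ (m : ℝ) := Nat.cast_nonneg m
      linarith
    have hlin : ContinuousAt (fun α : ℝ => ((1 - τ * I + α : ℂ) + 3)) α := by fun_prop
    have h5 : ContinuousAt (fun α : ℝ => Gamma ((1 - τ * I + α : ℂ) + 3)) α :=
      ContinuousAt.comp (f := fun α : ℝ => ((1 - τ * I + α : ℂ) + 3)) hg hlin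
    have h6 : ContinuousAt
        (fun α : ℝ => (2 * (Real.pi : ℂ)) ^ (-((1 - τ * I + α : ℂ) + 3))) α :=
      hlin.neg.const_cpow (Or.inl h2)
    exact (h5.mul h6).norm
  obtain ⟨x, hx, hmin⟩ := isCompact_Icc.exists_isMinOn (Set.nonempty_Icc.2 zero_le_one) hcont
  refine ⟨f x, ?_, fun α h0 h1 => hmin ⟨h0, h1⟩⟩
  refine norm_pos_iff.2 (mul_ne_zero (Complex.Gamma_ne_zero_of_re_pos (hre x hx.1)) ?_)
  rw [Ne, cpow_eq_zero_iff, not_and_or]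
  exact Or.inl h2

private theorem wr_star {b : ℕ → ℂ}
    (ram : ∀ δ : ℝ, 0 < δ → ∃ C : ℝ, ∀ n : ℕ, 1 ≤ n → ‖b n‖ ≤ C * (n : ℝ) ^ δ)
    (β' : ℝ) {A : ℝ} (hA : 0 < A) (s s' : ℂ) (hs : 1 < s.re) (hss : s = (starRingEnd ℂ) s') :
    MeasureTheory.IntegrableOn
      (fun y : ℝ => (starRingEnd ℂ) (gs b 3 (((y / A : ℝ) : ℂ) + β' * I)) * (y : ℂ) ^ (s + 2))
      (Set.Ioi 0) ∧
    ∫ y in Set.Ioi (0 : ℝ),
      (starRingEnd ℂ) (gs b 3 (((y / A : ℝ) : ℂ) + β' * I)) * (y : ℂ) ^ (s + 2) =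
      (A : ℂ) ^ (s + 3) * (Gamma (s + 3) * (2 * (Real.pi : ℂ)) ^ (-(s + 3)) *
        (starRingEnd ℂ) (Es b β' s')) := by
  have hs' : 1 < s'.re := by
    rw [hss, conj_re] at hs
    exact hs
  have hA0 : (A : ℂ) ≠ 0 := by exact_mod_cast hA.ne'
  obtain ⟨h1, h2⟩ := mellin_gs ram β' s' hs'
  -- conjugation
  have hcp : ∀ y ∈ Set.Ioi (0 : ℝ), (starRingEnd ℂ) (gs b 3 (y + β' * I) * (y : ℂ) ^ (s' + 2)) =
      (starRingEnd ℂ) (gs b 3 (y + β' * I)) * (y : ℂ) ^ (s + 2) := by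
    intro y hy
    have hy0 : (0 : ℝ) < y := hy
    rw [map_mul]
    congr 1
    have e1 : s + 2 = (starRingEnd ℂ) (s' + 2) := by
      rw [map_add, ← hss, map_ofNat]
    rw [e1, cpow_conj _ _ (by rw [arg_ofReal_of_nonneg hy0.le]; exact Real.pi_pos.ne),
      conj_ofReal]
  have h3 : MeasureTheory.IntegrableOn
      (fun y : ℝ => (starRingEnd ℂ) (gs b 3 (y + β' * I)) * (y : ℂ) ^ (s + 2)) (Set.Ioi 0) := by
    refine MeasureTheory.IntegrableOn.congr_fun ?_ hcp measurableSet_Ioi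
    exact (Complex.conjCLE.toContinuousLinearMap.integrable_comp h1)
  have h4 : ∫ y in Set.Ioi (0 : ℝ), (starRingEnd ℂ) (gs b 3 (y + β' * I)) * (y : ℂ) ^ (s + 2) =
      Gamma (s + 3) * (2 * (Real.pi : ℂ)) ^ (-(s + 3)) * (starRingEnd ℂ) (Es b β' s') := by
    rw [← MeasureTheory.setIntegral_congr_fun measurableSet_Ioi hcp, integral_conj, h2, map_mul,
      map_mul, ← Complex.Gamma_conj]
    have e1 : (starRingEnd ℂ) (s' + 3) = s + 3 := by rw [map_add, ← hss, map_ofNat]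
    have e2 : (starRingEnd ℂ) ((2 * (Real.pi : ℂ)) ^ (-(s' + 3))) =
        (2 * (Real.pi : ℂ)) ^ (-(s + 3)) := by
      have e3 : (2 * (Real.pi : ℂ)) = ((2 * Real.pi : ℝ) : ℂ) := by push_cast; ring
      have e4 : -(s + 3) = (starRingEnd ℂ) (-(s' + 3)) := by rw [map_neg, e1]
      rw [e4, e3, cpow_conj _ _ (by
        rw [arg_ofReal_of_nonneg (by positivity)]; exact Real.pi_pos.ne), conj_ofReal]
    rw [e1, e2]
  -- substitution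
  have hAi : 0 < A⁻¹ := inv_pos.2 hA
  have hsub : ∀ y ∈ Set.Ioi (0 : ℝ),
      (A : ℂ) ^ (s + 2) * ((starRingEnd ℂ) (gs b 3 (((A⁻¹ * y : ℝ) : ℂ) + β' * I)) *
        ((A⁻¹ * y : ℝ) : ℂ) ^ (s + 2)) =
      (starRingEnd ℂ) (gs b 3 (((y / A : ℝ) : ℂ) + β' * I)) * (y : ℂ) ^ (s + 2) := by
    intro y hy
    have hy0 : (0 : ℝ) < y := hy
    have e1 : A⁻¹ * y = y / A := by rw [div_eq_mul_inv, mul_comm]
    have e2 : (A : ℂ) ^ (s + 2) * ((A⁻¹ * y : ℝ) : ℂ) ^ (s + 2) = (y : ℂ) ^ (s + 2) := by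
      rw [← mul_cpow_ofReal_nonneg hA.le (by positivity), ← ofReal_mul]
      congr 2
      field_simp
    rw [mul_left_comm, e2, e1]
  refine ⟨?_, ?_⟩
  · refine MeasureTheory.IntegrableOn.congr_fun ?_ hsub measurableSet_Ioi
    refine MeasureTheory.Integrable.const_mul ?_ _
    have h5 := (MeasureTheory.integrableOn_Ioi_comp_mul_left_iff
      (fun y : ℝ => (starRingEnd ℂ) (gs b 3 (y + β' * I)) * (y : ℂ) ^ (s + 2)) 0 hAi).2
      (by rw [mul_zero]; exact h3)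
    exact h5
  · rw [← MeasureTheory.setIntegral_congr_fun measurableSet_Ioi hsub,
      MeasureTheory.integral_const_mul]
    have h5 := MeasureTheory.integral_comp_mul_left_Ioi
      (fun y : ℝ => (starRingEnd ℂ) (gs b 3 (y + β' * I)) * (y : ℂ) ^ (s + 2)) 0 hAi
    rw [mul_zero, inv_inv, h4] at h5
    rw [h5, real_smul]
    have e3 : (A : ℂ) ^ (s + 3) = (A : ℂ) ^ (s + 2) * A := by
      rw [show s + 3 = (s + 2) + 1 by ring, cpow_add (s + 2) 1 hA0, cpow_one]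
    rw [e3]
    ring

private theorem wr_dom {b : ℕ → ℂ}
    (ram : ∀ δ : ℝ, 0 < δ → ∃ C : ℝ, ∀ n : ℕ, 1 ≤ n → ‖b n‖ ≤ C * (n : ℝ) ^ δ)
    (β β' : ℝ) {A : ℝ} (hA : 0 < A) (k : ℂ) {C y0 : ℝ} (hC : 0 ≤ C) (hy0 : 0 < y0) (hy1 : y0 ≤ 1)
    (h : ∀ y : ℝ, 0 < y → y ≤ y0 →
      ‖gs b 3 (y + β * I) - k * (starRingEnd ℂ) (gs b 3 (((y / A : ℝ) : ℂ) + β' * I))‖ ≤
        C * y ^ (-(13 / 4) : ℝ)) (τ : ℝ) :
    ∃ F : ℝ → ℝ, MeasureTheory.IntegrableOn F (Set.Ioi 0) ∧ ∀ α : ℝ, 0 < α → α ≤ 1 → ∀ y : ℝ, 0 < y →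
      ‖(gs b 3 (y + β * I) - k * (starRingEnd ℂ) (gs b 3 (((y / A : ℝ) : ℂ) + β' * I))) *
        (y : ℂ) ^ ((1 - τ * I + α : ℂ) + 2)‖ ≤ F y := by
  obtain ⟨C1, hC1, h1⟩ := gs_bd ram β
  obtain ⟨C2, hC2, h2⟩ := gs_bd ram β'
  have hy2 : 0 < y0 ^ (-2 : ℝ) := Real.rpow_pos_of_pos hy0 _
  set C4 : ℝ := (C1 + ‖k‖ * C2 * A ^ (5 : ℝ)) * y0 ^ (-2 : ℝ) with hC4
  have hC4' : 0 ≤ C4 := by positivity
  set F : ℝ → ℝ := fun y => C * Real.exp 1 * (Real.exp (-y) * y ^ ((3 / 4 : ℝ) - 1)) +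
    (C4 * Real.exp (-1 * y) + C4 * Real.exp (-A⁻¹ * y)) with hF
  refine ⟨F, ?_, ?_⟩
  · refine MeasureTheory.Integrable.add ?_ (MeasureTheory.Integrable.add ?_ ?_)
    · exact (Real.GammaIntegral_convergent (by norm_num : (0 : ℝ) < 3 / 4)).const_mul _
    · exact (exp_neg_integrableOn_Ioi 0 one_pos).const_mul _
    · exact (exp_neg_integrableOn_Ioi 0 (inv_pos.2 hA)).const_mul _
  · intro α hα hα1 y hy
    have hre : ((1 - τ * I + α : ℂ) + 2).re = 3 + α := by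
      simp
      ring
    rw [norm_mul, norm_cpow_eq_rpow_re_of_pos hy, hre]
    rcases le_or_gt y y0 with hyy | hyy
    · have hyle : y ≤ 1 := hyy.trans hy1
      have e1 : y ^ (-(13 / 4) : ℝ) * y ^ (3 + α) = y ^ (-(1 / 4) + α : ℝ) := by
        rw [← Real.rpow_add hy]
        congr 1
        ring
      have e2 : y ^ (-(1 / 4) + α : ℝ) ≤ y ^ ((3 / 4 : ℝ) - 1) :=
        Real.rpow_le_rpow_of_exponent_ge hy hyle (by linarith)
      have e3 : 1 ≤ Real.exp 1 * Real.exp (-y) := by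
        rw [← Real.exp_add]
        exact Real.one_le_exp (by linarith)
      have hpos : 0 ≤ y ^ ((3 / 4 : ℝ) - 1) := (Real.rpow_pos_of_pos hy _).le
      calc ‖gs b 3 (y + β * I) - k * (starRingEnd ℂ) (gs b 3 (((y / A : ℝ) : ℂ) + β' * I))‖ *
            y ^ (3 + α)
          ≤ C * y ^ (-(13 / 4) : ℝ) * y ^ (3 + α) :=
            mul_le_mul_of_nonneg_right (h y hy hyy) (Real.rpow_pos_of_pos hy _).le
        _ = C * y ^ (-(1 / 4) + α : ℝ) := by rw [mul_assoc, e1]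
        _ ≤ C * y ^ ((3 / 4 : ℝ) - 1) := mul_le_mul_of_nonneg_left e2 hC
        _ = C * (1 * y ^ ((3 / 4 : ℝ) - 1)) := by rw [one_mul]
        _ ≤ C * ((Real.exp 1 * Real.exp (-y)) * y ^ ((3 / 4 : ℝ) - 1)) :=
            mul_le_mul_of_nonneg_left (mul_le_mul_of_nonneg_right e3 hpos) hC
        _ = C * Real.exp 1 * (Real.exp (-y) * y ^ ((3 / 4 : ℝ) - 1)) := by ring
        _ ≤ F y := by
            have h3 : 0 ≤ C4 * Real.exp (-1 * y) := mul_nonneg hC4' (Real.exp_pos _).le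
            have h4 : 0 ≤ C4 * Real.exp (-A⁻¹ * y) := mul_nonneg hC4' (Real.exp_pos _).le
            rw [hF]
            simp only
            linarith
    · have hyA : 0 < y / A := div_pos hy hA
      have a1 : ‖gs b 3 (y + β * I)‖ ≤ C1 * Real.exp (-y) * y ^ (-5 : ℝ) := h1 y hy
      have a2 : ‖(starRingEnd ℂ) (gs b 3 (((y / A : ℝ) : ℂ) + β' * I))‖ ≤
          C2 * Real.exp (-(y / A)) * (y / A) ^ (-5 : ℝ) := by
        rw [RCLike.norm_conj]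
        exact h2 (y / A) hyA
      have a3 : (y / A) ^ (-5 : ℝ) = A ^ (5 : ℝ) * y ^ (-5 : ℝ) := by
        rw [Real.div_rpow hy.le hA.le, Real.rpow_neg hA.le 5, div_inv_eq_mul, mul_comm]
      have a4 : y ^ (-5 : ℝ) * y ^ (3 + α) ≤ y0 ^ (-2 : ℝ) := by
        rw [← Real.rpow_add hy]
        have a5 : (-5 : ℝ) + (3 + α) ≤ 0 := by linarith
        calc y ^ ((-5 : ℝ) + (3 + α)) ≤ y0 ^ ((-5 : ℝ) + (3 + α)) :=
              Real.rpow_le_rpow_of_nonpos hy0 hyy.le a5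
          _ ≤ y0 ^ (-2 : ℝ) := Real.rpow_le_rpow_of_exponent_ge hy0 hy1 (by linarith)
      have a6 : 0 ≤ y ^ (-5 : ℝ) * y ^ (3 + α) := by positivity
      have e1 : Real.exp (-y) = Real.exp (-1 * y) := by rw [neg_one_mul]
      have e2 : Real.exp (-(y / A)) = Real.exp (-A⁻¹ * y) := by
        congr 1
        rw [div_eq_mul_inv]
        ring
      rw [e1] at a1
      rw [e2, a3] at a2
      have a7 : ‖gs b 3 (y + β * I) - k * (starRingEnd ℂ) (gs b 3 (((y / A : ℝ) : ℂ) + β' * I))‖ ≤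
          C1 * Real.exp (-1 * y) * y ^ (-5 : ℝ) +
            ‖k‖ * (C2 * Real.exp (-A⁻¹ * y) * (A ^ (5 : ℝ) * y ^ (-5 : ℝ))) := by
        refine (norm_sub_le _ _).trans (add_le_add a1 ?_)
        rw [norm_mul]
        exact mul_le_mul_of_nonneg_left a2 (norm_nonneg _)
      have hE1 : 0 ≤ Real.exp (-1 * y) := (Real.exp_pos _).le
      have hE2 : 0 ≤ Real.exp (-A⁻¹ * y) := (Real.exp_pos _).le
      have hA5 : 0 ≤ A ^ (5 : ℝ) := (Real.rpow_pos_of_pos hA _).le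
      have hkC : 0 ≤ ‖k‖ * C2 * A ^ (5 : ℝ) := by positivity
      have a8 : C1 * y0 ^ (-2 : ℝ) ≤ C4 := by
        rw [hC4]
        exact mul_le_mul_of_nonneg_right (by linarith) hy2.le
      have a9 : ‖k‖ * C2 * A ^ (5 : ℝ) * y0 ^ (-2 : ℝ) ≤ C4 := by
        rw [hC4]
        exact mul_le_mul_of_nonneg_right (by linarith) hy2.le
      calc ‖gs b 3 (y + β * I) - k * (starRingEnd ℂ) (gs b 3 (((y / A : ℝ) : ℂ) + β' * I))‖ *
            y ^ (3 + α)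
          ≤ (C1 * Real.exp (-1 * y) * y ^ (-5 : ℝ) +
            ‖k‖ * (C2 * Real.exp (-A⁻¹ * y) * (A ^ (5 : ℝ) * y ^ (-5 : ℝ)))) * y ^ (3 + α) :=
            mul_le_mul_of_nonneg_right a7 (Real.rpow_pos_of_pos hy _).le
        _ = C1 * Real.exp (-1 * y) * (y ^ (-5 : ℝ) * y ^ (3 + α)) +
            ‖k‖ * C2 * A ^ (5 : ℝ) * Real.exp (-A⁻¹ * y) * (y ^ (-5 : ℝ) * y ^ (3 + α)) := by ring
        _ ≤ C1 * Real.exp (-1 * y) * y0 ^ (-2 : ℝ) +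
            ‖k‖ * C2 * A ^ (5 : ℝ) * Real.exp (-A⁻¹ * y) * y0 ^ (-2 : ℝ) :=
            add_le_add (mul_le_mul_of_nonneg_left a4 (by positivity))
              (mul_le_mul_of_nonneg_left a4 (by positivity))
        _ = (C1 * y0 ^ (-2 : ℝ)) * Real.exp (-1 * y) +
            (‖k‖ * C2 * A ^ (5 : ℝ) * y0 ^ (-2 : ℝ)) * Real.exp (-A⁻¹ * y) := by ring
        _ ≤ C4 * Real.exp (-1 * y) + C4 * Real.exp (-A⁻¹ * y) :=
            add_le_add (mul_le_mul_of_nonneg_right a8 hE1) (mul_le_mul_of_nonneg_right a9 hE2)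
        _ ≤ F y := by
            have h3 : 0 ≤ C * Real.exp 1 * (Real.exp (-y) * y ^ ((3 / 4 : ℝ) - 1)) := by positivity
            rw [hF]
            simp only
            linarith

private theorem wr_k {q β : ℝ} (hq : 0 < q) (hβ : 0 < β) (ωm z : ℂ) :
    ωm * ((((Real.sqrt q * β : ℝ) : ℂ) * I) ^ 7)⁻¹ * ((q * β ^ 2 : ℝ) : ℂ) ^ (4 + z) =
      I * ωm * ((Real.sqrt q * β : ℝ) : ℂ) * ((q * β ^ 2 : ℝ) : ℂ) ^ z := by
  have hr : 0 < Real.sqrt q * β := mul_pos (Real.sqrt_pos.2 hq) hβ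
  have hr0 : ((Real.sqrt q * β : ℝ) : ℂ) ≠ 0 := by exact_mod_cast hr.ne'
  have e0 : q * β ^ 2 = (Real.sqrt q * β) ^ 2 := by rw [mul_pow, Real.sq_sqrt hq.le]
  have hA0 : ((q * β ^ 2 : ℝ) : ℂ) ≠ 0 := by
    rw [e0]
    exact_mod_cast (pow_pos hr 2).ne'
  have e1 : ((q * β ^ 2 : ℝ) : ℂ) ^ (4 : ℂ) = ((Real.sqrt q * β : ℝ) : ℂ) ^ 8 := by
    have e2 : (4 : ℂ) = ((4 : ℕ) : ℂ) := by norm_num
    rw [e2, cpow_natCast, e0, ofReal_pow]
    ring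
  rw [cpow_add _ _ hA0, e1, mul_pow]
  have e3 : (I : ℂ) ^ 7 = -I := by
    have : (I : ℂ) ^ 7 = (I ^ 2) ^ 3 * I := by ring
    rw [this, I_sq]
    ring
  rw [e3, mul_inv, inv_neg, inv_I, neg_neg]
  field_simp

theorem w_rel {q : ℝ} (hq : 0 < q) {b : ℕ → ℂ} {ωm ωp : ℂ} (h : CStep q b ωm ωp)
    (ram : ∀ δ : ℝ, 0 < δ → ∃ C : ℝ, ∀ n : ℕ, 1 ≤ n → ‖b n‖ ≤ C * (n : ℝ) ^ δ)
    (β : ℝ) (hβ : 0 < β) (hβ1 : β ≤ 1) (τ : ℝ) : ∃ C : ℝ, ∀ α : ℝ, 0 < α → α ≤ 1 →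
      ‖Es b β (1 - τ * I + α) - I * ωm * ((Real.sqrt q * β : ℝ) : ℂ) *
        ((q * β ^ 2 : ℝ) : ℂ) ^ (-(τ * I) + α : ℂ) *
          (starRingEnd ℂ) (Es b (1 / (q * β)) (1 + τ * I + α))‖ ≤ C := by
  have hA : 0 < q * β ^ 2 := by positivity
  obtain ⟨C, y0, hC, hy0, hy1, hl⟩ := w_line hq h ram β hβ hβ1
  obtain ⟨F, hF, hdom⟩ := wr_dom ram β (1 / (q * β)) hA
    (ωm * ((((Real.sqrt q * β : ℝ) : ℂ) * I) ^ 7)⁻¹) hC hy0 hy1 hl τ
  obtain ⟨c, hc, hlow⟩ := wr_low τ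
  refine ⟨(∫ y in Set.Ioi (0 : ℝ), F y) / c, ?_⟩
  intro α hα hα1
  have hs : 1 < (1 - τ * I + α : ℂ).re := by
    simp
    linarith
  have hss : (1 - τ * I + α : ℂ) = (starRingEnd ℂ) (1 + τ * I + α : ℂ) := by
    simp [sub_eq_add_neg]
  obtain ⟨i1, m1⟩ := mellin_gs ram β (1 - τ * I + α) hs
  obtain ⟨i2, m2⟩ := wr_star ram (1 / (q * β)) hA (1 - τ * I + α) (1 + τ * I + α) hs hss
  set k : ℂ := ωm * ((((Real.sqrt q * β : ℝ) : ℂ) * I) ^ 7)⁻¹ with hk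
  have hI : ∫ y in Set.Ioi (0 : ℝ), (gs b 3 (y + β * I) - k * (starRingEnd ℂ)
      (gs b 3 (((y / (q * β ^ 2) : ℝ) : ℂ) + ((1 / (q * β) : ℝ) : ℂ) * I))) *
        (y : ℂ) ^ ((1 - τ * I + α : ℂ) + 2) =
      (Gamma ((1 - τ * I + α : ℂ) + 3) * (2 * (Real.pi : ℂ)) ^ (-((1 - τ * I + α : ℂ) + 3))) *
      (Es b β (1 - τ * I + α) - I * ωm * ((Real.sqrt q * β : ℝ) : ℂ) *
        ((q * β ^ 2 : ℝ) : ℂ) ^ (-(τ * I) + α : ℂ) *
          (starRingEnd ℂ) (Es b (1 / (q * β)) (1 + τ * I + α))) := by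
    have e1 : ∀ y : ℝ, (gs b 3 (y + β * I) - k * (starRingEnd ℂ)
      (gs b 3 (((y / (q * β ^ 2) : ℝ) : ℂ) + ((1 / (q * β) : ℝ) : ℂ) * I))) *
        (y : ℂ) ^ ((1 - τ * I + α : ℂ) + 2) =
      gs b 3 (y + β * I) * (y : ℂ) ^ ((1 - τ * I + α : ℂ) + 2) - k * ((starRingEnd ℂ)
      (gs b 3 (((y / (q * β ^ 2) : ℝ) : ℂ) + ((1 / (q * β) : ℝ) : ℂ) * I)) *
        (y : ℂ) ^ ((1 - τ * I + α : ℂ) + 2)) := fun y => by ring
    simp only [e1]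
    rw [MeasureTheory.integral_sub i1 (i2.const_mul k), m1, MeasureTheory.integral_const_mul, m2]
    have e2 : (1 - τ * I + α : ℂ) + 3 = 4 + (-(τ * I) + α) := by ring
    have e3 := wr_k hq hβ ωm (-(τ * I) + α : ℂ)
    rw [← hk, ← e2] at e3
    rw [← e3]
    ring
  have hb : ‖∫ y in Set.Ioi (0 : ℝ), (gs b 3 (y + β * I) - k * (starRingEnd ℂ)
      (gs b 3 (((y / (q * β ^ 2) : ℝ) : ℂ) + ((1 / (q * β) : ℝ) : ℂ) * I))) *
        (y : ℂ) ^ ((1 - τ * I + α : ℂ) + 2)‖ ≤ ∫ y in Set.Ioi (0 : ℝ), F y := by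
    refine MeasureTheory.norm_integral_le_of_norm_le hF ?_
    filter_upwards [MeasureTheory.self_mem_ae_restrict measurableSet_Ioi] with y hy
    exact hdom α hα hα1 y hy
  rw [hI, norm_mul] at hb
  rw [le_div_iff₀ hc]
  calc _ ≤ ‖Gamma ((1 - τ * I + α : ℂ) + 3) *
        (2 * (Real.pi : ℂ)) ^ (-((1 - τ * I + α : ℂ) + 3))‖ * _ := by
        rw [mul_comm]
        exact mul_le_mul_of_nonneg_right (hlow α hα.le hα1) (norm_nonneg _)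
    _ ≤ _ := hb

end Pool.Agent.H11.PB
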