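import Mathlib
import Pool.Agent.H11.PB.Defs
import Pool.Agent.H11.PB.WREL

/-!
# WLIM: the relation between the cusps for the limits

PROOF.  Multiply `w_rel` by `om α → 0` (real, so `om conj X = conj (om X)`): the difference tends to `0` along `U`; and
`(q β²)^(-τI+α) → (q β²)^(-τI)` as `α → 0` (`U ≤ 𝓝[>] 0 ≤ 𝓝 0`), `conj` is continuous.
-/

set_option autoImplicit false

namespace Pool.Agent.H11.PB

open Complex Filter Topology Pool.Agent.H11.SC Pool.Agent.H11.PC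

theorem w_lim {q : ℝ} (hq : 0 < q) {b : ℕ → ℂ} {ωm ωp : ℂ} (h : CStep q b ωm ωp)
    (ram : ∀ δ : ℝ, 0 < δ → ∃ C : ℝ, ∀ n : ℕ, 1 ≤ n → ‖b n‖ ≤ C * (n : ℝ) ^ δ)
    (β : ℝ) (hβ : 0 < β) (hβ1 : β ≤ 1) (τ : ℝ) (U : Filter ℝ) (hU : U ≤ 𝓝[>] 0) (om : ℝ → ℝ)
    (hom : Tendsto om U (𝓝 0)) (ρ : ℂ) (hρ : Tendsto
      (fun α : ℝ => (om α : ℂ) * Es b (1 / (q * β)) (1 + τ * I + α)) U (𝓝 ρ)) :
    Tendsto (fun α : ℝ => (om α : ℂ) * Es b β (1 - τ * I + α)) U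
      (𝓝 (I * ωm * ((Real.sqrt q * β : ℝ) : ℂ) * ((q * β ^ 2 : ℝ) : ℂ) ^ (-(τ * I) : ℂ) *
        (starRingEnd ℂ) ρ)) := by
  obtain ⟨C, hC⟩ := w_rel hq h ram β hβ hβ1 τ
  have hev : ∀ᶠ α : ℝ in U, 0 < α ∧ α ≤ 1 := by
    have h1 : ∀ᶠ α : ℝ in 𝓝[>] (0 : ℝ), 0 < α ∧ α ≤ 1 := by
      have h2 := Ioc_mem_nhdsGT (show (0 : ℝ) < 1 by norm_num)
      filter_upwards [h2] with α hα
      exact ⟨hα.1, hα.2⟩
    exact hU h1
  set K : ℂ := I * ωm * ((Real.sqrt q * β : ℝ) : ℂ) with hK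
  have hA : ((q * β ^ 2 : ℝ) : ℂ) ≠ 0 := by
    have h3 : (0 : ℝ) < q * β ^ 2 := by positivity
    exact_mod_cast h3.ne'
  -- the difference tends to zero
  have hd : Tendsto (fun α : ℝ => (om α : ℂ) * (Es b β (1 - τ * I + α) - K *
      ((q * β ^ 2 : ℝ) : ℂ) ^ (-(τ * I) + α : ℂ) *
        (starRingEnd ℂ) (Es b (1 / (q * β)) (1 + τ * I + α)))) U (𝓝 0) := by
    have hom' : Tendsto (fun α : ℝ => |om α| * |C|) U (𝓝 0) := by
      have h4 := (hom.abs).mul_const |C|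
      simpa using h4
    refine squeeze_zero_norm' ?_ hom'
    filter_upwards [hev] with α hα
    rw [norm_mul, Complex.norm_real, Real.norm_eq_abs]
    exact mul_le_mul_of_nonneg_left ((hC α hα.1 hα.2).trans (le_abs_self C)) (abs_nonneg _)
  -- the power
  have hp : Tendsto (fun α : ℝ => ((q * β ^ 2 : ℝ) : ℂ) ^ (-(τ * I) + α : ℂ)) U
      (𝓝 (((q * β ^ 2 : ℝ) : ℂ) ^ (-(τ * I) : ℂ))) := by
    have h5 : Tendsto (fun α : ℝ => (-(τ * I) + α : ℂ)) (𝓝 (0 : ℝ)) (𝓝 (-(τ * I) + ((0 : ℝ) : ℂ))) := by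
      have : Continuous (fun α : ℝ => (-(τ * I) + α : ℂ)) := by fun_prop
      exact this.tendsto 0
    have h6 : Tendsto (fun α : ℝ => (-(τ * I) + α : ℂ)) U (𝓝 (-(τ * I) : ℂ)) := by
      have h7 : (U : Filter ℝ) ≤ 𝓝 0 := hU.trans nhdsWithin_le_nhds
      have h8 := h5.mono_left h7
      simpa using h8
    exact h6.const_cpow (Or.inl hA)
  -- conjugation
  have hc : Tendsto (fun α : ℝ => (starRingEnd ℂ) ((om α : ℂ) * Es b (1 / (q * β)) (1 + τ * I + α))) U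
      (𝓝 ((starRingEnd ℂ) ρ)) := (Complex.continuous_conj.tendsto ρ).comp hρ
  have hm : Tendsto (fun α : ℝ => K * ((q * β ^ 2 : ℝ) : ℂ) ^ (-(τ * I) + α : ℂ) *
      (starRingEnd ℂ) ((om α : ℂ) * Es b (1 / (q * β)) (1 + τ * I + α))) U
      (𝓝 (K * ((q * β ^ 2 : ℝ) : ℂ) ^ (-(τ * I) : ℂ) * (starRingEnd ℂ) ρ)) :=
    (hp.const_mul K).mul hc
  have hs := hd.add hm
  rw [zero_add] at hs
  refine hs.congr fun α => ?_
  rw [map_mul, Complex.conj_ofReal]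
  ring

end Pool.Agent.H11.PB
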