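import Mathlib
import Pool.Agent.H11.PB.Defs
import Pool.Agent.H11.PC.SB
import Pool.Agent.H11.PC.SUMM
import Pool.Agent.H11.PC.DIR
import Pool.Agent.H75.AP.MertensB

/-!
# TRC: truncation of a sum over the primes

PROOF.  `L = log x ≥ 2`, `α = 1/L`, `LL = log log x ≥ 1`.  The difference is
`∑_{p ≤ x} c(p) p^(-1) (1 - p^(-α)) - ∑_{p > x} c(p) p^(-1-α)`.
First part: `0 ≤ 1 - p^(-α) ≤ α log p` (`1 - e^(-u) ≤ u`), Cauchy-Schwarz:
`≤ (∑_{p≤x} ‖a p‖²/p)^(1/2) (∑_{p ≤ x} (log p)²/p)^(1/2) / L ≤ (C LL)^(1/2) (L ∑_{p≤x} log p/p)^(1/2)/L ≤ C' LL^(1/2)`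
(`mertens_one` of `H75/AP/MertensA.lean`: `∑_{p≤x} log p/p ≤ L + C`).
Second part: `≤ (∑_p ‖a p‖² p^(-1-α))^(1/2) (∑_{p > x} p^(-1-α))^(1/2)`.  The first factor: `≤ (C LL + C)^(1/2)`, as in
`sb_sum` of `PC/SB.lean` (its proof uses only `h.sb`; or state the theorem for `PD b` and use `sb_sum`: here `h : PD a`).
The second: `∑_{p>x} p^(-1-α) = ∑_p p^(-1-α) - ∑_{p ≤ x} p^(-1-α)`, `∑_p p^(-1-α) ≤ LL + C` (`dir_one` of `PC/DIR.lean`,
modulus `1`), and `∑_{p ≤ x} p^(-1-α) ≥ ∑_{p≤x} 1/p - α ∑_{p ≤ x} log p/p ≥ LL - C` (`mertens_low` of `H75/AP/MertensB.lean`).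
(`H75.AP.PI 0 x` is the set of the primes `≤ x`, see `H2/MR/Prl.lean`.)
-/

set_option autoImplicit false

namespace Pool.Agent.H11.PB

open Complex Filter Topology Pool.Agent.H11.PC Pool.Agent.H11.Selberg

private theorem split_tsum {E : Type*} [NormedAddCommGroup E] {f : Nat.Primes → E}
    (hf : Summable f) (Q : Finset Nat.Primes) [DecidablePred (· ∈ Q)] :
    Summable (fun p => if p ∈ Q then 0 else f p) ∧
    ∑' p, f p = ∑ p ∈ Q, f p + ∑' p, (if p ∈ Q then 0 else f p) := by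
  have h1 : Summable (fun p => if p ∈ Q then f p else 0) :=
    summable_of_ne_finset_zero (s := Q) (fun b hb => if_neg hb)
  have h2 : Summable (fun p => if p ∈ Q then 0 else f p) := by
    refine (hf.sub h1).congr fun p => ?_
    split_ifs <;> simp
  have h3 : ∑' p, (if p ∈ Q then f p else 0) = ∑ p ∈ Q, f p := by
    rw [tsum_eq_sum (s := Q) (fun b hb => if_neg hb)]
    exact Finset.sum_congr rfl fun p hp => if_pos hp
  refine ⟨h2, ?_⟩
  rw [← h3, ← h1.tsum_add h2]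
  exact tsum_congr fun p => by split_ifs <;> simp

private theorem PI_P (x : ℝ) : Pool.Agent.H75.AP.PI 0 x = P x := by
  ext p
  rw [Pool.Agent.H75.AP.MertB.mem_PI le_rfl, mem_P]
  constructor
  · rintro ⟨h1, -, h3⟩
    exact ⟨h1, h3⟩
  · rintro ⟨h1, h3⟩
    exact ⟨h1, by exact_mod_cast h1.pos, h3⟩

private theorem cast_rpow (p : ℕ) (α : ℝ) :
    ((p : ℕ) : ℂ) ^ (-(1 + ((α : ℝ) : ℂ))) = (((p : ℝ) ^ (-(1 + α)) : ℝ) : ℂ) := by
  rw [Complex.ofReal_cpow (Nat.cast_nonneg _)]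
  push_cast
  rfl

private theorem rpow_split {p : ℕ} (hp : p.Prime) (α : ℝ) :
    (p : ℝ) ^ (-(1 + α)) = 1 / (p : ℝ) * Real.exp (-(α * Real.log p)) := by
  have h0 : (0 : ℝ) < p := by exact_mod_cast hp.pos
  rw [show -(1 + α) = -1 + -α by ring, Real.rpow_add h0, Real.rpow_neg_one,
    Real.rpow_def_of_pos h0 (-α), one_div]
  congr 2
  ring

theorem trunc {a : ℕ → ℂ} (h : PD a) : ∃ C : ℝ, 0 ≤ C ∧ ∀ c : ℕ → ℂ,
    (∀ p : ℕ, p.Prime → ‖c p‖ ≤ ‖a p‖) → ∀ x : ℝ, 16 ≤ x →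
      ‖∑ p ∈ (Finset.Icc 1 ⌊x⌋₊).filter Nat.Prime, c p * (p : ℂ) ^ (-1 : ℂ) -
        PS c (1 + ((1 / Real.log x : ℝ) : ℂ))‖ ≤ C * Real.sqrt (Real.log (Real.log x)) := by
  classical
  obtain ⟨C0', hC0'⟩ := h.sb
  obtain ⟨C0, hC0, hC0le⟩ : ∃ C0 : ℝ, 0 ≤ C0 ∧ C0' ≤ C0 := ⟨max C0' 0, le_max_right _ _,
    le_max_left _ _⟩
  obtain ⟨Cb, hCb, hsb⟩ := sb_sum h
  obtain ⟨C1', hC1'⟩ := dir_one (L := 1)
  obtain ⟨C1, hC1, hC1le⟩ : ∃ C1 : ℝ, 0 ≤ C1 ∧ C1' ≤ C1 := ⟨max C1' 0, le_max_right _ _,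
    le_max_left _ _⟩
  obtain ⟨C2, hC2, hlow⟩ := Pool.Agent.H75.AP.mertens_low
  obtain ⟨C3, hC3, hone⟩ := Pool.Agent.H75.AP.mertens_one
  refine ⟨Real.sqrt (C0 * (1 + C3)) + Real.sqrt (2 * Cb * (C1 + C2 + C3 + 1)), by positivity, ?_⟩
  intro c hc x hx
  obtain ⟨L, hL⟩ : ∃ L, L = Real.log x := ⟨_, rfl⟩
  obtain ⟨LL, hLL⟩ : ∃ LL, LL = Real.log L := ⟨_, rfl⟩
  obtain ⟨α, hα⟩ : ∃ α : ℝ, α = 1 / L := ⟨_, rfl⟩
  have hx0 : 0 < x := by linarith
  have hLe : Real.exp 1 < L := by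
    have h1 : Real.log 16 ≤ L := by rw [hL]; exact Real.log_le_log (by norm_num) hx
    have h2 : Real.log 16 = 4 * Real.log 2 := by
      rw [show (16 : ℝ) = 2 ^ 4 by norm_num, Real.log_pow]
      norm_num
    have h3 := Real.log_two_gt_d9
    have h4 := Real.exp_one_lt_d9
    linarith
  have he : (2 : ℝ) ≤ Real.exp 1 := by
    have := Real.add_one_le_exp (1 : ℝ)
    linarith
  have hL2 : 2 ≤ L := by linarith
  have hL0 : 0 < L := by linarith
  have hLL1 : 1 ≤ LL := by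
    rw [hLL, Real.le_log_iff_exp_le hL0]
    exact hLe.le
  have hα0 : 0 < α := by rw [hα]; positivity
  have hα2 : α ≤ 1 / 2 := by
    rw [hα]
    exact one_div_le_one_div_of_le (by norm_num) hL2
  have hαL : α * L = 1 := by rw [hα]; field_simp
  have hlα : Real.log (1 / α) = LL := by rw [hα, one_div_one_div, hLL]
  have hlα' : Real.log α = -LL := by rw [hα, one_div, Real.log_inv, hLL]
  rw [← hL, ← hLL, ← hα]
  -- the finite set
  obtain ⟨Q, hQ⟩ : ∃ Q : Finset Nat.Primes, Q = (P x).subtype Nat.Prime := ⟨_, rfl⟩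
  have hPf : (P x).filter Nat.Prime = P x := by
    refine Finset.filter_true_of_mem fun p hp => ((mem_P _ _).1 hp).1
  have hQsum : ∀ {E : Type} [NormedAddCommGroup E] (f : ℕ → E),
      ∑ p ∈ Q, f (p : ℕ) = ∑ p ∈ P x, f p := by
    intro E _ f
    rw [hQ]
    exact (Finset.sum_subtype_eq_sum_filter (s := P x) (p := Nat.Prime) f).trans (by rw [hPf])
  -- the real sums
  set r : Nat.Primes → ℝ := fun p => ((p : ℕ) : ℝ) ^ (-(1 + α)) with hr
  have hrs : Summable r := Nat.Primes.summable_rpow.mpr (by linarith)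
  have hr0 : ∀ p, 0 ≤ r p := fun p => Real.rpow_nonneg (Nat.cast_nonneg _) _
  have hr1 : ∑' p, r p ≤ LL + C1 := by
    have h1 := hC1' α hα0 (by linarith)
    have h2 : PS (fun n => (1 : DirichletCharacter ℂ 1) (n : ZMod 1)) (1 + α) =
        ((∑' p, r p : ℝ) : ℂ) := by
      rw [Complex.ofReal_tsum]
      unfold PS
      refine tsum_congr fun p => ?_
      show (1 : DirichletCharacter ℂ 1) (((p : ℕ) : ℕ) : ZMod 1) *
        ((p : ℕ) : ℂ) ^ (-(1 + ((α : ℝ) : ℂ))) = _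
      rw [MulChar.one_apply (isUnit_of_subsingleton _), one_mul, cast_rpow]
    rw [h2, ← Complex.ofReal_add, Complex.norm_real, Real.norm_eq_abs, hlα'] at h1
    have h3 := (abs_le.1 h1).2
    linarith
  have hr2 : LL - C2 - 1 - C3 ≤ ∑ p ∈ Q, r p := by
    have h1 := hQsum (fun n : ℕ => (n : ℝ) ^ (-(1 + α)))
    have h1' : ∑ p ∈ Q, r p = ∑ p ∈ P x, (p : ℝ) ^ (-(1 + α)) := h1
    rw [h1']
    have h2 : ∀ p ∈ P x, 1 / (p : ℝ) - α * (Real.log p / p) ≤ (p : ℝ) ^ (-(1 + α)) := by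
      intro p hp
      have hpp := ((mem_P _ _).1 hp).1
      have h0 : (0 : ℝ) < p := by exact_mod_cast hpp.pos
      rw [rpow_split hpp]
      have h3 := Real.add_one_le_exp (-(α * Real.log p))
      have h4 : 1 / (p : ℝ) - α * (Real.log p / p) = 1 / (p : ℝ) * (-(α * Real.log p) + 1) := by
        ring
      rw [h4]
      exact mul_le_mul_of_nonneg_left h3 (by positivity)
    refine le_trans ?_ (Finset.sum_le_sum h2)
    rw [Finset.sum_sub_distrib, ← Finset.mul_sum]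
    have h3 := hlow x (by linarith)
    have h4 := (abs_le.1 (hone x (by linarith))).2
    rw [PI_P, ← hL] at h3 h4
    rw [← hLL] at h3
    have h5 : α * ∑ p ∈ P x, Real.log p / p ≤ α * (L + C3) :=
      mul_le_mul_of_nonneg_left (by linarith) hα0.le
    have h6 : α * C3 ≤ C3 := by nlinarith
    have h7 : α * (L + C3) = 1 + α * C3 := by rw [mul_add, hαL]
    linarith
  -- the complex series
  set f : Nat.Primes → ℂ := fun p => c (p : ℕ) * ((p : ℕ) : ℂ) ^ (-(1 + ((α : ℝ) : ℂ))) with hf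
  have hfn : ∀ p, ‖f p‖ ≤ ‖a (p : ℕ)‖ * r p := by
    intro p
    simp only [hf]
    rw [norm_mul, cast_rpow, Complex.norm_real, Real.norm_eq_abs, abs_of_nonneg (hr0 p)]
    exact mul_le_mul_of_nonneg_right (hc _ p.2) (hr0 p)
  have has : Summable (fun p : Nat.Primes => ‖a (p : ℕ)‖ * r p) := by
    have h1 := pd_prime_summable h (fun _ => 1) (fun _ => by simp) (1 + ((α : ℝ) : ℂ))
      (by simp [hα0])
    refine h1.congr fun p => ?_
    rw [mul_one, norm_mul, cast_rpow, Complex.norm_real, Real.norm_eq_abs,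
      abs_of_nonneg (hr0 p)]
  have hfs : Summable f := Summable.of_norm_bounded has hfn
  obtain ⟨hf2s, hfsplit⟩ := split_tsum hfs Q
  obtain ⟨hr2s, hrsplit⟩ := split_tsum hrs Q
  have hPS : PS c (1 + ((α : ℝ) : ℂ)) = ∑' p, f p := rfl
  have hQf : ∑ p ∈ Q, f p = ∑ p ∈ P x, c p * ((p : ℕ) : ℂ) ^ (-(1 + ((α : ℝ) : ℂ))) :=
    hQsum (fun n : ℕ => c n * ((n : ℕ) : ℂ) ^ (-(1 + ((α : ℝ) : ℂ))))
  have hPdef : (Finset.Icc 1 ⌊x⌋₊).filter Nat.Prime = P x := rfl
  rw [hPS, hfsplit, hQf, hPdef, ← sub_sub, ← Finset.sum_sub_distrib]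
  -- first part
  have hfirst : ‖∑ p ∈ P x, (c p * (p : ℂ) ^ (-1 : ℂ) -
      c p * ((p : ℕ) : ℂ) ^ (-(1 + ((α : ℝ) : ℂ))))‖ ≤
      Real.sqrt (C0 * (1 + C3)) * Real.sqrt LL := by
    have h1 : ∀ p ∈ P x, ‖c p * (p : ℂ) ^ (-1 : ℂ) -
        c p * ((p : ℕ) : ℂ) ^ (-(1 + ((α : ℝ) : ℂ)))‖ ≤
        α * ((‖a p‖ / Real.sqrt p) * (Real.log p / Real.sqrt p)) := by
      intro p hp
      have hpp := ((mem_P _ _).1 hp).1
      have h0 : (0 : ℝ) < p := by exact_mod_cast hpp.pos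
      have h01 : (1 : ℝ) ≤ p := by exact_mod_cast hpp.one_le
      have hlp : 0 ≤ Real.log p := Real.log_nonneg h01
      have e1 : (p : ℂ) ^ (-1 : ℂ) = ((1 / (p : ℝ) : ℝ) : ℂ) := by
        rw [Complex.cpow_neg_one]
        push_cast
        rw [one_div]
      rw [cast_rpow, e1, ← mul_sub, norm_mul, ← Complex.ofReal_sub, Complex.norm_real,
        Real.norm_eq_abs, rpow_split hpp]
      have h2 : 1 / (p : ℝ) - 1 / (p : ℝ) * Real.exp (-(α * Real.log p)) =
          1 / (p : ℝ) * (1 - Real.exp (-(α * Real.log p))) := by ring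
      have h3 := Real.add_one_le_exp (-(α * Real.log p))
      have h4 : Real.exp (-(α * Real.log p)) ≤ 1 :=
        Real.exp_le_one_iff.2 (by have := mul_nonneg hα0.le hlp; linarith)
      rw [h2, abs_of_nonneg (mul_nonneg (by positivity) (by linarith))]
      have h5 : ‖c p‖ * (1 / (p : ℝ) * (1 - Real.exp (-(α * Real.log p)))) ≤
          ‖a p‖ * (1 / (p : ℝ) * (α * Real.log p)) := by
        refine mul_le_mul (hc p hpp) ?_ (mul_nonneg (by positivity) (by linarith))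
          (norm_nonneg _)
        exact mul_le_mul_of_nonneg_left (by linarith) (by positivity)
      refine h5.trans (le_of_eq ?_)
      have h6 : (‖a p‖ / Real.sqrt p) * (Real.log p / Real.sqrt p) =
          ‖a p‖ * Real.log p / (Real.sqrt p * Real.sqrt p) := by
        rw [div_mul_div_comm]
      rw [h6, Real.mul_self_sqrt h0.le]
      ring
    refine (norm_sum_le _ _).trans ((Finset.sum_le_sum h1).trans ?_)
    rw [← Finset.mul_sum]
    have h2 := Real.sum_mul_le_sqrt_mul_sqrt (P x) (fun p : ℕ => ‖a p‖ / Real.sqrt p)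
      (fun p : ℕ => Real.log p / Real.sqrt p)
    have h3 : ∑ p ∈ P x, (‖a p‖ / Real.sqrt p) ^ 2 ≤ C0 * LL := by
      have e1 : ∑ p ∈ P x, (‖a p‖ / Real.sqrt p) ^ 2 = S a x := by
        rw [S_eq]
        refine Finset.sum_congr rfl fun p _ => ?_
        rw [div_pow, Real.sq_sqrt (Nat.cast_nonneg p)]
      rw [e1]
      have h4 := hC0' x hx
      rw [← hL, ← hLL] at h4
      exact h4.trans (mul_le_mul_of_nonneg_right hC0le (by linarith))
    have h4 : ∑ p ∈ P x, (Real.log p / Real.sqrt p) ^ 2 ≤ L * (L + C3) := by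
      have e1 : ∀ p ∈ P x, (Real.log p / Real.sqrt p) ^ 2 ≤ L * (Real.log p / p) := by
        intro p hp
        have hpp := ((mem_P _ _).1 hp).1
        have hpx := ((mem_P _ _).1 hp).2
        have h0 : (0 : ℝ) < p := by exact_mod_cast hpp.pos
        have h01 : (1 : ℝ) ≤ p := by exact_mod_cast hpp.one_le
        have hlp : 0 ≤ Real.log p := Real.log_nonneg h01
        have hlx : Real.log p ≤ L := by rw [hL]; exact Real.log_le_log h0 hpx
        rw [div_pow, Real.sq_sqrt h0.le, sq, mul_div_assoc]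
        exact mul_le_mul_of_nonneg_right hlx (by positivity)
      refine (Finset.sum_le_sum e1).trans ?_
      rw [← Finset.mul_sum]
      have h5 := (abs_le.1 (hone x (by linarith))).2
      rw [PI_P, ← hL] at h5
      exact mul_le_mul_of_nonneg_left (by linarith) hL0.le
    have h5 : α * ∑ p ∈ P x, (‖a p‖ / Real.sqrt p) * (Real.log p / Real.sqrt p) ≤
        α * (Real.sqrt (C0 * LL) * Real.sqrt (L * (L + C3))) := by
      refine mul_le_mul_of_nonneg_left (h2.trans ?_) hα0.le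
      exact mul_le_mul (Real.sqrt_le_sqrt h3) (Real.sqrt_le_sqrt h4) (Real.sqrt_nonneg _)
        (Real.sqrt_nonneg _)
    refine h5.trans ?_
    have h6 : α * Real.sqrt (L * (L + C3)) ≤ Real.sqrt (1 + C3) := by
      refine Real.le_sqrt_of_sq_le ?_
      rw [mul_pow, Real.sq_sqrt (by positivity)]
      have e1 : α ^ 2 * (L * (L + C3)) = (α * L) * (α * L + α * C3) := by ring
      rw [e1, hαL]
      nlinarith
    calc α * (Real.sqrt (C0 * LL) * Real.sqrt (L * (L + C3)))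
        = Real.sqrt (C0 * LL) * (α * Real.sqrt (L * (L + C3))) := by ring
      _ ≤ Real.sqrt (C0 * LL) * Real.sqrt (1 + C3) :=
          mul_le_mul_of_nonneg_left h6 (Real.sqrt_nonneg _)
      _ = Real.sqrt (C0 * (1 + C3)) * Real.sqrt LL := by
          rw [Real.sqrt_mul hC0, Real.sqrt_mul hC0]
          ring
  -- second part
  have hsecond : ‖∑' p, (if p ∈ Q then 0 else f p)‖ ≤
      Real.sqrt (2 * Cb * (C1 + C2 + C3 + 1)) * Real.sqrt LL := by
    have hA := hsb α hα0 hα2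
    rw [hlα] at hA
    have hAs := pd_prime_sq h (1 + α) (by linarith)
    have hB : ∑' p, (if p ∈ Q then 0 else r p) ≤ C1 + C2 + C3 + 1 := by
      have := hrsplit
      linarith
    have hns : Summable (fun p => ‖(if p ∈ Q then 0 else f p)‖) := by
      refine Summable.of_nonneg_of_le (fun p => norm_nonneg _) (fun p => ?_) has
      split_ifs
      · rw [norm_zero]
        exact mul_nonneg (norm_nonneg _) (hr0 p)
      · exact hfn p
    refine (norm_tsum_le_tsum_norm hns).trans ?_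
    refine hns.tsum_le_of_sum_le fun s => ?_
    have h1 : ∀ p ∈ s, ‖(if p ∈ Q then 0 else f p)‖ ≤
        (‖a (p : ℕ)‖ * Real.sqrt (r p)) * Real.sqrt (if p ∈ Q then 0 else r p) := by
      intro p _
      split_ifs
      · simp
      · refine (hfn p).trans (le_of_eq ?_)
        rw [mul_assoc, Real.mul_self_sqrt (hr0 p)]
    refine (Finset.sum_le_sum h1).trans ?_
    refine (Real.sum_mul_le_sqrt_mul_sqrt s _ _).trans ?_
    have h2 : ∑ p ∈ s, (‖a (p : ℕ)‖ * Real.sqrt (r p)) ^ 2 ≤ 2 * Cb * LL := by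
      have e1 : ∑ p ∈ s, (‖a (p : ℕ)‖ * Real.sqrt (r p)) ^ 2 =
          ∑ p ∈ s, ‖a (p : ℕ)‖ ^ 2 * ((p : ℕ) : ℝ) ^ (-(1 + α)) := by
        refine Finset.sum_congr rfl fun p _ => ?_
        rw [mul_pow, Real.sq_sqrt (hr0 p)]
      rw [e1]
      refine (hAs.sum_le_tsum s (fun p _ => mul_nonneg (sq_nonneg _) (hr0 p))).trans ?_
      refine hA.trans ?_
      nlinarith
    have h3 : ∑ p ∈ s, (Real.sqrt (if p ∈ Q then 0 else r p)) ^ 2 ≤ C1 + C2 + C3 + 1 := by
      have e0 : ∀ p : Nat.Primes, 0 ≤ (if p ∈ Q then 0 else r p) := by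
        intro p
        split_ifs
        · exact le_rfl
        · exact hr0 p
      have e1 : ∑ p ∈ s, (Real.sqrt (if p ∈ Q then 0 else r p)) ^ 2 =
          ∑ p ∈ s, (if p ∈ Q then 0 else r p) :=
        Finset.sum_congr rfl fun p _ => Real.sq_sqrt (e0 p)
      rw [e1]
      exact (hr2s.sum_le_tsum s (fun p _ => e0 p)).trans hB
    calc _ ≤ Real.sqrt (2 * Cb * LL) * Real.sqrt (C1 + C2 + C3 + 1) :=
          mul_le_mul (Real.sqrt_le_sqrt h2) (Real.sqrt_le_sqrt h3) (Real.sqrt_nonneg _)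
            (Real.sqrt_nonneg _)
      _ = Real.sqrt (2 * Cb * (C1 + C2 + C3 + 1)) * Real.sqrt LL := by
          rw [Real.sqrt_mul (by positivity), Real.sqrt_mul (by positivity : 0 ≤ 2 * Cb)]
          ring
  refine (norm_sub_le _ _).trans ?_
  rw [add_mul]
  exact add_le_add hfirst hsecond

end Pool.Agent.H11.PB
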