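import Mathlib
import Pool.Agent.H11.PB.Defs
import Pool.Agent.H11.PB.TRC
import Pool.Agent.H11.PC.CMG

/-!
# HYP: if the second alternative fails, a twist is large at infinitely many scales

PROOF.  `c p = a p χ(p) p^(-it)`, `‖c p‖ ≤ ‖a p‖`; `PS c (1 + α) = PS (a χ) (1 + tI + α)` (`PS_shift` or directly,
`p^(-it) p^(-1-α) = p^(-(1+it+α))`), and the sum in `hbad` is `∑ c p p^(-1)`.  `trunc` (with `pd_of` of `PC/PDOF.lean`, `δ = 0`,
or with a hypothesis `PD a`): `Re PS (a χ) (1 + tI + 1/log x) ≥ ε LL + C - C1 LL^(1/2)`, `LL = log log x`, and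
`C1 LL^(1/2) ≤ (ε/2) LL + C1²/(2ε)`; so for `C ≥ C1²/(2ε)`: `Re PS ≥ (ε/2) log (1/α)` with `α = 1/log x`.
Frequently: given `δ0 > 0`, the sums in `hbad` for `16 ≤ x ≤ X0 = exp (1/δ0)` (`X0 ≥ 16` w.l.o.g.) are bounded by
`∑_{p ≤ X0} ‖a p‖/p =: C2`, so for `C ≥ C2` the point `x` of `hbad` is `> X0` and `α < δ0`.
(`Filter.frequently_iff`, `mem_nhdsWithin`.)
-/

set_option autoImplicit false

namespace Pool.Agent.H11.PB

open Complex Filter Topology Pool.Agent.H11.PC Pool.Agent.H11.Selberg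

theorem hyp_freq {a : ℕ → ℂ} (h : PD a) {L : ℕ} (χ : DirichletCharacter ℂ L)
    (t ε : ℝ) (hε : 0 < ε)
    (hbad : ∀ C : ℝ, ∃ x : ℝ, 16 ≤ x ∧ ε * Real.log (Real.log x) + C <
      (∑ p ∈ (Finset.Icc 1 ⌊x⌋₊).filter Nat.Prime,
        a p * χ (p : ZMod L) * (p : ℂ) ^ (-(1 + t * I) : ℂ)).re) :
    ∃ᶠ α in 𝓝[>] (0 : ℝ), ε / 2 * Real.log (1 / α) ≤
      (PS (fun n => a n * χ (n : ZMod L)) (1 + t * I + α)).re := by
  obtain ⟨C1, hC1, htr⟩ := trunc h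
  rw [Filter.frequently_iff]
  intro V hV
  obtain ⟨δ0, hδ0, hδV⟩ := mem_nhdsGT_iff_exists_Ioo_subset.1 hV
  have hδ0' : 0 < δ0 := hδ0
  have hnp : ∀ p : ℕ, p.Prime → ‖((p : ℕ) : ℂ) ^ (-(1 + t * I) : ℂ)‖ ≤ 1 := by
    intro p hp
    rw [norm_natCast_cpow_of_pos hp.pos]
    apply Real.rpow_le_one_of_one_le_of_nonpos
    · exact_mod_cast hp.one_le
    · simp
  obtain ⟨x, hx16, hx⟩ := hbad (C1 ^ 2 / (2 * ε) +
    ∑ p ∈ (Finset.Icc 1 ⌊max 16 (Real.exp (1 / δ0))⌋₊).filter Nat.Prime, ‖a p‖)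
  have hlx : 1 < Real.log x := by
    have h1 : Real.exp 1 < 16 := by
      have := Real.exp_one_lt_d9
      linarith
    rw [Real.lt_log_iff_exp_lt (by linarith)]
    linarith
  have hLL : 0 < Real.log (Real.log x) := Real.log_pos hlx
  have hA : 0 ≤ C1 ^ 2 / (2 * ε) := by positivity
  have hxX : max 16 (Real.exp (1 / δ0)) < x := by
    by_contra hcon
    push Not at hcon
    have h1 : (∑ p ∈ (Finset.Icc 1 ⌊x⌋₊).filter Nat.Prime,
        a p * χ (p : ZMod L) * (p : ℂ) ^ (-(1 + t * I) : ℂ)).re ≤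
        ∑ p ∈ (Finset.Icc 1 ⌊max 16 (Real.exp (1 / δ0))⌋₊).filter Nat.Prime, ‖a p‖ := by
      calc _ ≤ ‖∑ p ∈ (Finset.Icc 1 ⌊x⌋₊).filter Nat.Prime,
            a p * χ (p : ZMod L) * (p : ℂ) ^ (-(1 + t * I) : ℂ)‖ := Complex.re_le_norm _
        _ ≤ ∑ p ∈ (Finset.Icc 1 ⌊x⌋₊).filter Nat.Prime,
            ‖a p * χ (p : ZMod L) * (p : ℂ) ^ (-(1 + t * I) : ℂ)‖ := norm_sum_le _ _
        _ ≤ ∑ p ∈ (Finset.Icc 1 ⌊x⌋₊).filter Nat.Prime, ‖a p‖ := by
            refine Finset.sum_le_sum fun p hp => ?_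
            have hp' := (Finset.mem_filter.1 hp).2
            rw [norm_mul, norm_mul]
            have g1 := χ.norm_le_one (p : ZMod L)
            have g2 := hnp p hp'
            calc ‖a p‖ * ‖χ (p : ZMod L)‖ * ‖(p : ℂ) ^ (-(1 + t * I) : ℂ)‖
                ≤ ‖a p‖ * 1 * 1 := by gcongr
              _ = ‖a p‖ := by ring
        _ ≤ _ := by
            refine Finset.sum_le_sum_of_subset_of_nonneg ?_ fun p _ _ => norm_nonneg _
            refine Finset.filter_subset_filter _ (Finset.Icc_subset_Icc le_rfl ?_)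
            exact Nat.floor_le_floor hcon
    have h2 : 0 < ε * Real.log (Real.log x) := by positivity
    linarith
  have hα : 0 < 1 / Real.log x := by positivity
  have hα2 : 1 / Real.log x < δ0 := by
    have h1 : Real.exp (1 / δ0) < x := (le_max_right _ _).trans_lt hxX
    have h2 : 1 / δ0 < Real.log x := (Real.lt_log_iff_exp_lt (by linarith)).2 h1
    exact (one_div_lt hδ0' (by linarith)).1 h2
  refine ⟨1 / Real.log x, hδV ⟨hα, hα2⟩, ?_⟩
  have h1 := htr (fun n => a n * χ (n : ZMod L) * (n : ℂ) ^ (((-t : ℝ) : ℂ) * I)) (by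
    intro p hp
    rw [norm_mul, norm_mul]
    have g1 := χ.norm_le_one (p : ZMod L)
    have g2 : ‖(p : ℂ) ^ (((-t : ℝ) : ℂ) * I)‖ = 1 := by
      rw [norm_natCast_cpow_of_pos hp.pos]
      simp
    rw [g2, mul_one]
    exact mul_le_of_le_one_right (norm_nonneg _) g1) x hx16
  have h2 : PS (fun n => a n * χ (n : ZMod L) * (n : ℂ) ^ (((-t : ℝ) : ℂ) * I))
      (1 + ((1 / Real.log x : ℝ) : ℂ)) = PS (fun n => a n * χ (n : ZMod L))
        (1 + t * I + ((1 / Real.log x : ℝ) : ℂ)) := by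
    rw [PS_shift (fun n => a n * χ (n : ZMod L)) (-t) (1 + ((1 / Real.log x : ℝ) : ℂ))]
    congr 1
    push_cast
    ring
  have h3 : ∑ p ∈ (Finset.Icc 1 ⌊x⌋₊).filter Nat.Prime,
      (a p * χ (p : ZMod L) * (p : ℂ) ^ (((-t : ℝ) : ℂ) * I)) * (p : ℂ) ^ (-1 : ℂ) =
      ∑ p ∈ (Finset.Icc 1 ⌊x⌋₊).filter Nat.Prime,
        a p * χ (p : ZMod L) * (p : ℂ) ^ (-(1 + t * I) : ℂ) := by
    refine Finset.sum_congr rfl fun p hp => ?_
    have hp' := (Finset.mem_filter.1 hp).2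
    have hp0 : (p : ℂ) ≠ 0 := Nat.cast_ne_zero.2 hp'.ne_zero
    rw [mul_assoc (a p * χ (p : ZMod L)), ← cpow_add _ _ hp0]
    congr 2
    push_cast
    ring
  rw [h2] at h1
  have h4 := (Complex.abs_re_le_norm _).trans h1
  rw [sub_re] at h4
  have h5 := (abs_le.1 h4).2
  have h6 : (∑ p ∈ (Finset.Icc 1 ⌊x⌋₊).filter Nat.Prime,
      (a p * χ (p : ZMod L) * (p : ℂ) ^ (((-t : ℝ) : ℂ) * I)) * (p : ℂ) ^ (-1 : ℂ)).re =
      (∑ p ∈ (Finset.Icc 1 ⌊x⌋₊).filter Nat.Prime,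
        a p * χ (p : ZMod L) * (p : ℂ) ^ (-(1 + t * I) : ℂ)).re := by rw [h3]
  have h7 : 0 ≤ ∑ p ∈ (Finset.Icc 1 ⌊max 16 (Real.exp (1 / δ0))⌋₊).filter Nat.Prime, ‖a p‖ :=
    Finset.sum_nonneg fun p _ => norm_nonneg _
  have h8 : C1 * Real.sqrt (Real.log (Real.log x)) ≤
      ε / 2 * Real.log (Real.log x) + C1 ^ 2 / (2 * ε) := by
    have e1 : Real.log (Real.log x) = Real.sqrt (Real.log (Real.log x)) ^ 2 :=
      (Real.sq_sqrt hLL.le).symm
    have e2 : ε / 2 * (Real.sqrt (Real.log (Real.log x)) - C1 / ε) ^ 2 =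
        ε / 2 * Real.sqrt (Real.log (Real.log x)) ^ 2 -
          C1 * Real.sqrt (Real.log (Real.log x)) + C1 ^ 2 / (2 * ε) := by
      field_simp
      ring
    have e3 : 0 ≤ ε / 2 * (Real.sqrt (Real.log (Real.log x)) - C1 / ε) ^ 2 := by positivity
    rw [← e1] at e2
    linarith
  rw [one_div_one_div]
  linarith [h5, h6, h7, h8, hx]

end Pool.Agent.H11.PB
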