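import Mathlib
import Pool.Agent.H11.PB.Defs
import Pool.Agent.H11.PC.SUMM
import Pool.Agent.H11.PC.CMG

/-!
# CMP: twists by two completely multiplicative functions which agree outside a finite set of primes

PROOF.  `h.log` gives `K` with `LT b g s = exp (PS (b g) s + R)`, `‖R‖ ≤ K`, for every `CM g`.  So
`‖LT b g s‖ = exp (Re PS (b g) s + Re R)`.  `PS (b g) s - PS (b g') s = ∑_p b(p) (g p - g' p) p^(-s)`
(`pd_prime_summable` of `PC/SUMM.lean` gives the summability; `tsum_sub`); only the primes of `T`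
contribute (`tsum_eq_sum` or bound the norm by `∑_{p ∈ T} 2 ‖b p‖`, `‖p^(-s)‖ ≤ 1`).
Take `C = exp (2 K + 2 ∑_{p ∈ T} ‖b p‖)`.
-/

set_option autoImplicit false

namespace Pool.Agent.H11.PB

open Complex Filter Topology Pool.Agent.H11.PC

theorem cmp_bd {b : ℕ → ℂ} (h : PD b) (T : Finset ℕ) : ∃ C : ℝ, 0 < C ∧ ∀ g g' : ℕ → ℂ,
    CM g → CM g' → (∀ p : ℕ, p.Prime → p ∉ T → g p = g' p) → ∀ s : ℂ, 1 < s.re →
      ‖LT b g s‖ ≤ C * ‖LT b g' s‖ := by
  classical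
  have hT' : ∃ T' : Finset Nat.Primes, ∀ p : Nat.Primes, p ∉ T' → (p : ℕ) ∉ T :=
    ⟨(T.subtype Nat.Prime : Finset {p // Nat.Prime p}), fun p hp hc => hp (Finset.mem_subtype.2 hc)⟩
  obtain ⟨T', hT'⟩ := hT'
  obtain ⟨K, hK0, hK⟩ := h.log
  refine ⟨Real.exp (2 * K + ∑ p ∈ T', 2 * ‖b (p : ℕ)‖),
    Real.exp_pos _, ?_⟩
  intro g g' hg hg' hT s hs
  obtain ⟨R, hR, e⟩ := hK g hg s hs
  obtain ⟨R', hR', e'⟩ := hK g' hg' s hs
  have hd : ‖PS (fun n => b n * g n) s - PS (fun n => b n * g' n) s‖ ≤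
      ∑ p ∈ T', 2 * ‖b (p : ℕ)‖ := by
    unfold PS
    rw [← (pd_prime_summable h g hg.bd s hs).of_norm.tsum_sub
      (pd_prime_summable h g' hg'.bd s hs).of_norm]
    rw [tsum_eq_sum (s := T')]
    · refine (norm_sum_le _ _).trans (Finset.sum_le_sum ?_)
      intro p _
      have e1 : ‖((p : ℕ) : ℂ) ^ (-s)‖ ≤ 1 := by
        rw [norm_natCast_cpow_of_pos p.prop.pos, neg_re]
        exact Real.rpow_le_one_of_one_le_of_nonpos (by exact_mod_cast p.prop.one_le) (by linarith)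
      have e2 : ‖g (p : ℕ) - g' (p : ℕ)‖ ≤ 2 := by
        refine (norm_sub_le _ _).trans ?_
        linarith [hg.bd (p : ℕ), hg'.bd (p : ℕ)]
      have e3 : b (p : ℕ) * g (p : ℕ) * ((p : ℕ) : ℂ) ^ (-s) -
          b (p : ℕ) * g' (p : ℕ) * ((p : ℕ) : ℂ) ^ (-s) =
          b (p : ℕ) * (g (p : ℕ) - g' (p : ℕ)) * ((p : ℕ) : ℂ) ^ (-s) := by ring
      rw [e3, norm_mul, norm_mul]
      calc ‖b (p : ℕ)‖ * ‖g (p : ℕ) - g' (p : ℕ)‖ * ‖((p : ℕ) : ℂ) ^ (-s)‖
          ≤ ‖b (p : ℕ)‖ * 2 * 1 :=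
            mul_le_mul (mul_le_mul_of_nonneg_left e2 (norm_nonneg _)) e1 (norm_nonneg _)
              (by positivity)
        _ = 2 * ‖b (p : ℕ)‖ := by ring
    · intro p hp
      rw [hT (p : ℕ) p.prop (hT' p hp), sub_self]
  rw [e, e', Complex.norm_exp, Complex.norm_exp, ← Real.exp_add]
  refine Real.exp_le_exp.2 ?_
  have h1 : (PS (fun n => b n * g n) s - PS (fun n => b n * g' n) s).re ≤ _ :=
    (Complex.re_le_norm _).trans hd
  have h2 : R.re ≤ K := (Complex.re_le_norm _).trans hR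
  have h3 : -K ≤ R'.re := by
    have := Complex.abs_re_le_norm R'
    have := neg_abs_le R'.re
    linarith
  rw [Complex.sub_re] at h1
  rw [Complex.add_re, Complex.add_re]
  linarith

end Pool.Agent.H11.PB
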