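import Mathlib
import Pool.Agent.H11.PB.Defs
import Pool.Agent.H11.PB.BESL
import Pool.Agent.H11.PC.SB
import Pool.Agent.H11.PC.DIR

/-!
# CNT: the number of pairwise orthogonal large twists is bounded

PROOF.  `L = log (1/α)`, `α ≤ 1/2`.  `sb_sum` (`PC/SB.lean`): `∑ ‖b p‖² p^(-1-α) ≤ C_b L + C_b`.  `bessel_l` with
`x = 1 + α`, `l = κ`: `2 κ ∑_i Re PS (b g_i) - κ² ∑_{i,j} Re PS (g_i conj g_j) ≤ C_b L + C_b`.  The diagonal terms are
`≤ ‖PS (|g_i|²)‖ ≤ ∑_p p^(-1-α) ≤ L + C_1` (`dir_one` of `PC/DIR.lean` with `L = 1`; the values of the character modulo `1`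
are `1`), the other terms are `≤ C_{ij}`.  So along `U` (eventually), with constants `C'` depending on the family,
`2 κ² J L - κ² J L - C' ≤ C_b L + C_b`.  As `L → ∞` along `U` (`U ≤ 𝓝[>] 0`, `U` not trivial), `κ² J ≤ C_b`.
`J0 = ⌈C_b / κ²⌉₊`.
-/

set_option autoImplicit false

namespace Pool.Agent.H11.PB

open Complex Filter Topology Pool.Agent.H11.PC

private theorem cnt_diag {g : ℕ → ℂ} (hg : CM g) {α : ℝ} (hα : 0 < α) :
    (PS (fun n => g n * (starRingEnd ℂ) (g n)) (1 + α)).re ≤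
      (PS (fun n => (1 : DirichletCharacter ℂ 1) (n : ZMod 1)) (1 + α)).re := by
  have hs : 1 < (1 + (α : ℂ)).re := by
    rw [add_re, one_re, ofReal_re]
    linarith
  have s1 : Summable (fun p : Nat.Primes => g (p : ℕ) * (starRingEnd ℂ) (g (p : ℕ)) *
      ((p : ℕ) : ℂ) ^ (-(1 + (α : ℂ)))) :=
    (prime_summable_one _ (hg.times hg.star).bd _ hs).of_norm
  have s2 : Summable (fun p : Nat.Primes => (1 : DirichletCharacter ℂ 1) ((p : ℕ) : ZMod 1) *
      ((p : ℕ) : ℂ) ^ (-(1 + (α : ℂ)))) :=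
    (prime_summable_one _ (cm_char (1 : DirichletCharacter ℂ 1)).bd _ hs).of_norm
  unfold PS
  rw [Complex.re_tsum s1, Complex.re_tsum s2]
  refine Summable.tsum_le_tsum (fun p => ?_) (Complex.hasSum_re s1.hasSum).summable
    (Complex.hasSum_re s2.hasSum).summable
  have h1 : (1 : DirichletCharacter ℂ 1) ((p : ℕ) : ZMod 1) = 1 :=
    MulChar.one_apply (isUnit_of_subsingleton _)
  have h2 : ((p : ℕ) : ℂ) ^ (-(1 + (α : ℂ))) = (((((p : ℕ) : ℝ) ^ (-(1 + α)) : ℝ)) : ℂ) := by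
    rw [Complex.ofReal_cpow (Nat.cast_nonneg _)]
    push_cast
    rfl
  rw [h1, h2, one_mul, Complex.mul_conj, ← ofReal_mul, ofReal_re, ofReal_re]
  have h3 : Complex.normSq (g (p : ℕ)) ≤ 1 := by
    rw [Complex.normSq_eq_norm_sq]
    exact pow_le_one₀ (norm_nonneg _) (hg.bd _)
  have h4 : 0 ≤ ((p : ℕ) : ℝ) ^ (-(1 + α)) := Real.rpow_nonneg (Nat.cast_nonneg _) _
  calc Complex.normSq (g (p : ℕ)) * ((p : ℕ) : ℝ) ^ (-(1 + α))
      ≤ 1 * ((p : ℕ) : ℝ) ^ (-(1 + α)) := mul_le_mul_of_nonneg_right h3 h4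
    _ = _ := one_mul _

theorem cnt {b : ℕ → ℂ} (h : PD b) (κ : ℝ) (hκ : 0 < κ) (U : Filter ℝ) [U.NeBot]
    (hU : U ≤ 𝓝[>] 0) : ∃ J0 : ℕ, ∀ (J : ℕ) (g : Fin J → ℕ → ℂ), (∀ i, CM (g i)) →
      (∀ i j, i ≠ j → ∃ C : ℝ, ∀ α : ℝ, 0 < α → α ≤ 1 →
        ‖PS (fun n => g i n * (starRingEnd ℂ) (g j n)) (1 + α)‖ ≤ C) →
      (∀ i, ∃ C : ℝ, ∀ᶠ α in U,
        κ * Real.log (1 / α) - C ≤ (PS (fun n => b n * g i n) (1 + α)).re) → J ≤ J0 := by
  classical
  obtain ⟨Cb, hCb, hsb⟩ := sb_sum h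
  obtain ⟨C1, hC1⟩ := dir_one (L := 1)
  refine ⟨⌈Cb / κ ^ 2⌉₊, ?_⟩
  intro J g hg horth hlarge
  by_contra hJ
  push Not at hJ
  have hκ2 : 0 < κ ^ 2 := by positivity
  have hJ2 : Cb < κ ^ 2 * J := by
    have h1 : Cb / κ ^ 2 < J := (Nat.le_ceil _).trans_lt (Nat.cast_lt.2 hJ)
    rw [div_lt_iff₀ hκ2] at h1
    linarith
  -- off diagonal and diagonal terms
  have hD : ∀ i j, ∃ C : ℝ, ∀ α : ℝ, 0 < α → α ≤ 1 →
      (PS (fun n => g i n * (starRingEnd ℂ) (g j n)) (1 + α)).re ≤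
        (if i = j then Real.log (1 / α) else 0) + C := by
    intro i j
    by_cases hij : i = j
    · subst hij
      refine ⟨C1, fun α h1 h2 => ?_⟩
      rw [if_pos rfl]
      refine (cnt_diag (hg i) h1).trans ?_
      have h3 := hC1 α h1 h2
      have h4 := (Complex.abs_re_le_norm _).trans h3
      rw [add_re, ofReal_re] at h4
      have h5 := (abs_le.1 h4).2
      rw [one_div, Real.log_inv]
      linarith
    · obtain ⟨C, hC⟩ := horth i j hij
      refine ⟨C, fun α h1 h2 => ?_⟩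
      rw [if_neg hij, zero_add]
      exact (Complex.re_le_norm _).trans (hC α h1 h2)
  choose D hD using hD
  choose E hE using hlarge
  have hev : ∀ᶠ α in U, 0 < α ∧ α ≤ 1 / 2 := by
    have h1 : ∀ᶠ α in 𝓝[>] (0 : ℝ), 0 < α ∧ α ≤ 1 / 2 := by
      have h2 : Set.Ioo (0 : ℝ) (1 / 2) ∈ 𝓝[>] (0 : ℝ) := Ioo_mem_nhdsGT (by norm_num)
      filter_upwards [h2] with α hα
      exact ⟨hα.1, hα.2.le⟩
    exact h1.filter_mono hU
  have hlog : Tendsto (fun α : ℝ => Real.log (1 / α)) U atTop := by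
    have h1 : Tendsto (fun α : ℝ => Real.log (1 / α)) (𝓝[>] 0) atTop := by
      have h2 := tendsto_neg_atBot_atTop.comp Real.tendsto_log_nhdsGT_zero
      refine h2.congr fun α => ?_
      show -Real.log α = Real.log (1 / α)
      rw [one_div, Real.log_inv]
    exact h1.mono_left hU
  have hmain : ∀ᶠ α in U, (κ ^ 2 * J - Cb) * Real.log (1 / α) ≤
      Cb + 2 * κ * ∑ i, E i + κ ^ 2 * ∑ i, ∑ j, D i j := by
    filter_upwards [hev, eventually_all.2 hE] with α hα hEα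
    obtain ⟨h1, h2⟩ := hα
    have hb := bessel_l h g hg (1 + α) (by linarith) κ
    have hb2 := hsb α h1 h2
    have e1 : ((1 + α : ℝ) : ℂ) = 1 + (α : ℂ) := by push_cast; ring
    rw [e1] at hb
    have h3 : ∑ i, (κ * Real.log (1 / α) - E i) ≤ ∑ i, (PS (fun n => b n * g i n) (1 + α)).re :=
      Finset.sum_le_sum fun i _ => hEα i
    have h4 : ∑ i, ∑ j, (PS (fun n => g i n * (starRingEnd ℂ) (g j n)) (1 + α)).re ≤
        ∑ i, ∑ j, ((if i = j then Real.log (1 / α) else 0) + D i j) :=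
      Finset.sum_le_sum fun i _ => Finset.sum_le_sum fun j _ => hD i j α h1 (by linarith)
    have h5 : ∑ i, ∑ j, ((if i = j then Real.log (1 / α) else 0) + D i j) =
        J * Real.log (1 / α) + ∑ i, ∑ j, D i j := by
      simp_rw [Finset.sum_add_distrib]
      congr 1
      simp
    have h6 : ∑ i, (κ * Real.log (1 / α) - E i) = J * (κ * Real.log (1 / α)) - ∑ i, E i := by
      rw [Finset.sum_sub_distrib, Finset.sum_const, Finset.card_univ, Fintype.card_fin,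
        nsmul_eq_mul]
    rw [h6] at h3
    rw [h5] at h4
    have h7 : 2 * κ * (J * (κ * Real.log (1 / α)) - ∑ i, E i) ≤
        2 * κ * ∑ i, (PS (fun n => b n * g i n) (1 + α)).re :=
      mul_le_mul_of_nonneg_left h3 (by positivity)
    have h8 : κ ^ 2 * ∑ i, ∑ j, (PS (fun n => g i n * (starRingEnd ℂ) (g j n)) (1 + α)).re ≤
        κ ^ 2 * (J * Real.log (1 / α) + ∑ i, ∑ j, D i j) :=
      mul_le_mul_of_nonneg_left h4 hκ2.le
    nlinarith [h7, h8, hb, hb2]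
  have hpos : 0 < κ ^ 2 * J - Cb := by linarith
  have hbig := (hlog.const_mul_atTop hpos).eventually_gt_atTop
    (Cb + 2 * κ * ∑ i, E i + κ ^ 2 * ∑ i, ∑ j, D i j)
  obtain ⟨α, h1, h2⟩ := (hmain.and hbig).exists
  linarith

end Pool.Agent.H11.PB
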