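import Mathlib
import Pool.Agent.H11.PB.Defs
import Pool.Agent.H11.PC.SUMM
import Pool.Agent.H11.PC.CMG

/-!
# NSL: a twist which is not small is large

PROOF.  `U` is an ultrafilter, so if `f(α) = α^κ LT b g (1 - θI + α)` does not tend to `0` there is `ε > 0` with
`∀ᶠ α in U, ε ≤ ‖f α‖` (`Metric.tendsto_nhds`, `Ultrafilter.eventually_not`).  By `h.log`
`‖LT b g s‖ ≤ exp (Re PS (b g) s + K)`; take logarithms: `log ε ≤ κ log α + Re PS + K`.  `0 < α` eventually by `hU`.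
-/

set_option autoImplicit false

namespace Pool.Agent.H11.PB

open Complex Filter Topology Pool.Agent.H11.PC

theorem nsl {b : ℕ → ℂ} (h : PD b) (κ θ : ℝ) (U : Ultrafilter ℝ) (hU : (U : Filter ℝ) ≤ 𝓝[>] 0)
    (g : ℕ → ℂ) (hg : CM g) (hs : ¬ Sml b κ θ U g) :
    ∃ C : ℝ, ∀ᶠ α in (U : Filter ℝ),
      κ * Real.log (1 / α) - C ≤ (PS (fun n => b n * g n) (1 - θ * I + α)).re := by
  obtain ⟨K, hK, hlog⟩ := h.log
  have h1 : ∃ ε > 0, ∀ᶠ α in (U : Filter ℝ),
      ¬ ‖((α ^ κ : ℝ) : ℂ) * LT b g (1 - θ * I + α)‖ < ε := by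
    by_contra hc
    push Not at hc
    apply hs
    unfold Sml
    rw [Metric.tendsto_nhds]
    intro ε hε
    refine (hc ε hε).mono fun α hα => ?_
    rw [dist_zero_right]
    exact hα
  obtain ⟨ε, hε, h2⟩ := h1
  have hpos : ∀ᶠ α in (U : Filter ℝ), (0 : ℝ) < α := hU self_mem_nhdsWithin
  refine ⟨K - Real.log ε, ?_⟩
  filter_upwards [h2, hpos] with α hα hα0
  have hre : 1 < (1 - (θ : ℂ) * I + (α : ℂ)).re := by
    simp
    exact hα0
  obtain ⟨R, hR, hL⟩ := hlog g hg _ hre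
  rw [not_lt, norm_mul, Complex.norm_real, Real.norm_of_nonneg (Real.rpow_nonneg hα0.le κ), hL,
    Complex.norm_exp, Complex.add_re] at hα
  have h3 := Real.log_le_log hε hα
  rw [Real.log_mul (Real.rpow_pos_of_pos hα0 κ).ne' (Real.exp_ne_zero _), Real.log_rpow hα0,
    Real.log_exp] at h3
  have h4 : R.re ≤ K := (Complex.re_le_norm R).trans hR
  rw [one_div, Real.log_inv]
  linarith

end Pool.Agent.H11.PB
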