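import Mathlib
import Pool.Agent.H11.PB.Defs
import Pool.Agent.H11.PC.SUMM
import Pool.Agent.H11.PC.CMG

/-!
# OMX: the weight from a finite set of characters

PROOF.  `N(α) = ∑_{x ∈ X} (‖LT b x (1 - θI + α)‖ + ‖LT b x (1 + θI + α)‖)`, `om = 1/N`.  The term of `x0` at `σ0` gives
`N(α) ≥ c0 α^(-κ) > 0`, so `0 < om α ≤ α^κ/c0`.  Each `om ‖LT b x (1 - σI + α)‖ ≤ 1`.  If all of them (finitely many) tended to
`0` along `U` so would their sum, which is `om N = 1` (eventually): contradiction (`U` is not trivial).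
-/

set_option autoImplicit false

namespace Pool.Agent.H11.PB

open Complex Filter Topology Pool.Agent.H11.PC

theorem om_ex {b : ℕ → ℂ} (κ : ℝ) (θ : ℝ) (U : Ultrafilter ℝ)
    (hU : (U : Filter ℝ) ≤ 𝓝[>] 0) (X : Finset (Σ f : ℕ, DirichletCharacter ℂ f))
    (x0 : Σ f : ℕ, DirichletCharacter ℂ f) (hx0 : x0 ∈ X) (σ0 : ℝ) (hσ0 : σ0 = θ ∨ σ0 = -θ)
    (c0 : ℝ) (hc0 : 0 < c0) (hbig : ∀ᶠ (α : ℝ) in (U : Filter ℝ),
      c0 * α ^ (-κ) ≤ ‖LT b (fun n => x0.2 (n : ZMod x0.1)) (1 - σ0 * I + α)‖) :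
    ∃ om : ℝ → ℝ, (∀ᶠ (α : ℝ) in (U : Filter ℝ), 0 < om α ∧ om α ≤ α ^ κ / c0) ∧
      (∀ x ∈ X, ∀ σ : ℝ, (σ = θ ∨ σ = -θ) → ∀ᶠ α in (U : Filter ℝ),
        ‖(om α : ℂ) * LT b (fun n => x.2 (n : ZMod x.1)) (1 - σ * I + α)‖ ≤ 1) ∧
      ∃ x ∈ X, ∃ σ : ℝ, (σ = θ ∨ σ = -θ) ∧ ¬ Tendsto (fun α : ℝ =>
        (om α : ℂ) * LT b (fun n => x.2 (n : ZMod x.1)) (1 - σ * I + α)) U (𝓝 0) := by
  classical
  set T : (Σ f : ℕ, DirichletCharacter ℂ f) → ℝ → ℝ → ℝ :=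
    fun x σ α => ‖LT b (fun n => x.2 (n : ZMod x.1)) (1 - σ * I + α)‖ with hT
  set N : ℝ → ℝ := fun α => ∑ x ∈ X, (T x θ α + T x (-θ) α) with hN
  have hT0 : ∀ x σ α, 0 ≤ T x σ α := fun x σ α => norm_nonneg _
  have hle : ∀ x ∈ X, ∀ σ : ℝ, (σ = θ ∨ σ = -θ) → ∀ α, T x σ α ≤ N α := by
    intro x hx σ hσ α
    have h1 : T x θ α + T x (-θ) α ≤ N α :=
      Finset.single_le_sum (f := fun x => T x θ α + T x (-θ) α)
        (fun y _ => add_nonneg (hT0 _ _ _) (hT0 _ _ _)) hx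
    rcases hσ with rfl | rfl
    · linarith [hT0 x (-σ) α]
    · linarith [hT0 x θ α]
  have hpos : ∀ᶠ α in (U : Filter ℝ), 0 < α := by
    have h1 : ∀ᶠ α in 𝓝[>] (0 : ℝ), 0 < α := eventually_mem_nhdsWithin
    exact h1.filter_mono hU
  have hNb : ∀ᶠ α in (U : Filter ℝ), 0 < α ∧ 0 < N α ∧ c0 * α ^ (-κ) ≤ N α := by
    filter_upwards [hpos, hbig] with α h1 h2
    have h3 : T x0 σ0 α ≤ N α := hle x0 hx0 σ0 hσ0 α
    have h4 : 0 < c0 * α ^ (-κ) := mul_pos hc0 (Real.rpow_pos_of_pos h1 _)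
    have h5 : c0 * α ^ (-κ) ≤ T x0 σ0 α := h2
    exact ⟨h1, by linarith, by linarith⟩
  refine ⟨fun α => 1 / N α, ?_, ?_, ?_⟩
  · filter_upwards [hNb] with α hα
    obtain ⟨h1, h2, h3⟩ := hα
    refine ⟨by positivity, ?_⟩
    have h4 : 0 < α ^ κ := Real.rpow_pos_of_pos h1 _
    rw [div_le_div_iff₀ h2 hc0, one_mul]
    have h5 : α ^ κ * α ^ (-κ) = 1 := by
      rw [← Real.rpow_add h1]
      simp
    calc c0 = α ^ κ * (c0 * α ^ (-κ)) := by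
          calc c0 = c0 * (α ^ κ * α ^ (-κ)) := by rw [h5, mul_one]
            _ = _ := by ring
      _ ≤ α ^ κ * N α := mul_le_mul_of_nonneg_left h3 h4.le
  · intro x hx σ hσ
    filter_upwards [hNb] with α hα
    obtain ⟨h1, h2, h3⟩ := hα
    have h4 : T x σ α ≤ N α := hle x hx σ hσ α
    rw [norm_mul, norm_real, Real.norm_of_nonneg (by positivity), one_div, inv_mul_eq_div,
      div_le_one h2]
    exact h4
  · by_contra hcon
    push Not at hcon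
    have h1 : Tendsto (fun α : ℝ => ∑ x ∈ X,
        (‖(((1 / N α : ℝ)) : ℂ) * LT b (fun n => x.2 (n : ZMod x.1)) (1 - (θ : ℝ) * I + α)‖ +
        ‖(((1 / N α : ℝ)) : ℂ) * LT b (fun n => x.2 (n : ZMod x.1)) (1 - ((-θ : ℝ) : ℂ) * I + α)‖))
        U (𝓝 (∑ x ∈ X, (‖(0 : ℂ)‖ + ‖(0 : ℂ)‖))) := by
      refine tendsto_finsetSum _ fun x hx => ?_
      exact (hcon x hx θ (Or.inl rfl)).norm.add (hcon x hx (-θ) (Or.inr rfl)).norm
    have h2 : Tendsto (fun _ : ℝ => (1 : ℝ)) U (𝓝 (∑ x ∈ X, (‖(0 : ℂ)‖ + ‖(0 : ℂ)‖))) := by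
      refine h1.congr' ?_
      filter_upwards [hNb] with α hα
      obtain ⟨g1, g2, g3⟩ := hα
      have e : ∀ x ∈ X,
          (‖(((1 / N α : ℝ)) : ℂ) * LT b (fun n => x.2 (n : ZMod x.1)) (1 - (θ : ℝ) * I + α)‖ +
          ‖(((1 / N α : ℝ)) : ℂ) * LT b (fun n => x.2 (n : ZMod x.1))
            (1 - ((-θ : ℝ) : ℂ) * I + α)‖) = (T x θ α + T x (-θ) α) / N α := by
        intro x _
        rw [norm_mul, norm_mul, norm_real, Real.norm_of_nonneg (by positivity)]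
        show 1 / N α * T x θ α + 1 / N α * T x (-θ) α = _
        ring
      rw [Finset.sum_congr rfl e, ← Finset.sum_div]
      exact div_self g2.ne'
    have h3 := tendsto_nhds_unique h2 tendsto_const_nhds
    simp at h3

end Pool.Agent.H11.PB
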