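import Mathlib
import Pool.Agent.H11.PB.Defs
import Pool.Agent.H11.PB.HYP
import Pool.Agent.H11.PB.OMG
import Pool.Agent.H11.PC.PDOF

/-!
# CH0: chapter 0: result

PROOF.  `hyp_freq` with `pd_of a F hS hO 0` (`PC/PDOF.lean`; the coefficients `a n n^(-(0 I)) = a n` for `n ≥ 1`; if the value at
`n = 0` is a nuisance use `PD` of `fun n => a n * n^(-(0 I))` throughout: only values at primes matter in `hbad`).
Ultrafilter: `Filter.Frequently` says `𝓝[>] 0 ⊓ 𝓟 {α | P α}` is `NeBot` (`Filter.frequently_mem_iff_neBot`); `U = Ultrafilter.of` it.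
Then `∀ᶠ α in U, P α` and `U ≤ 𝓝[>] 0`.  With `b n = a n n^(-iδ)`, `θ = δ - t`: `PS (b χ) (1 - θI + α) = PS (a χ) (1 + tI + α)`
(termwise, `p^(-iδ) p^(-(1-θI+α)) = p^(-(1+tI+α))`), and `(pd_of ..δ).log` gives
`‖LT b χ (1 - θI + α)‖ ≥ exp (-K) α^(-ε/2)`.  Now `bd_of` with `κ = ε/2`.
-/

set_option autoImplicit false

namespace Pool.Agent.H11.PB

open Complex Filter Topology Pool.Agent.H11.PC Pool.Agent.H11.Selberg

theorem chapter_zero (a : ℕ → ℂ) (F : ℂ → ℂ) (hS : IsSelberg a F)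
    (hO : ∃ C : ℝ, ∀ x : ℝ, 16 ≤ x → S a x ≤ C * Real.log (Real.log x)) (δ : ℝ)
    {L : ℕ} [NeZero L] (χ : DirichletCharacter ℂ L) (t ε : ℝ) (hε : 0 < ε)
    (hbad : ∀ C : ℝ, ∃ x : ℝ, 16 ≤ x ∧ ε * Real.log (Real.log x) + C <
      (∑ p ∈ (Finset.Icc 1 ⌊x⌋₊).filter Nat.Prime,
        a p * χ (p : ZMod L) * (p : ℂ) ^ (-(1 + t * I) : ℂ)).re) :
    ∃ (θ : ℝ) (U : Ultrafilter ℝ) (om : ℝ → ℝ) (M0 : ℕ),
      BD (fun n => a n * (n : ℂ) ^ (-(δ * I) : ℂ)) θ U om M0 := by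
  have ha : PD a := by
    have h0 := pd_of a F hS hO 0
    have e : (fun n : ℕ => a n * (n : ℂ) ^ (-(((0 : ℝ) : ℂ) * I) : ℂ)) = a := by
      funext n
      rw [Complex.ofReal_zero, zero_mul, neg_zero, Complex.cpow_zero, mul_one]
    rwa [e] at h0
  have hb := pd_of a F hS hO δ
  have hfr := hyp_freq ha χ t ε hε hbad
  rw [Filter.frequently_iff_neBot] at hfr
  set P : Set ℝ := {α : ℝ | ε / 2 * Real.log (1 / α) ≤
    (PS (fun n => a n * χ (n : ZMod L)) (1 + t * I + α)).re} with hP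
  have hfr' : (𝓝[>] (0 : ℝ) ⊓ 𝓟 P).NeBot := hfr
  set U : Ultrafilter ℝ := @Ultrafilter.of ℝ (𝓝[>] (0 : ℝ) ⊓ 𝓟 P) hfr' with hU
  have hUle : (U : Filter ℝ) ≤ 𝓝[>] (0 : ℝ) ⊓ 𝓟 P := @Ultrafilter.of_le ℝ _ hfr'
  have hU0 : (U : Filter ℝ) ≤ 𝓝[>] 0 := hUle.trans inf_le_left
  have hUP : ∀ᶠ α in (U : Filter ℝ), α ∈ P := (hUle.trans inf_le_right) (mem_principal_self P)
  obtain ⟨K, hK, hlog⟩ := hb.log
  have hpos : ∀ᶠ α in (U : Filter ℝ), (0 : ℝ) < α := hU0 self_mem_nhdsWithin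
  obtain ⟨θ', om, M0, hBD⟩ := bd_of hb (ε / 2) (by positivity) (δ - t) U hU0 χ (Real.exp (-K))
    (Real.exp_pos _) (by
      filter_upwards [hUP, hpos] with α hα hα0
      have hre : 1 < (1 - ((δ - t : ℝ) : ℂ) * I + α : ℂ).re := by
        simp
        exact hα0
      obtain ⟨R, hR, hRe⟩ := hlog _ (cm_char χ) _ hre
      have hps : PS (fun n : ℕ => a n * (n : ℂ) ^ (-(δ * I) : ℂ) * χ (n : ZMod L))
          (1 - ((δ - t : ℝ) : ℂ) * I + α) = PS (fun n => a n * χ (n : ZMod L)) (1 + t * I + α) := by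
        have e1 := PS_shift (fun n : ℕ => a n * χ (n : ZMod L)) (-δ)
          (1 - ((δ - t : ℝ) : ℂ) * I + α)
        have e2 : (fun n : ℕ => a n * χ (n : ZMod L) * (n : ℂ) ^ (((-δ : ℝ) : ℂ) * I)) =
            fun n : ℕ => a n * (n : ℂ) ^ (-(δ * I) : ℂ) * χ (n : ZMod L) := by
          funext n
          have e3 : (((-δ : ℝ) : ℂ) * I) = -(δ * I) := by push_cast; ring
          rw [e3]
          ring
        have e4 : (1 - ((δ - t : ℝ) : ℂ) * I + α : ℂ) - ((-δ : ℝ) : ℂ) * I = 1 + t * I + α := by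
          push_cast
          ring
        rw [e2, e4] at e1
        exact e1
      rw [hRe, hps, Complex.norm_exp, Complex.add_re]
      have h1 : -K ≤ R.re := by
        have := (abs_le.mp ((Complex.abs_re_le_norm R).trans hR)).1
        linarith
      have h2 : ε / 2 * Real.log (1 / α) ≤
        (PS (fun n => a n * χ (n : ZMod L)) (1 + t * I + α)).re := hα
      have h3 : α ^ (-(ε / 2)) = Real.exp (ε / 2 * Real.log (1 / α)) := by
        rw [Real.rpow_def_of_pos hα0, one_div, Real.log_inv]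
        congr 1
        ring
      rw [h3, ← Real.exp_add]
      exact Real.exp_le_exp.mpr (by linarith))
  exact ⟨θ', U, om, M0, hBD⟩

end Pool.Agent.H11.PB
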