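import Mathlib
import Pool.Agent.H11.PB.Defs
import Pool.Agent.H78.PB.VAL
import Pool.Agent.H78.PB.CAS
import Pool.Agent.H78.PB.EXA
import Pool.Agent.H78.PB.EXB

/-!
# EU2: the Euler factors at almost all primes (chapters 3, 4, 5; helper78)

From the data `QD` at the cusps `u0/(N m)` one obtains `b(r^k)` for all but finitely many primes `r`
and all `k`.  Here `θ` is the ordinate of `QD`.
-/

set_option autoImplicit false

namespace Pool.Agent.H11.PB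

open Complex Filter Topology Pool.Agent.H11.PC

theorem euler_two {b : ℕ → ℂ} {θ : ℝ} {U : Ultrafilter ℝ} {om : ℝ → ℝ} {M0 N u0 c : ℕ} {w : ℂ}
    {D : ZMod c → ℂ} (Q : QD b θ U om M0 N u0 c w D) :
    ∃ (L : ℕ) (_ : NeZero L) (χ1 χ2 : DirichletCharacter ℂ L) (B : Set ℕ), B.Finite ∧
      ∀ r : ℕ, r.Prime → r ∉ B → ¬ r ∣ L ∧ ∀ k : ℕ, b (r ^ k) = ∑ i ∈ Finset.range (k + 1),
        (χ1 (r : ZMod L) * (r : ℂ) ^ (-(θ * I) : ℂ)) ^ i *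
          (χ2 (r : ZMod L) * (r : ℂ) ^ (θ * I : ℂ)) ^ (k - i) := by
  have : NeZero N := ⟨by have := Q.Npos; omega⟩
  obtain ⟨cf, V⟩ := Pool.Agent.H78.PB.qd_vd Q
  have hNc : NeZero (N * c) := ⟨fun h => V.P0 (Nat.eq_zero_of_zero_dvd (h ▸ V.dvd))⟩
  have hfin : {r : ℕ | r ∣ M0 * (N * (u0 * c))}.Finite := by
    refine (Finset.finite_toSet (Nat.divisors (M0 * (N * (u0 * c))))).subset fun r hr => ?_
    rw [Finset.mem_coe, Nat.mem_divisors]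
    exact ⟨hr, V.P0⟩
  rcases Pool.Agent.H78.PB.cases V with ⟨⟨χ1, h1, h0⟩, hD⟩ | ⟨hθ, χ1, χ2, c1, c2, hχ, h1, h2, h12, e1, e2, h0, hD⟩
  · obtain ⟨ψ1, ψ2, hψ⟩ := Pool.Agent.H78.PB.exact_A V χ1 h1 h0 hD
    refine ⟨N * c, hNc, ψ1, ψ2, _, hfin, fun r hr hrB => ⟨fun h => hrB (h.trans V.dvd), ?_⟩⟩
    exact hψ r hr hrB
  · subst hθ
    have h := Pool.Agent.H78.PB.exact_B V χ1 χ2 c1 c2 hχ h1 h2 h12 e1 e2 h0 hD
    refine ⟨N * c, hNc, Pool.Agent.H78.PB.clv c χ1, Pool.Agent.H78.PB.clv c χ2, _, hfin,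
      fun r hr hrB => ⟨fun h => hrB (h.trans V.dvd), fun k => ?_⟩⟩
    rw [h r hr hrB k]
    refine Finset.sum_congr rfl fun i _ => ?_
    rw [ofReal_zero, zero_mul, neg_zero, cpow_zero, mul_one, mul_one]

end Pool.Agent.H11.PB
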