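import Mathlib
import Pool.Agent.H11.PB.Defs
import Pool.Agent.H11.PC.TWN
import Pool.Agent.H11.PC.KAPB

/-!
# RHO: limits at all rational cusps

PROOF.  `Es_add`: `Es b (β + k) s = Es b β s` for `k : ℕ` (termwise, `exp (2πi · integer) = 1`).
`rho_ex`: `x/N = x'/N'` in lowest terms (`g = gcd x N`).  `base_id` (`PC/TWN.lean`): `Es b (x'/N') s = ∑_χ gam b N' χ s * χ x'`,
`gam b N' χ s = kap b N' 1 χ s * LT b χ s`, `‖kap‖ ≤ C` (`kap_bound` of `PC/KAPB.lean`, `1 ≤ Re s`), `‖om LT b χ‖ ≤ C` along `U` (`B.bdd`),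
so `om Es` is bounded along `U`, and `U` is an ultrafilter: a bounded function has a limit (`vec_lim` of `PC/VEC.lean`:
`isCompact_closedBall.ultrafilter_le_nhds` for `U.map f`).
-/

set_option autoImplicit false

namespace Pool.Agent.H11.PB

open Complex Filter Topology Pool.Agent.H11.PC

theorem Es_add (b : ℕ → ℂ) (β : ℝ) (k : ℕ) (s : ℂ) : Es b (β + k) s = Es b β s := by
  unfold Es
  apply LSeries_congr
  intro n hn
  congr 1
  rw [Complex.exp_eq_exp_iff_exists_int]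
  refine ⟨-((n : ℤ) * (k : ℤ)), ?_⟩
  push_cast
  ring

theorem ult_lim (U : Ultrafilter ℝ) (f : ℝ → ℂ) (C : ℝ)
    (hf : ∀ᶠ (α : ℝ) in (U : Filter ℝ), ‖f α‖ ≤ C) : ∃ x : ℂ, Tendsto f U (𝓝 x) := by
  have h1 : (U.map f : Filter ℂ) ≤ 𝓟 (Metric.closedBall (0 : ℂ) C) := by
    rw [Filter.le_principal_iff, Ultrafilter.mem_coe, Ultrafilter.mem_map]
    filter_upwards [hf] with α hα
    simpa using hα
  obtain ⟨x, -, hx⟩ := (isCompact_closedBall (0 : ℂ) C).ultrafilter_le_nhds (U.map f) h1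
  exact ⟨x, hx⟩

theorem rho_ex {b : ℕ → ℂ} {θ : ℝ} {U : Ultrafilter ℝ} {om : ℝ → ℝ} {M0 : ℕ}
    (B : BD b θ U om M0) (σ : ℝ) (hσ : σ = θ ∨ σ = -θ) (x N : ℕ) (hN : 1 ≤ N) :
    ∃ ρ : ℂ, Tendsto (fun α : ℝ => (om α : ℂ) * Es b ((x : ℝ) / (N : ℝ)) (1 - σ * I + α)) U
      (𝓝 ρ) := by
  obtain ⟨g, x', N', hg, hcop, hx, hN'⟩ : ∃ g x' N' : ℕ, 0 < g ∧ Nat.Coprime x' N' ∧ x = x' * g ∧
      N = N' * g := by
    have hg : 0 < Nat.gcd x N := Nat.gcd_pos_of_pos_right x hN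
    obtain ⟨x', N', h1, h2, h3⟩ := Nat.exists_coprime x N
    exact ⟨Nat.gcd x N, x', N', hg, h1, h2, h3⟩
  have hN0 : 1 ≤ N' := by
    rcases Nat.eq_zero_or_pos N' with h0 | h0
    · rw [h0, zero_mul] at hN'
      omega
    · exact h0
  haveI : NeZero N' := ⟨by omega⟩
  have hgR : (g : ℝ) ≠ 0 := by exact_mod_cast hg.ne'
  have hNR : (N' : ℝ) ≠ 0 := by
    have : N' ≠ 0 := by omega
    exact_mod_cast this
  have e1 : (x : ℝ) / (N : ℝ) = (x' : ℝ) / (N' : ℝ) := by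
    rw [hx, hN']
    push_cast
    field_simp
  rw [e1]
  obtain ⟨C, hC0, hC⟩ := kap_bound B.pd N'
  have hb := fun χ : DirichletCharacter ℂ N' => B.bdd σ hσ N' χ
  choose Cc hCc using hb
  refine ult_lim U _ (∑ χ : DirichletCharacter ℂ N', C * Cc χ) ?_
  have h1 : ∀ᶠ (α : ℝ) in (U : Filter ℝ), ∀ χ : DirichletCharacter ℂ N',
      ‖(om α : ℂ) * LT b (fun n => χ (n : ZMod N')) (1 - σ * I + α)‖ ≤ Cc χ :=
    Filter.eventually_all.2 hCc
  have h2 : ∀ᶠ (α : ℝ) in (U : Filter ℝ), (0 : ℝ) < α := B.le self_mem_nhdsWithin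
  filter_upwards [h1, h2] with α e2 e3
  have hre : (1 - σ * I + α : ℂ).re = 1 + α := by simp
  rw [base_id B.pd N' x' hcop _ (by rw [hre]; linarith), Finset.mul_sum]
  refine (norm_sum_le _ _).trans (Finset.sum_le_sum fun χ _ => ?_)
  unfold gam
  have h4 : ‖χ (x' : ZMod N')‖ ≤ 1 := χ.norm_le_one _
  have h5 := hC χ (fun _ => 1) (fun n => by simp) (1 - σ * I + α) (by rw [hre]; linarith)
  have h6 := e2 χ
  have h7 : 0 ≤ Cc χ := (norm_nonneg _).trans h6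
  calc ‖(om α : ℂ) * (kap b N' (fun _ => 1) χ (1 - σ * I + α) *
        LT b (fun n => χ (n : ZMod N')) (1 - σ * I + α) * χ (x' : ZMod N'))‖
      = ‖kap b N' (fun _ => 1) χ (1 - σ * I + α)‖ *
        ‖(om α : ℂ) * LT b (fun n => χ (n : ZMod N')) (1 - σ * I + α)‖ * ‖χ (x' : ZMod N')‖ := by
        rw [← norm_mul, ← norm_mul]
        congr 1
        ring
    _ ≤ C * Cc χ * 1 := by
        apply mul_le_mul _ h4 (norm_nonneg _) (by positivity)
        exact mul_le_mul h5 h6 (norm_nonneg _) hC0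
    _ = C * Cc χ := mul_one _

end Pool.Agent.H11.PB
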