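import Mathlib
import Pool.Agent.H11.PB.Defs
import Pool.Agent.H11.PB.WLIM
import Pool.Agent.H11.PB.RHO
import Pool.Agent.H11.PB.NZ

/-!
# QDOF: chapter 2: the structure QD

PROOF.  `ρ'(x/N)` = the limit of `om Es b (x/N) (1 + θI + α)` (`rho_ex` with `σ = -θ`).  `nz`: `ρ'(a/c) ≠ 0`, `a` prime to `c`; replace `a` by
`a1 = a + j c ≥ 1` with `c ≤ q a1` (`Es_add`).  For `n ≥ 1` prime to `c` with `c ≤ q n`: `w_lim` with `β = c/(q n) ≤ 1`, `1/(qβ) = n/c`, `τ = θ`: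
`om Es b (c/(q n)) (1 - θI + α) → I ωm √q (c/(q n)) (c²/(q n²))^(-θI) conj ρ'(n/c) = K n^(-1+2θI) conj ρ'(n/c)`,
`K = I ωm √q (c/q) (c²/q)^(-θI) ≠ 0` (`‖ωm‖ = 1`; `wb_pow` in `PC/WB.lean` is similar).
`q` rational and positive: `c/(q a1) = u0/N` in lowest terms (`Rat.num`, `Rat.den`, as in `PC/CDR.lean`).  For `m ≥ 1` prime to `c`:
`u0/(N m) = c/(q (a1 m))`, `n = a1 m` is prime to `c` and `c ≤ q n`.  `w = K a1^(-1+2θI) conj ρ'(a1/c) ≠ 0`,
`D x = conj ρ'(a1 x.val / c) / conj ρ'(a1/c)`.  `D 1 = 1`: `(1 : ZMod c).val ≡ 1 mod c`.  `ρ'(a1 m/c) = ρ'(a1 (m mod c)/c)` by `Es_add`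
(`(m : ZMod c).val = m % c`).  The other fields of `QD` are fields of `B` with `σ = θ`.
-/

set_option autoImplicit false

namespace Pool.Agent.H11.PB

open Complex Filter Topology Pool.Agent.H11.SC Pool.Agent.H11.PC

private theorem qdof_pow {q θ : ℝ} (hq : 0 < q) {c n : ℕ} (hc : 1 ≤ c) (hn : 1 ≤ n) :
    ((q * ((c : ℝ) / (q * n)) ^ 2 : ℝ) : ℂ) ^ (-(θ * I) : ℂ) =
      (((c : ℝ) ^ 2 / q : ℝ) : ℂ) ^ (-(θ * I) : ℂ) * (n : ℂ) ^ (2 * θ * I : ℂ) := by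
  have hn0 : (0 : ℝ) < n := by exact_mod_cast hn
  have hc0 : (0 : ℝ) < c := by exact_mod_cast hc
  have e1 : q * ((c : ℝ) / (q * n)) ^ 2 = ((c : ℝ) ^ 2 / q) * ((n : ℝ) ^ 2)⁻¹ := by
    field_simp
  rw [e1, Complex.ofReal_mul, Complex.mul_cpow_ofReal_nonneg (by positivity) (by positivity),
    Complex.ofReal_inv, Complex.inv_cpow _ _ (by
      rw [Complex.arg_ofReal_of_nonneg (by positivity)]
      exact Real.pi_pos.ne), ← Complex.cpow_neg, neg_neg]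
  congr 1
  have e2 : (((n : ℝ) ^ 2 : ℝ) : ℂ) = (n : ℂ) ^ (2 : ℕ) := by push_cast; rfl
  rw [e2, ← Complex.natCast_cpow_natCast_mul]
  congr 1
  push_cast
  ring

private theorem qdof_conv (b : ℕ → ℂ) (θ : ℝ) (om : ℝ → ℝ) (β : ℝ) :
    (fun α : ℝ => (om α : ℂ) * Es b β (1 - ((-θ : ℝ) : ℂ) * I + α)) =
      fun α : ℝ => (om α : ℂ) * Es b β (1 + θ * I + α) := by
  funext α
  congr 2
  push_cast
  ring

theorem qd_of {b : ℕ → ℂ} {θ : ℝ} {U : Ultrafilter ℝ} {om : ℝ → ℝ} {M0 : ℕ} (B : BD b θ U om M0)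
    {q : ℝ} (hq : 0 < q) (hqr : ∃ k : ℚ, q = (k : ℝ)) {ωm ωp : ℂ} (h : CStep q b ωm ωp) :
    ∃ (N u0 c : ℕ) (w : ℂ) (D : ZMod c → ℂ), QD b θ U om M0 N u0 c w D := by
  obtain ⟨c, a, hc, hac, hnz⟩ := nz B
  have hc0 : (0 : ℝ) < c := by exact_mod_cast hc
  have hex : ∀ n : ℕ, ∃ ρ : ℂ, Tendsto (fun α : ℝ =>
      (om α : ℂ) * Es b ((n : ℝ) / (c : ℝ)) (1 + θ * I + α)) U (𝓝 ρ) := by
    intro n
    obtain ⟨ρ, hρ⟩ := rho_ex B (-θ) (Or.inr rfl) n c hc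
    rw [qdof_conv] at hρ
    exact ⟨ρ, hρ⟩
  choose R hR using hex
  have hper : ∀ n j : ℕ, R (n + j * c) = R n := by
    intro n j
    have h1 := hR (n + j * c)
    have e1 : (((n + j * c : ℕ) : ℝ)) / (c : ℝ) = (n : ℝ) / c + j := by
      push_cast
      field_simp
    rw [e1] at h1
    simp only [Es_add] at h1
    exact tendsto_nhds_unique h1 (hR n)
  have hRa : R a ≠ 0 := by
    intro h0
    apply hnz
    have := hR a
    rw [h0] at this
    exact this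
  obtain ⟨j, hj⟩ := exists_nat_gt ((c : ℝ) / q)
  have hjpos : 0 < j := by
    rcases Nat.eq_zero_or_pos j with h0 | h0
    · exfalso
      rw [h0, Nat.cast_zero] at hj
      have : 0 < (c : ℝ) / q := by positivity
      linarith
    · exact h0
  set a1 : ℕ := a + j * c with ha1
  have ha1pos : 1 ≤ a1 := by
    have : 1 ≤ j * c := Nat.mul_pos hjpos hc
    omega
  have ha1R : (c : ℝ) ≤ q * a1 := by
    have h1 : (j : ℝ) ≤ (a1 : ℝ) := by
      have : j ≤ a1 := by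
        have h2 : j * 1 ≤ j * c := Nat.mul_le_mul_left j hc
        omega
      exact_mod_cast this
    rw [div_lt_iff₀ hq] at hj
    nlinarith
  have ha1c : Nat.Coprime a1 c := by
    rw [ha1]
    exact (Nat.coprime_add_mul_right_left a c j).2 hac
  have hRa1 : R a1 ≠ 0 := by
    rw [ha1, hper]
    exact hRa
  set K : ℂ := I * ωm * ((Real.sqrt q * ((c : ℝ) / q) : ℝ) : ℂ) *
    (((c : ℝ) ^ 2 / q : ℝ) : ℂ) ^ (-(θ * I) : ℂ) with hK
  have hωm : ωm ≠ 0 := by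
    intro h0
    have h1 := h.hm
    rw [h0, norm_zero] at h1
    exact zero_ne_one h1
  have hsq : 0 < Real.sqrt q := Real.sqrt_pos.2 hq
  have hKne : K ≠ 0 := by
    rw [hK]
    refine mul_ne_zero (mul_ne_zero (mul_ne_zero I_ne_zero hωm) ?_) ?_
    · have : (0 : ℝ) < Real.sqrt q * ((c : ℝ) / q) := by positivity
      exact_mod_cast this.ne'
    · have h1 : (((c : ℝ) ^ 2 / q : ℝ) : ℂ) ≠ 0 := by
        have : (0 : ℝ) < (c : ℝ) ^ 2 / q := by positivity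
        exact_mod_cast this.ne'
      rw [Complex.cpow_def_of_ne_zero h1]
      exact Complex.exp_ne_zero _
  have hmain : ∀ n : ℕ, 1 ≤ n → (c : ℝ) ≤ q * n → Tendsto (fun α : ℝ =>
      (om α : ℂ) * Es b ((c : ℝ) / (q * n)) (1 - θ * I + α)) U
        (𝓝 (K * (n : ℂ) ^ (-1 + 2 * θ * I : ℂ) * (starRingEnd ℂ) (R n))) := by
    intro n hn hcn
    have hn0 : (0 : ℝ) < n := by exact_mod_cast hn
    have hnc : (n : ℂ) ≠ 0 := by exact_mod_cast hn0.ne'
    have hβ : 0 < (c : ℝ) / (q * n) := by positivity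
    have hβ1 : (c : ℝ) / (q * n) ≤ 1 := by
      rw [div_le_one (by positivity)]
      exact hcn
    have e1 : 1 / (q * ((c : ℝ) / (q * n))) = (n : ℝ) / c := by
      field_simp
    have h1 := w_lim hq h B.pd.ram ((c : ℝ) / (q * n)) hβ hβ1 θ U B.le om B.om0 (R n)
      (by rw [e1]; exact hR n)
    rw [qdof_pow hq hc hn] at h1
    have e2 : I * ωm * ((Real.sqrt q * ((c : ℝ) / (q * n)) : ℝ) : ℂ) *
        ((((c : ℝ) ^ 2 / q : ℝ) : ℂ) ^ (-(θ * I) : ℂ) * (n : ℂ) ^ (2 * θ * I : ℂ)) *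
        (starRingEnd ℂ) (R n) =
        K * (n : ℂ) ^ (-1 + 2 * θ * I : ℂ) * (starRingEnd ℂ) (R n) := by
      rw [Complex.cpow_add _ _ hnc, Complex.cpow_neg_one, hK]
      have e3 : ((Real.sqrt q * ((c : ℝ) / (q * n)) : ℝ) : ℂ) =
          ((Real.sqrt q * ((c : ℝ) / q) : ℝ) : ℂ) * (n : ℂ)⁻¹ := by
        push_cast
        field_simp
      rw [e3]
      ring
    rw [e2] at h1
    exact h1
  obtain ⟨k, hk⟩ := hqr
  have hk0 : (0 : ℚ) < k := by
    have : (0 : ℝ) < (k : ℝ) := by rw [← hk]; exact hq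
    exact_mod_cast this
  have ha1Q : (0 : ℚ) < (a1 : ℚ) := by exact_mod_cast ha1pos
  have hcQ : (0 : ℚ) < (c : ℚ) := by exact_mod_cast hc
  set r : ℚ := c / (k * a1) with hr
  have hr0 : 0 < r := by positivity
  have hnum : 0 < r.num := Rat.num_pos.2 hr0
  have hrR : ((r.num.natAbs : ℕ) : ℝ) / ((r.den : ℕ) : ℝ) = (c : ℝ) / (q * a1) := by
    have h1 : (r : ℝ) = (c : ℝ) / (q * a1) := by
      rw [hr, hk]
      push_cast
      rfl
    rw [← h1]
    have h2 : ((r.num.natAbs : ℕ) : ℝ) = ((r.num : ℤ) : ℝ) := by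
      rw [Nat.cast_natAbs, abs_of_pos hnum]
    rw [h2]
    exact (Rat.cast_def r).symm
  have hcd : (starRingEnd ℂ) (R a1) ≠ 0 := by
    simpa using hRa1
  have hval : ∀ m : ℕ, R (a1 * (m : ZMod c).val) = R (a1 * m) := by
    intro m
    rw [ZMod.val_natCast]
    have e1 : a1 * m = a1 * (m % c) + (a1 * (m / c)) * c := by
      have := Nat.mod_add_div m c
      calc a1 * m = a1 * (m % c + c * (m / c)) := by rw [this]
        _ = _ := by ring
    rw [e1, hper]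
  have hden : (0 : ℝ) < ((r.den : ℕ) : ℝ) := by exact_mod_cast r.den_pos
  refine ⟨r.den, r.num.natAbs, c, K * (a1 : ℂ) ^ (-1 + 2 * θ * I : ℂ) * (starRingEnd ℂ) (R a1),
    fun x => (starRingEnd ℂ) (R (a1 * x.val)) / (starRingEnd ℂ) (R a1), ?_⟩
  refine
    { pd := B.pd
      le := B.le
      om0 := B.om0
      bdd := fun L hL χ => B.bdd θ (Or.inl rfl) L χ
      M0pos := B.M0pos
      good := fun r hr hrM L hL hrL => B.good θ (Or.inl rfl) r hr hrM L hrL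
      Npos := r.den_pos
      upos := Int.natAbs_pos.2 hnum.ne'
      cpos := hc
      cop := r.reduced
      w_ne := ?_
      D1 := ?_
      val := ?_ }
  · refine mul_ne_zero (mul_ne_zero hKne ?_) hcd
    rw [Complex.cpow_ne_zero_iff]
    left
    exact_mod_cast (by omega : a1 ≠ 0)
  · have h1 := hval 1
    rw [Nat.cast_one, mul_one] at h1
    show (starRingEnd ℂ) (R (a1 * (1 : ZMod c).val)) / (starRingEnd ℂ) (R a1) = 1
    rw [h1]
    exact div_self hcd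
  · intro m hm hmc
    have hm0 : (0 : ℝ) < m := by exact_mod_cast hm
    have hm1 : (1 : ℝ) ≤ m := by exact_mod_cast hm
    have h1 : 1 ≤ a1 * m := Nat.mul_pos ha1pos hm
    have h2 : (c : ℝ) ≤ q * ((a1 * m : ℕ) : ℝ) := by
      push_cast
      have h3 : 0 ≤ q * (a1 : ℝ) := by positivity
      nlinarith
    have h3 := hmain (a1 * m) h1 h2
    have e1 : (c : ℝ) / (q * ((a1 * m : ℕ) : ℝ)) =
        ((r.num.natAbs : ℕ) : ℝ) / (((r.den : ℕ) : ℝ) * m) := by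
      have h4 : ((r.num.natAbs : ℕ) : ℝ) / (((r.den : ℕ) : ℝ) * m) =
          ((r.num.natAbs : ℕ) : ℝ) / ((r.den : ℕ) : ℝ) / m := by
        rw [div_div]
      rw [h4, hrR, div_div]
      push_cast
      ring
    rw [e1] at h3
    have e2 : (((a1 * m : ℕ) : ℂ)) ^ (-1 + 2 * θ * I : ℂ) =
        (a1 : ℂ) ^ (-1 + 2 * θ * I : ℂ) * (m : ℂ) ^ (-1 + 2 * θ * I : ℂ) := by
      rw [Nat.cast_mul, Complex.natCast_mul_natCast_cpow]
    have e3 : K * (a1 : ℂ) ^ (-1 + 2 * θ * I : ℂ) * (starRingEnd ℂ) (R a1) *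
        (m : ℂ) ^ (-1 + 2 * θ * I : ℂ) *
        ((starRingEnd ℂ) (R (a1 * (m : ZMod c).val)) / (starRingEnd ℂ) (R a1)) =
        K * ((a1 * m : ℕ) : ℂ) ^ (-1 + 2 * θ * I : ℂ) * (starRingEnd ℂ) (R (a1 * m)) := by
      rw [hval m, e2]
      field_simp
    rw [e3]
    exact h3

end Pool.Agent.H11.PB
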