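import Mathlib
import Pool.Agent.H11.PB.Defs
import Pool.Agent.H11.PB.CH0
import Pool.Agent.H11.PB.QDOF
import Pool.Agent.H11.PB.EU2
import Pool.Agent.H11.PB.NRM2
import Pool.Agent.H11.PB.TOP
import Pool.Agent.H11.PB.NPR
import Pool.Agent.H11.PB.FIN2
import Pool.Agent.H11.PB.FAC2
import Pool.Agent.H11.PB.SPR
import Pool.Agent.H11.PB.PRF
import Pool.Agent.H11.SC5.StepC
import Pool.Agent.H11.SC.Final

/-!
# ASM: assembly

PROOF.  Suppose the second alternative fails: there are `L`, `χ`, `t`, `ε > 0` such that for all `C` there is `x ≥ 16` with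
`... > ε log log x + C`.  `normalise2` gives `δ` and `FEq b ..`, `cstep` (`SC5/StepC.lean`) gives `CStep q b ωm ωp`, `q = (2π Bp Q lam)²`,
`= (2π)² Q² ∏ lam^(2 lam)` (`cond_eq` of `SC/Final.lean`), rational and positive.  `chapter_zero`, `qd_of`, `euler_two`, `to_prim`,
`non_principal`, `finish2`, `factor_L_L`.
-/

set_option autoImplicit false

namespace Pool.Agent.H11.PB

open Complex Filter Topology Pool.Agent.H11.Selberg Pool.Agent.H11.SC Pool.Agent.H11.PC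

theorem alternative (a : ℕ → ℂ) (F : ℂ → ℂ) (hS : IsSelberg a F) (G : ℂ → ℂ)
    (hG : Differentiable ℂ G) (hGF : ∀ s, s ≠ 1 → G s = F s)
    (Q : ℝ) (r : ℕ) (lam : Fin r → ℝ) (mu : Fin r → ℂ) (ε : ℂ)
    (hQ : 0 < Q) (hlam : ∀ j, 0 < lam j) (hmu : ∀ j, 0 ≤ (mu j).re) (hε : ‖ε‖ = 1)
    (hfe : ∀ s : ℂ, 0 < s.re → s.re < 1 →
      completed Q lam mu F s =
        ε * (starRingEnd ℂ) (completed Q lam mu F (1 - (starRingEnd ℂ) s)))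
    (hdeg : 2 * ∑ j, lam j = 2)
    (hq : ∃ k : ℚ, (2 * Real.pi) ^ 2 * Q ^ 2 * ∏ j, (lam j) ^ (2 * lam j) = (k : ℝ))
    (hO : ∃ C : ℝ, ∀ x : ℝ, 16 ≤ x → S a x ≤ C * Real.log (Real.log x)) :
    (∃ (N1 : ℕ) (_ : NeZero N1) (χ1 : DirichletCharacter ℂ N1) (N2 : ℕ) (_ : NeZero N2)
      (χ2 : DirichletCharacter ℂ N2) (t1 t2 : ℝ), χ1.IsPrimitive ∧ χ2.IsPrimitive ∧
      χ1 ≠ 1 ∧ χ2 ≠ 1 ∧ ∀ p : ℕ, p.Prime → EP2 a χ1 t1 χ2 t2 p) ∨
    ∀ (L : ℕ) (_ : NeZero L) (χ : DirichletCharacter ℂ L) (t η : ℝ), 0 < η →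
      ∃ C : ℝ, ∀ x : ℝ, 16 ≤ x →
        (∑ p ∈ (Finset.Icc 1 ⌊x⌋₊).filter Nat.Prime,
          a p * χ (p : ZMod L) * (p : ℂ) ^ (-(1 + t * I) : ℂ)).re ≤
          η * Real.log (Real.log x) + C := by
  by_cases hP : ∀ (L : ℕ) (_ : NeZero L) (χ : DirichletCharacter ℂ L) (t η : ℝ), 0 < η →
      ∃ C : ℝ, ∀ x : ℝ, 16 ≤ x →
        (∑ p ∈ (Finset.Icc 1 ⌊x⌋₊).filter Nat.Prime,
          a p * χ (p : ZMod L) * (p : ℂ) ^ (-(1 + t * I) : ℂ)).re ≤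
          η * Real.log (Real.log x) + C
  · exact Or.inr hP
  · left
    push Not at hP
    obtain ⟨L, hL, χ, t, η, hη, hbad⟩ := hP
    obtain ⟨δ, F', mu', ε', hFE⟩ := normalise2 a F hS G hG hGF Q r lam mu ε hQ hlam hmu hε hfe
      (by linarith)
    obtain ⟨ωm, ωp, hC⟩ := cstep hFE
    have hqe := cond_eq Q r lam hlam
    have hq0 : 0 < (2 * Real.pi * Bp Q lam) ^ 2 := by
      have h1 : 0 < Bp Q lam := by
        unfold Bp
        have : 0 < ∏ j, (lam j) ^ (lam j) :=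
          Finset.prod_pos fun j _ => Real.rpow_pos_of_pos (hlam j) _
        positivity
      positivity
    rw [hqe] at hq
    obtain ⟨θ, U, om, M0, hB⟩ := chapter_zero a F hS hO δ χ t η hη hbad
    obtain ⟨N, u0, c, w, D, hQD⟩ := qd_of hB hq0 hq hC
    obtain ⟨L', hL', χ1, χ2, B, hBf, hE⟩ := euler_two hQD
    obtain ⟨N1, hN1, ψ1, N2, hN2, ψ2, t1, t2, hp1, hp2, hloc⟩ := to_prim a δ θ χ1 χ2 B hBf hE
    obtain ⟨h1, h2⟩ := non_principal a F hS G hG hGF ψ1 t1 ψ2 t2 B hBf hloc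
    exact ⟨N1, hN1, ψ1, N2, hN2, ψ2, t1, t2, hp1, hp2, h1, h2,
      finish2 a F hS Q r lam mu ε hQ hlam hmu hε hfe hdeg ψ1 hp1 h1 t1 ψ2 hp2 h2 t2 B hBf hloc⟩

end Pool.Agent.H11.PB
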